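import Pool.Agent.NPC.Defs

/-!
# The class EXPTIME
-/

namespace Pool.Agent.H820R2.SS

/-- The class `EXPTIME`: languages decided by a Turing machine (in the sense of Mathlib's
multi-stack machines) whose running time on inputs of length `n` is at most `2 ^ p(n)` for a
polynomial `p`. -/
def InEXPTIME (L : Set (List Bool)) : Prop :=
  ∃ V : List Bool → List Bool,
    ∃ h : Turing.TM2ComputableInTime (id : List Bool → List Bool) (id : List Bool → List Bool) V,
    ∃ p : Polynomial ℕ, (∀ n, h.time n ≤ 2 ^ p.eval n) ∧ ∀ x, x ∈ L ↔ V x = [true]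

end Pool.Agent.H820R2.SS
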