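import Pool.Agent.NPC.Defs

/-!
# Alternating register machines

Finitely many controls, Boolean registers; a rule has a head control, guards on the registers and a
list of premises, each with a new control and updates of registers.  Derivability is the least
fixed point.
-/

namespace Pool.Agent.H820R2.SS

/-- A rule: head control, guards (register, required value), premises (control, updates). -/
abbrev ARule : Type := ℕ × List (ℕ × Bool) × List (ℕ × List (ℕ × Bool))

/-- Updating registers. -/
def upd (ρ : ℕ → Bool) (u : List (ℕ × Bool)) : ℕ → Bool := fun i => (u.lookup i).getD (ρ i)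

/-- Derivability of (control, registers). -/
inductive Der (P : List ARule) : ℕ → (ℕ → Bool) → Prop
  | mk (r : ARule) (ρ : ℕ → Bool) (hr : r ∈ P) (hg : ∀ g ∈ r.2.1, ρ g.1 = g.2)
      (hp : ∀ s ∈ r.2.2, Der P s.1 (upd ρ s.2)) : Der P r.1 ρ

/-- An instance: number of registers (in unary), start control, rules. -/
abbrev ARM : Type := List Unit × ℕ × List ARule

/-- The promise: all registers mentioned are smaller than the number of registers. -/
def ARMPr (M : ARM) : Prop :=
  ∀ r ∈ M.2.2, (∀ g ∈ r.2.1, g.1 < M.1.length) ∧ ∀ s ∈ r.2.2, ∀ u ∈ s.2, u.1 < M.1.length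

/-- Acceptance: the start control is derivable with all registers `false`. -/
def ARMAcc (M : ARM) : Prop := Der M.2.2 M.2.1 (fun _ => false)

end Pool.Agent.H820R2.SS
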