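import Pool.Agent.H820R2.SS.Game
import Pool.Agent.H820R2.SS.ARM

/-!
# From alternating register machines to games: definition
-/

namespace Pool.Agent.H820R2.SS

/-- The bit for: register `i` has value `v`; bit `0` is always alive. -/
def lab (i : ℕ) (v : Bool) : ℕ := if v then 2 * i + 2 else 2 * i + 1

/-- Transfer relation that copies one bit to all `n` bits. -/
def testF (n b : ℕ) : List (ℕ × ℕ) := (List.range n).map (fun b' => (b, b'))

/-- Transfer relation of an update of `N` registers. -/
def updF (N : ℕ) (U : List (ℕ × Bool)) : List (ℕ × ℕ) :=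
  (0, 0) :: (List.range N).flatMap (fun i =>
    Option.elim (U.lookup i) [(lab i false, lab i false), (lab i true, lab i true)]
      (fun v => [(0, lab i v)]))

/-- The moves (indices of rules) for a control. -/
def nextC (P : List ARule) (q : ℕ) : List ℕ :=
  (P.zipIdx.filter (fun p => p.1.1 = q)).map (fun p => p.2)

/-- The branches of the move of a rule. -/
def ruleBr (N : ℕ) (P : List ARule) (r : ARule) : List Branch :=
  (testF (2 * N + 1) 0, [P.length]) ::
    (r.2.1.map (fun g => (testF (2 * N + 1) (lab g.1 g.2), [P.length])) ++
      r.2.2.map (fun s => (updF N s.2, nextC P s.1)))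

/-- The game of an alternating register machine. -/
def ofARM (M : ARM) : Game :=
  (M.1 ++ M.1, 0 :: (List.range M.1.length).map (fun i => lab i false), nextC M.2.2 M.2.1,
    M.2.2.map (ruleBr M.1.length M.2.2) ++ [[]])

end Pool.Agent.H820R2.SS
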