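import Pool.Agent.H820R2.SS.OfARM

/-!
# From alternating register machines to games: correctness
-/

namespace Pool.Agent.H820R2.SS

theorem lab_inj {i i' : ℕ} {v v' : Bool} (h : lab i v = lab i' v') : i = i' ∧ v = v' := by
  cases v <;> cases v' <;> simp [lab] at h ⊢ <;> omega

theorem lab_pos (i : ℕ) (v : Bool) : lab i v ≠ 0 := by
  cases v <;> simp [lab]

theorem lab_lt {i N : ℕ} {v : Bool} (h : i < N) : lab i v < 2 * N + 1 := by
  cases v <;> simp [lab] <;> omega

/-- The bits alive for given register contents. -/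
def ZR (N : ℕ) (ρ : ℕ → Bool) (b : ℕ) : Prop := b = 0 ∨ ∃ i < N, b = lab i (ρ i)

theorem zr_lab {N i : ℕ} {ρ : ℕ → Bool} {v : Bool} (h : ZR N ρ (lab i v)) : ρ i = v := by
  rcases h with h | ⟨i', _, h⟩
  · exact absurd h (lab_pos i v)
  · obtain ⟨rfl, rfl⟩ := lab_inj h
    rfl

theorem mem_nextC {P : List ARule} {q m : ℕ} : m ∈ nextC P q ↔ ∃ h : m < P.length, P[m].1 = q := by
  simp only [nextC, List.mem_map, List.mem_filter, decide_eq_true_eq]
  constructor
  · rintro ⟨⟨r, k⟩, ⟨h1, h2⟩, rfl⟩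
    rw [List.mem_zipIdx_iff_getElem?] at h1
    obtain ⟨h3, h4⟩ := List.getElem?_eq_some_iff.1 h1
    exact ⟨h3, by rw [h4]; exact h2⟩
  · rintro ⟨h1, h2⟩
    exact ⟨(P[m], m), ⟨List.mem_zipIdx_iff_getElem?.2 (List.getElem?_eq_getElem h1), h2⟩, rfl⟩

variable {M : ARM}

theorem ofARM_n : (ofARM M).n = 2 * M.1.length + 1 := by
  simp [Game.n, ofARM]
  omega

theorem ofARM_M : (ofARM M).M = M.2.2.length + 1 := by
  simp [Game.M, ofARM]

theorem ofARM_brs {m : ℕ} (h : m < M.2.2.length) :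
    (ofARM M).brs m = ruleBr M.1.length M.2.2 M.2.2[m] := by
  simp [Game.brs, ofARM, List.getElem?_append_left, h]

theorem ofARM_brs_leaf : (ofARM M).brs M.2.2.length = [] := by
  simp [Game.brs, ofARM]

theorem ofARM_J_leaf : (ofARM M).J M.2.2.length = 0 := by
  simp [Game.J, ofARM_brs_leaf]

theorem win_leaf_iff {Z : ℕ → Prop} : (ofARM M).Win M.2.2.length Z ↔ ∀ b < (ofARM M).n, Z b := by
  constructor
  · intro h
    cases h with
    | leaf _ _ h => exact h
    | node _ hJ => rw [ofARM_J_leaf] at hJ; omega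
  · intro h
    exact Game.Win.leaf (by rw [ofARM_M]; omega) ofARM_J_leaf h

theorem testF_image {b0 : ℕ} {Z : ℕ → Prop} (hb : b0 < 2 * M.1.length + 1) :
    (∀ b < (ofARM M).n, (ofARM M).image (testF (2 * M.1.length + 1) b0) Z b) ↔ Z b0 := by
  constructor
  · intro h
    obtain ⟨b, ⟨_, h1⟩, h2⟩ := h 0 (ofARM M).n_pos
    simp only [testF, List.mem_map] at h2
    obtain ⟨_, _, h3⟩ := h2
    injection h3 with h3 _
    rw [h3]
    exact h1
  · intro h b hb'
    refine ⟨b0, ⟨by rw [ofARM_n]; exact hb, h⟩, ?_⟩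
    simp only [testF, List.mem_map]
    exact ⟨b, by rw [List.mem_range]; rw [ofARM_n] at hb'; exact hb', rfl⟩

theorem mem_updF {N : ℕ} {U : List (ℕ × Bool)} {b b' : ℕ} : (b, b') ∈ updF N U ↔
    (b = 0 ∧ b' = 0) ∨ ∃ i < N, (∃ v, U.lookup i = some v ∧ b = 0 ∧ b' = lab i v) ∨
      (U.lookup i = none ∧ ∃ v, b = lab i v ∧ b' = lab i v) := by
  rw [updF, List.mem_cons, List.mem_flatMap]
  constructor
  · rintro (h | ⟨i, hi, h⟩)
    · injection h with h1 h2
      exact Or.inl ⟨h1, h2⟩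
    · rw [List.mem_range] at hi
      right
      refine ⟨i, hi, ?_⟩
      cases hU : U.lookup i with
      | none =>
        rw [hU] at h
        simp only [Option.elim, List.mem_cons, List.not_mem_nil, or_false, Prod.mk.injEq] at h
        rcases h with h | h
        · exact Or.inr ⟨rfl, false, h⟩
        · exact Or.inr ⟨rfl, true, h⟩
      | some v =>
        rw [hU] at h
        simp only [Option.elim, List.mem_cons, List.not_mem_nil, or_false, Prod.mk.injEq] at h
        exact Or.inl ⟨v, rfl, h⟩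
  · rintro (⟨rfl, rfl⟩ | ⟨i, hi, ⟨v, hU, rfl, rfl⟩ | ⟨hU, v, rfl, rfl⟩⟩)
    · exact Or.inl rfl
    · right
      refine ⟨i, List.mem_range.2 hi, ?_⟩
      rw [hU]
      simp
    · right
      refine ⟨i, List.mem_range.2 hi, ?_⟩
      rw [hU]
      cases v <;> simp

theorem upd_some {ρ : ℕ → Bool} {U : List (ℕ × Bool)} {i : ℕ} {v : Bool} (h : U.lookup i = some v) :
    upd ρ U i = v := by simp [upd, h]

theorem upd_none {ρ : ℕ → Bool} {U : List (ℕ × Bool)} {i : ℕ} (h : U.lookup i = none) :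
    upd ρ U i = ρ i := by simp [upd, h]

theorem win_of_der (hM : ARMPr M) {q : ℕ} {ρ : ℕ → Bool} (h : Der M.2.2 q ρ) :
    ∃ m ∈ nextC M.2.2 q, (ofARM M).Win m (ZR M.1.length ρ) := by
  induction h with
  | mk r ρ hr hg hp ih =>
    obtain ⟨k, hk, hkr⟩ := List.getElem_of_mem hr
    refine ⟨k, mem_nextC.2 ⟨hk, by rw [hkr]⟩, ?_⟩
    have hbr : (ofARM M).brs k = ruleBr M.1.length M.2.2 r := by rw [ofARM_brs hk, hkr]
    have key : ∀ br ∈ ruleBr M.1.length M.2.2 r, ∃ m' ∈ br.2,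
        (ofARM M).Win m' ((ofARM M).image br.1 (ZR M.1.length ρ)) := by
      intro br hbr
      rw [ruleBr, List.mem_cons, List.mem_append, List.mem_map, List.mem_map] at hbr
      rcases hbr with rfl | ⟨g, hg', rfl⟩ | ⟨s, hs, rfl⟩
      · refine ⟨_, List.mem_singleton.2 rfl, ?_⟩
        rw [win_leaf_iff, testF_image (by omega)]
        exact Or.inl rfl
      · refine ⟨_, List.mem_singleton.2 rfl, ?_⟩
        have hlt := (hM r hr).1 g hg'
        rw [win_leaf_iff, testF_image (lab_lt hlt)]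
        exact Or.inr ⟨g.1, hlt, by rw [hg g hg']⟩
      · obtain ⟨m', hm', hw⟩ := ih s hs
        refine ⟨m', hm', hw.mono ?_⟩
        rintro b _ (rfl | ⟨i, hi, rfl⟩)
        · exact ⟨0, ⟨(ofARM M).n_pos, Or.inl rfl⟩, mem_updF.2 (Or.inl ⟨rfl, rfl⟩)⟩
        · cases hU : s.2.lookup i with
          | none =>
            rw [upd_none hU]
            exact ⟨lab i (ρ i), ⟨by rw [ofARM_n]; exact lab_lt hi, Or.inr ⟨i, hi, rfl⟩⟩,
              mem_updF.2 (Or.inr ⟨i, hi, Or.inr ⟨hU, _, rfl, rfl⟩⟩)⟩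
          | some v =>
            rw [upd_some hU]
            exact ⟨0, ⟨(ofARM M).n_pos, Or.inl rfl⟩,
              mem_updF.2 (Or.inr ⟨i, hi, Or.inl ⟨v, hU, rfl, rfl⟩⟩)⟩
    have hJ : 0 < (ofARM M).J k := by
      simp [Game.J, hbr, ruleBr]
    have key2 : ∀ j, ∃ m', j < (ofARM M).J k → m' ∈ ((ofARM M).br k j).2 ∧
        (ofARM M).Win m' ((ofARM M).image ((ofARM M).br k j).1 (ZR M.1.length ρ)) := by
      intro j
      by_cases hj : j < (ofARM M).J k
      · have hmem : (ofARM M).br k j ∈ ruleBr M.1.length M.2.2 r := by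
          rw [← hbr]
          unfold Game.br
          rw [List.getD_eq_getElem _ _ hj]
          exact List.getElem_mem _
        obtain ⟨m', h1, h2⟩ := key _ hmem
        exact ⟨m', fun _ => ⟨h1, h2⟩⟩
      · exact ⟨0, fun h => absurd h hj⟩
    choose f hf using key2
    exact Game.Win.node (by rw [ofARM_M]; omega) hJ f (fun j hj => (hf j hj).1)
      (fun j hj => (hf j hj).2)

theorem der_of_win (hM : ARMPr M) {m : ℕ} {Z : ℕ → Prop} (h : (ofARM M).Win m Z) :
    ∀ (hm : m < M.2.2.length) (ρ : ℕ → Bool), (∀ b < (ofARM M).n, Z b → ZR M.1.length ρ b) →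
      Der M.2.2 M.2.2[m].1 ρ := by
  induction h with
  | leaf hm' hJ hZ =>
    intro hm
    rw [Game.J, ofARM_brs hm] at hJ
    simp [ruleBr] at hJ
  | @node m Z hm' hJ f hf h ih =>
    intro hm ρ hZ
    have hbr := ofARM_brs hm
    -- every branch is won by some move
    have key : ∀ br ∈ ruleBr M.1.length M.2.2 M.2.2[m], ∃ m' ∈ br.2,
        (ofARM M).Win m' ((ofARM M).image br.1 Z) ∧
        ∀ (hm : m' < M.2.2.length) (ρ : ℕ → Bool), (∀ b < (ofARM M).n,
          (ofARM M).image br.1 Z b → ZR M.1.length ρ b) → Der M.2.2 M.2.2[m'].1 ρ := by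
      intro br hmem
      rw [← hbr] at hmem
      obtain ⟨j, hj, hjb⟩ := List.getElem_of_mem hmem
      have hj' : j < (ofARM M).J m := hj
      have e : br = (ofARM M).br m j := by
        rw [← hjb]
        exact (List.getD_eq_getElem _ _ hj).symm
      rw [e]
      exact ⟨f j, hf j hj', h j hj', ih j hj'⟩
    have hr : M.2.2[m] ∈ M.2.2 := List.getElem_mem _
    refine Der.mk _ ρ hr (fun g hg => ?_) (fun s hs => ?_)
    · obtain ⟨m', h1, h2, _⟩ := key (testF (2 * M.1.length + 1) (lab g.1 g.2), [M.2.2.length]) (by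
        rw [ruleBr, List.mem_cons, List.mem_append, List.mem_map]
        exact Or.inr (Or.inl ⟨g, hg, rfl⟩))
      rw [List.mem_singleton] at h1
      subst h1
      have hlt := lab_lt (v := g.2) ((hM _ hr).1 g hg)
      rw [win_leaf_iff, testF_image hlt] at h2
      exact zr_lab (hZ _ (by rw [ofARM_n]; exact hlt) h2)
    · obtain ⟨m', h1, _, h3⟩ := key (updF M.1.length s.2, nextC M.2.2 s.1) (by
        rw [ruleBr, List.mem_cons, List.mem_append, List.mem_map, List.mem_map]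
        exact Or.inr (Or.inr ⟨s, hs, rfl⟩))
      obtain ⟨hm1, hm2⟩ := mem_nextC.1 h1
      rw [← hm2]
      apply h3 hm1
      rintro b' _ ⟨b, ⟨hb, hZb⟩, hbb⟩
      rcases mem_updF.1 hbb with ⟨rfl, rfl⟩ | ⟨i, hi, ⟨v, hU, rfl, rfl⟩ | ⟨hU, v, rfl, rfl⟩⟩
      · exact Or.inl rfl
      · exact Or.inr ⟨i, hi, by rw [upd_some hU]⟩
      · refine Or.inr ⟨i, hi, ?_⟩
        rw [upd_none hU, zr_lab (hZ _ hb hZb)]

theorem mem_Z0_iff {b : ℕ} : b ∈ (ofARM M).Z0 ↔ ZR M.1.length (fun _ => false) b := by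
  simp only [Game.Z0, ofARM, List.mem_cons, List.mem_map, List.mem_range, ZR]
  constructor
  · rintro (h | ⟨i, h1, h2⟩)
    · exact Or.inl h
    · exact Or.inr ⟨i, h1, h2.symm⟩
  · rintro (h | ⟨i, h1, h2⟩)
    · exact Or.inl h
    · exact Or.inr ⟨i, h1, h2.symm⟩

/-- The game of an alternating register machine is correct. -/
theorem ofARM_correct (hM : ARMPr M) : ARMAcc M ↔ (ofARM M).Acc := by
  constructor
  · intro h
    obtain ⟨m, hm, hw⟩ := win_of_der hM h
    exact ⟨m, hm, hw.mono (fun b _ hb => mem_Z0_iff.2 hb)⟩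
  · rintro ⟨m, hm, hw⟩
    obtain ⟨h1, h2⟩ := mem_nextC.1 hm
    have := der_of_win hM hw h1 (fun _ => false) (fun b _ hb => mem_Z0_iff.1 hb)
    rw [h2] at this
    exact this

end Pool.Agent.H820R2.SS
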