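import Pool.Agent.H820R2.SS.Basic

/-!
# Analysis of strong sequentiality of left-linear systems
-/

namespace Pool.Agent.H820R2.SS

open Relation

/-- All rules are left-linear rules. -/
def LL (R : TRS) : Prop := ∀ ρ ∈ R, IsRule ρ ∧ LeftLinear ρ

/-- Reachability by arbitrary reduction. -/
abbrev Rch (R : TRS) : Tm → Tm → Prop := ReflTransGen (Step R)

/-- `u` is an instance of `p`. -/
def Inst (p u : Tm) : Prop := ∃ σ : ℕ → Tm, u = p.subst σ

/-- `t` can reach an instance of `p`. -/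
def Mt (R : TRS) (t p : Tm) : Prop := ∃ u, Rch R t u ∧ Inst p u

/-- `t` can reach a redex. -/
def Soft (R : TRS) (t : Tm) : Prop := ∃ u, Rch R t u ∧ IsRedex R u

/-- `t` can reach a term without `•`. -/
def Er (R : TRS) (t : Tm) : Prop := ∃ u, Rch R t u ∧ ¬ HasBul u

theorem RLS.refl (R : TRS) (us : List Tm) : RLS R us us := ⟨rfl, fun _ _ => ReflTransGen.refl⟩

theorem RLS.step {R : TRS} {us : List Tm} {l r : List Tm} {a b : Tm} (h : RLS R us (l ++ a :: r))
    (hab : Step R a b) : RLS R us (l ++ b :: r) := by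
  refine ⟨by rw [h.1]; simp, fun i hi => ?_⟩
  by_cases hil : i = l.length
  · subst hil
    have := h.2 _ hi
    rw [gt_append_cons_eq] at this ⊢
    exact this.tail hab
  · rw [← gt_append_cons_ne l r a b i hil]
    exact h.2 i hi

theorem root_lemmaS {R : TRS} {g : ℕ} {ts : List Tm} {u : Tm} (h : Rch R (.fn g ts) u) :
    (∃ us, u = .fn g us ∧ RLS R ts us) ∨ (∃ us, RLS R ts us ∧ IsRedex R (.fn g us)) := by
  induction h with
  | refl => exact Or.inl ⟨ts, rfl, RLS.refl R ts⟩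
  | @tail v w hv hvw ih =>
    rcases ih with ⟨vs, rfl, hvs⟩ | h
    · generalize hx : Tm.fn g vs = x at hvw
      cases hvw with
      | root ht hs =>
        subst hx
        exact Or.inr ⟨vs, hvs, ht⟩
      | @arg f l r a b h =>
        obtain ⟨h1, h2⟩ := Tm.fn_inj hx
        subst h1 h2
        exact Or.inl ⟨_, rfl, hvs.step h⟩
    · exact Or.inr h

theorem LL.redex_fn {R : TRS} (hR : LL R) {t : Tm} (h : IsRedex R t) : ∃ g us, t = .fn g us := by
  obtain ⟨ρ, hρ, σ, rfl⟩ := h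
  obtain ⟨⟨h1, _, h2, _⟩, _⟩ := hR ρ hρ
  cases hl : ρ.1 with
  | var x => exact absurd hl (h2 x)
  | bul =>
    rw [hl] at h1
    exact absurd hasBul_bul h1
  | fn g us => exact ⟨g, _, subst_fn σ g us⟩

theorem LL.nf_var {R : TRS} (hR : LL R) (x : ℕ) : NF R (.var x) := by
  intro D h hD
  cases h
  obtain ⟨g, us, h⟩ := hR.redex_fn hD
  simp at h

theorem LL.nf_bul {R : TRS} (hR : LL R) : NF R .bul := by
  intro D h hD
  cases h
  obtain ⟨g, us, h⟩ := hR.redex_fn hD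
  simp at h

theorem nf_no_stepS {R : TRS} {s u : Tm} (h : Step R s u) : ¬ NF R s := by
  induction h with
  | root ht hs => exact fun h => h _ (Subterm.refl _) ht
  | arg h ih =>
    intro h2
    exact ih (fun D hD => h2 D (Subterm.arg (by simp) hD))

theorem nf_rch {R : TRS} {s u : Tm} (h : NF R s) (hu : Rch R s u) : u = s := by
  induction hu using ReflTransGen.head_induction_on with
  | refl => rfl
  | head h1 _ _ => exact absurd h (nf_no_stepS h1)

theorem nf_fn {R : TRS} {f : ℕ} {ts : List Tm} (h1 : ¬ IsRedex R (.fn f ts))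
    (h2 : ∀ a ∈ ts, NF R a) : NF R (.fn f ts) := by
  intro D hD hDr
  rcases subterm_fn hD with rfl | ⟨a, ha, h⟩
  · exact h1 hDr
  · exact h2 a ha D h hDr

theorem step_var0 {R : TRS} {t : Tm} (h : IsRedex R t) : Step R t (.var 0) :=
  Step.root h (by intro s hs; simp at hs)

/-- Every term can be normalised without creating `•`. -/
theorem LL.normalise {R : TRS} (hR : LL R) (t : Tm) :
    ∃ s, Rch R t s ∧ NF R s ∧ (¬ HasBul t → ¬ HasBul s) := by
  induction t with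
  | var x => exact ⟨_, ReflTransGen.refl, hR.nf_var x, id⟩
  | bul => exact ⟨_, ReflTransGen.refl, hR.nf_bul, id⟩
  | fn f ts ih =>
    have h1 : ∀ i : Fin ts.length, ∃ s, Rch R (gt ts i) s ∧ NF R s ∧
        (¬ HasBul (gt ts i) → ¬ HasBul s) := fun i => ih _ (gt_mem i.2)
    choose s h2 h3 h4 using h1
    have h5 : RLS R ts (List.ofFn s) := by
      refine ⟨by simp, fun i hi => ?_⟩
      have := h2 ⟨i, hi⟩
      simpa [gt, hi] using this
    have h6 := RS.congr_args f h5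
    by_cases h7 : IsRedex R (.fn f (List.ofFn s))
    · exact ⟨_, h6.tail (step_var0 h7), hR.nf_var 0, fun _ => not_hasBul_var 0⟩
    · refine ⟨_, h6, nf_fn h7 ?_, fun hb => ?_⟩
      · intro a ha
        obtain ⟨i, rfl⟩ := (List.mem_ofFn' s a).1 ha
        exact h3 i
      · rw [hasBul_fn]
        rintro ⟨a, ha, hab⟩
        obtain ⟨i, rfl⟩ := (List.mem_ofFn' s a).1 ha
        exact h4 i (fun h => hb (hasBul_fn.2 ⟨_, gt_mem i.2, h⟩)) hab

theorem LL.not_needed_iff {R : TRS} (hR : LL R) (c : Tm) : ¬ StronglyNeeded R c ↔ Er R c := by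
  constructor
  · intro h
    unfold StronglyNeeded at h
    push Not at h
    obtain ⟨s, h1, _, h2⟩ := h
    exact ⟨s, h1, h2⟩
  · rintro ⟨u, h1, h2⟩ h
    obtain ⟨s, h3, h4, h5⟩ := hR.normalise u
    exact h5 h2 (h s (h1.trans h3) h4)

/-! ### Instances of linear terms -/

theorem subst_congr {σ τ : ℕ → Tm} (t : Tm) (h : ∀ x ∈ t.vars, σ x = τ x) :
    t.subst σ = t.subst τ := by
  induction t with
  | var x => simpa using h x (by simp)
  | bul => simp
  | fn f ts ih =>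
    rw [subst_fn, subst_fn]
    congr 1
    apply List.map_congr_left
    intro a ha
    refine ih a ha fun x hx => h x ?_
    rw [vars_fn, List.mem_flatMap]
    exact ⟨a, ha, hx⟩

theorem subst_var_self (t : Tm) : t.subst Tm.var = t := by
  induction t with
  | var x => simp
  | bul => simp
  | fn f ts ih =>
    rw [subst_fn]
    congr 1
    conv_rhs => rw [← List.map_id ts]
    exact List.map_congr_left ih

theorem inst_self (p : Tm) : Inst p p := ⟨Tm.var, (subst_var_self p).symm⟩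

theorem inst_var (x : ℕ) (t : Tm) : Inst (.var x) t := ⟨fun _ => t, by simp⟩

theorem inst_args : ∀ {ps us : List Tm}, ps.length = us.length → (ps.flatMap Tm.vars).Nodup →
    (∀ i < ps.length, Inst (gt ps i) (gt us i)) → ∃ σ, us = ps.map (Tm.subst σ)
  | [], [], _, _, _ => ⟨Tm.var, rfl⟩
  | [], _ :: _, h, _, _ => by simp at h
  | _ :: _, [], h, _, _ => by simp at h
  | p :: ps, u :: us, h1, h2, h3 => by
    rw [List.flatMap_cons, List.nodup_append] at h2
    obtain ⟨h4, h5, h6⟩ := h2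
    obtain ⟨σ, hσ⟩ := h3 0 (by simp)
    obtain ⟨τ, hτ⟩ := inst_args (ps := ps) (us := us) (by simpa using h1) h5 (fun i hi => by
      have := h3 (i + 1) (by simpa using hi)
      simpa [gt] using this)
    classical
    refine ⟨fun x => if x ∈ p.vars then σ x else τ x, ?_⟩
    rw [List.map_cons]
    congr 1
    · have h7 : gt (u :: us) 0 = u := rfl
      have h8 : gt (p :: ps) 0 = p := rfl
      rw [h7, h8] at hσ
      rw [hσ]
      apply subst_congr
      intro x hx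
      rw [if_pos hx]
    · rw [hτ]
      apply List.map_congr_left
      intro a ha
      apply subst_congr
      intro x hx
      rw [if_neg]
      intro hx'
      exact h6 x hx' x (List.mem_flatMap.2 ⟨a, ha, hx⟩) rfl

theorem inst_fn {g : ℕ} {ps us : List Tm} (h1 : ps.length = us.length)
    (h2 : (Tm.fn g ps).vars.Nodup) (h3 : ∀ i < ps.length, Inst (gt ps i) (gt us i)) :
    Inst (.fn g ps) (.fn g us) := by
  rw [vars_fn] at h2
  obtain ⟨σ, hσ⟩ := inst_args h1 h2 h3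
  exact ⟨σ, by rw [subst_fn, ← hσ]⟩

theorem inst_fn_inv {g g' : ℕ} {ps us : List Tm} (h : Inst (.fn g ps) (.fn g' us)) :
    g = g' ∧ ps.length = us.length ∧ ∀ i < ps.length, Inst (gt ps i) (gt us i) := by
  obtain ⟨σ, hσ⟩ := h
  rw [subst_fn] at hσ
  obtain ⟨h1, rfl⟩ := Tm.fn_inj hσ
  refine ⟨h1.symm, by simp, fun i hi => ⟨σ, ?_⟩⟩
  simp [gt, hi]

/-! ### Reachable patterns -/

theorem Mt.of_rch {R : TRS} {t t' p : Tm} (h : Rch R t t') (h' : Mt R t' p) : Mt R t p := by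
  obtain ⟨u, h1, h2⟩ := h'
  exact ⟨u, h.trans h1, h2⟩

theorem mt_var (R : TRS) (t : Tm) (x : ℕ) : Mt R t (.var x) :=
  ⟨t, ReflTransGen.refl, inst_var x t⟩

theorem Soft.mt {R : TRS} {t p : Tm} (h : Soft R t) (hp : Over R.sig p) : Mt R t p := by
  obtain ⟨u, h1, h2⟩ := h
  exact ⟨p, h1.tail (Step.root h2 hp), inst_self p⟩

theorem Soft.er {R : TRS} {t : Tm} (h : Soft R t) : Er R t := by
  obtain ⟨u, h1, h2⟩ := h
  exact ⟨.var 0, h1.tail (step_var0 h2), not_hasBul_var 0⟩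

theorem mt_fn {R : TRS} {g : ℕ} {ps ts : List Tm} (h1 : ps.length = ts.length)
    (h2 : (Tm.fn g ps).vars.Nodup) (h3 : ∀ i < ts.length, Mt R (gt ts i) (gt ps i)) :
    ∃ us, RLS R ts us ∧ Inst (.fn g ps) (.fn g us) := by
  have h4 : ∀ i : Fin ts.length, Mt R (gt ts i) (gt ps i) := fun i => h3 i i.2
  choose u h5 h6 using h4
  refine ⟨List.ofFn u, ⟨by simp, fun i hi => ?_⟩, inst_fn (by simp [h1]) h2 fun i hi => ?_⟩
  · have := h5 ⟨i, hi⟩
    simpa [gt, hi] using this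
  · rw [h1] at hi
    have := h6 ⟨i, hi⟩
    simpa [gt, hi] using this

theorem Mt.fn {R : TRS} {g : ℕ} {ps ts : List Tm} (h1 : ps.length = ts.length)
    (h2 : (Tm.fn g ps).vars.Nodup) (h3 : ∀ i < ts.length, Mt R (gt ts i) (gt ps i)) :
    Mt R (.fn g ts) (.fn g ps) := by
  obtain ⟨us, h4, h5⟩ := mt_fn h1 h2 h3
  exact ⟨_, RS.congr_args g h4, h5⟩

theorem mt_fn_inv {R : TRS} {g g' : ℕ} {ps ts : List Tm} (h : Mt R (.fn g ts) (.fn g' ps)) :
    Soft R (.fn g ts) ∨ (g' = g ∧ ps.length = ts.length ∧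
      ∀ i < ts.length, Mt R (gt ts i) (gt ps i)) := by
  obtain ⟨u, h1, h2⟩ := h
  rcases root_lemmaS h1 with ⟨us, rfl, h3⟩ | ⟨us, h3, h4⟩
  · obtain ⟨h5, h6, h7⟩ := inst_fn_inv h2
    refine Or.inr ⟨h5, h6.trans h3.1.symm, fun i hi => ⟨_, h3.2 i hi, h7 i ?_⟩⟩
    rw [h6, ← h3.1]
    exact hi
  · exact Or.inl ⟨_, RS.congr_args g h3, h4⟩

theorem LL.soft_iff {R : TRS} (hR : LL R) {g : ℕ} {ts : List Tm} : Soft R (.fn g ts) ↔
    ∃ ρ ∈ R, ∃ ls, ρ.1 = .fn g ls ∧ ls.length = ts.length ∧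
      ∀ i < ts.length, Mt R (gt ts i) (gt ls i) := by
  constructor
  · rintro ⟨u, h1, h2⟩
    have key : ∀ us, RLS R ts us → IsRedex R (.fn g us) → ∃ ρ ∈ R, ∃ ls, ρ.1 = .fn g ls ∧
        ls.length = ts.length ∧ ∀ i < ts.length, Mt R (gt ts i) (gt ls i) := by
      rintro us h3 ⟨ρ, hρ, σ, hσ⟩
      obtain ⟨⟨h4, _, h5, _⟩, _⟩ := hR ρ hρ
      cases hl : ρ.1 with
      | var x => exact absurd hl (h5 x)
      | bul =>
        rw [hl] at h4
        exact absurd hasBul_bul h4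
      | fn g' ls =>
        rw [hl] at hσ
        obtain ⟨h6, h7, h8⟩ := inst_fn_inv (g := g') (ps := ls) ⟨σ, hσ⟩
        subst h6
        refine ⟨ρ, hρ, ls, hl, h7.trans h3.1.symm, fun i hi => ⟨_, h3.2 i hi, h8 i ?_⟩⟩
        rw [h7, ← h3.1]
        exact hi
    rcases root_lemmaS h1 with ⟨us, rfl, h3⟩ | ⟨us, h3, h4⟩
    · exact key us h3 h2
    · exact key us h3 h4
  · rintro ⟨ρ, hρ, ls, h1, h2, h3⟩
    have h4 := (hR ρ hρ).2
    unfold LeftLinear at h4
    rw [h1] at h4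
    obtain ⟨us, h5, σ, h6⟩ := mt_fn h2 h4 h3
    exact ⟨_, RS.congr_args g h5, ρ, hρ, σ, by rw [h1, h6]⟩

theorem LL.redex_iff {R : TRS} (hR : LL R) {g : ℕ} {ts : List Tm} : IsRedex R (.fn g ts) ↔
    ∃ ρ ∈ R, ∃ ls, ρ.1 = .fn g ls ∧ ls.length = ts.length ∧
      ∀ i < ts.length, Inst (gt ls i) (gt ts i) := by
  constructor
  · rintro ⟨ρ, hρ, σ, hσ⟩
    obtain ⟨⟨h4, _, h5, _⟩, _⟩ := hR ρ hρ
    cases hl : ρ.1 with
    | var x => exact absurd hl (h5 x)
    | bul =>
      rw [hl] at h4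
      exact absurd hasBul_bul h4
    | fn g' ls =>
      rw [hl] at hσ
      obtain ⟨h6, h7, h8⟩ := inst_fn_inv (g := g') (ps := ls) ⟨σ, hσ⟩
      subst h6
      exact ⟨ρ, hρ, ls, hl, h7, fun i hi => h8 i (by omega)⟩
  · rintro ⟨ρ, hρ, ls, h1, h2, h3⟩
    have h4 := (hR ρ hρ).2
    unfold LeftLinear at h4
    rw [h1] at h4
    obtain ⟨σ, h6⟩ := inst_fn (us := ts) h2 h4 (fun i hi => h3 i (by omega))
    exact ⟨ρ, hρ, σ, by rw [h1, h6]⟩

theorem er_fn {R : TRS} {g : ℕ} {us : List Tm} :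
    Er R (.fn g us) ↔ Soft R (.fn g us) ∨ ∀ i < us.length, Er R (gt us i) := by
  constructor
  · rintro ⟨u, h1, h2⟩
    rcases root_lemmaS h1 with ⟨vs, rfl, h3⟩ | ⟨vs, h3, h4⟩
    · refine Or.inr fun i hi => ⟨_, h3.2 i hi, fun h => h2 (hasBul_fn.2 ⟨_, gt_mem ?_, h⟩)⟩
      rw [← h3.1]
      exact hi
    · exact Or.inl ⟨_, RS.congr_args g h3, h4⟩
  · rintro (h | h)
    · exact h.er
    · have h4 : ∀ i : Fin us.length, Er R (gt us i) := fun i => h i i.2
      choose u h5 h6 using h4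
      refine ⟨.fn g (List.ofFn u), RS.congr_args g ⟨by simp, fun i hi => ?_⟩, ?_⟩
      · have := h5 ⟨i, hi⟩
        simpa [gt, hi] using this
      · rw [hasBul_fn]
        rintro ⟨a, ha, hab⟩
        obtain ⟨i, rfl⟩ := (List.mem_ofFn' u a).1 ha
        exact h6 i hab

theorem LL.not_er_bul {R : TRS} (hR : LL R) : ¬ Er R .bul := by
  rintro ⟨u, h1, h2⟩
  rw [nf_rch hR.nf_bul h1] at h2
  exact h2 hasBul_bul

theorem er_of_not_hasBul {R : TRS} {t : Tm} (h : ¬ HasBul t) : Er R t :=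
  ⟨t, ReflTransGen.refl, h⟩

theorem mt_of_nf {R : TRS} {t p : Tm} (ht : NF R t) (h : Mt R t p) : Inst p t := by
  obtain ⟨u, h1, h2⟩ := h
  rwa [nf_rch ht h1] at h2

end Pool.Agent.H820R2.SS
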