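import Pool.Agent.H820R2.SS.Alt

/-!
# A recursive characterisation of terms without strongly needed redex
-/

namespace Pool.Agent.H820R2.SS

open Relation

/-- Whatever redex is replaced by `•`, the resulting term can lose `•` or reach an instance of a
pattern of `X`. -/
def Bad (R : TRS) (X : Tm → Prop) (t : Tm) : Prop :=
  ∀ D c, IsRedex R D → OneHole D t c → Er R c ∨ ∃ q, X q ∧ Mt R c q

/-- A pattern. -/
def PatOK (R : TRS) (p : Tm) : Prop := Over R.sig p ∧ ¬ HasBul p ∧ p.vars.Nodup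

/-- The patterns to be considered for the argument `i`. -/
def Xi (R : TRS) (X : Tm → Prop) (g : ℕ) (ts : List Tm) (i : ℕ) (q' : Tm) : Prop :=
  ∃ qs, ((∃ ρ ∈ R, ρ.1 = .fn g qs) ∨ X (.fn g qs)) ∧ qs.length = ts.length ∧ q' = gt qs i ∧
    ∀ j < ts.length, j ≠ i → Mt R (gt ts j) (gt qs j)

theorem LL.notSS_iff {R : TRS} (hR : LL R) : ¬ StronglySequential R ↔
    ∃ t, Over R.sig t ∧ ¬ HasBul t ∧ ¬ NF R t ∧ Bad R (fun _ => False) t := by
  unfold StronglySequential
  push Not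
  constructor
  · rintro ⟨t, h1, h2, h3, h4⟩
    exact ⟨t, h1, h2, h3, fun D c hD hc => Or.inl ((hR.not_needed_iff c).1 (h4 D c hD hc))⟩
  · rintro ⟨t, h1, h2, h3, h4⟩
    refine ⟨t, h1, h2, h3, fun D c hD hc => (hR.not_needed_iff c).2 ?_⟩
    rcases h4 D c hD hc with h | ⟨q, h, _⟩
    · exact h
    · exact h.elim

theorem LL.bad_var {R : TRS} (hR : LL R) (X : Tm → Prop) (x : ℕ) : Bad R X (.var x) := by
  intro D c hD hc
  cases hc
  exact absurd hD (fun h => by
    obtain ⟨g, us, h⟩ := hR.redex_fn h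
    simp at h)

theorem Bad.of_var {R : TRS} {X : Tm → Prop} {x : ℕ} (h : X (.var x)) (t : Tm) : Bad R X t :=
  fun _ c _ _ => Or.inr ⟨_, h, mt_var R c x⟩

theorem Bad.mono {R : TRS} {X Y : Tm → Prop} (h : ∀ q, X q → Y q) {t : Tm} (ht : Bad R X t) :
    Bad R Y t := by
  intro D c hD hc
  rcases ht D c hD hc with h1 | ⟨q, h1, h2⟩
  · exact Or.inl h1
  · exact Or.inr ⟨q, h q h1, h2⟩

theorem oneHole_fnS {D : Tm} {g : ℕ} {ts : List Tm} {c : Tm} (h : OneHole D (.fn g ts) c) :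
    (D = .fn g ts ∧ c = .bul) ∨ ∃ i < ts.length, ∃ a, OneHole D (gt ts i) a ∧
      c = .fn g (ts.set i a) := by
  generalize hx : Tm.fn g ts = x at h
  cases h with
  | root => exact Or.inl ⟨rfl, rfl⟩
  | @arg f l r a c h =>
    obtain ⟨h1, h2⟩ := Tm.fn_inj hx
    subst h1 h2
    refine Or.inr ⟨l.length, by simp, c, ?_, ?_⟩
    · rw [gt_append_cons_eq]
      exact h
    · congr 1
      simp

theorem oneHole_setS {D : Tm} {g : ℕ} {ts : List Tm} {i : ℕ} (hi : i < ts.length) {e : Tm}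
    (h : OneHole D (gt ts i) e) : OneHole D (.fn g ts) (.fn g (ts.set i e)) := by
  have h1 : gt ts i = ts[i] := by simp [gt, hi]
  rw [h1] at h
  have h2 := OneHole.arg (f := g) (l := ts.take i) (r := ts.drop (i + 1)) h
  rw [List.cons_getElem_drop_succ, List.take_append_drop] at h2
  rw [List.set_eq_take_append_cons_drop, if_pos hi]
  exact h2

theorem LL.lhs_patOK {R : TRS} (hR : LL R) {ρ : Tm × Tm} (h : ρ ∈ R) : PatOK R ρ.1 := by
  obtain ⟨⟨h1, _, _, _⟩, h2⟩ := hR ρ h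
  refine ⟨fun s hs => ?_, h1, h2⟩
  unfold TRS.sig
  rw [List.mem_flatMap]
  exact ⟨ρ, h, List.mem_append_left _ hs⟩

/-- The condition for one hole in argument `i`. -/
theorem LL.hole_iff {R : TRS} (hR : LL R) {X : Tm → Prop} (hX : ∀ q, X q → PatOK R q)
    (hXv : ∀ x, ¬ X (.var x)) {g : ℕ} {ts : List Tm} (hb : ¬ HasBul (.fn g ts)) {i : ℕ}
    (hi : i < ts.length) (a : Tm) :
    (Er R (.fn g (ts.set i a)) ∨ ∃ q, X q ∧ Mt R (.fn g (ts.set i a)) q) ↔
      (Er R a ∨ ∃ q, Xi R X g ts i q ∧ Mt R a q) := by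
  have hl : (ts.set i a).length = ts.length := by simp
  -- componentwise match with a pattern
  have hcomp : ∀ qs : List Tm, (∀ j < (ts.set i a).length, Mt R (gt (ts.set i a) j) (gt qs j)) ↔
      (Mt R a (gt qs i) ∧ ∀ j < ts.length, j ≠ i → Mt R (gt ts j) (gt qs j)) := by
    intro qs
    rw [hl]
    constructor
    · intro h
      refine ⟨?_, fun j hj hji => ?_⟩
      · have := h i hi
        rwa [gt_set_self hi] at this
      · have := h j hj
        rwa [gt_set_ne hji] at this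
    · rintro ⟨h1, h2⟩ j hj
      by_cases hji : j = i
      · subst hji
        rw [gt_set_self hi]
        exact h1
      · rw [gt_set_ne hji]
        exact h2 j hj hji
  have hsoft : Soft R (.fn g (ts.set i a)) → ∃ q, Xi R X g ts i q ∧ Mt R a q := by
    intro h
    obtain ⟨ρ, hρ, ls, h1, h2, h3⟩ := hR.soft_iff.1 h
    obtain ⟨h4, h5⟩ := (hcomp ls).1 h3
    exact ⟨_, ⟨ls, Or.inl ⟨ρ, hρ, h1⟩, by rw [h2, hl], rfl, h5⟩, h4⟩
  constructor
  · rintro (h | ⟨q, hq, h⟩)
    · rw [er_fn] at h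
      rcases h with h | h
      · exact Or.inr (hsoft h)
      · have := h i (by rw [hl]; exact hi)
        rw [gt_set_self hi] at this
        exact Or.inl this
    · cases q with
      | var x => exact absurd hq (hXv x)
      | bul => exact absurd hasBul_bul (hX _ hq).2.1
      | fn g' qs =>
        rcases mt_fn_inv h with h | ⟨rfl, h1, h2⟩
        · exact Or.inr (hsoft h)
        · obtain ⟨h4, h5⟩ := (hcomp qs).1 h2
          exact Or.inr ⟨_, ⟨qs, Or.inr hq, by rw [h1, hl], rfl, h5⟩, h4⟩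
  · rintro (h | ⟨q, ⟨qs, h1, h2, rfl, h3⟩, h⟩)
    · left
      rw [er_fn]
      right
      intro j hj
      rw [hl] at hj
      by_cases hji : j = i
      · subst hji
        rw [gt_set_self hi]
        exact h
      · rw [gt_set_ne hji]
        exact er_of_not_hasBul (fun h => hb (hasBul_fn.2 ⟨_, gt_mem hj, h⟩))
    · have h4 := (hcomp qs).2 ⟨h, h3⟩
      rcases h1 with ⟨ρ, hρ, h1⟩ | h1
      · left
        apply Soft.er
        exact hR.soft_iff.2 ⟨ρ, hρ, qs, h1, by rw [h2, hl], h4⟩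
      · right
        exact ⟨_, h1, Mt.fn (by rw [h2, hl]) (hX _ h1).2.2 h4⟩

theorem LL.bad_fn {R : TRS} (hR : LL R) {X : Tm → Prop} (hX : ∀ q, X q → PatOK R q)
    (hXv : ∀ x, ¬ X (.var x)) {g : ℕ} {ts : List Tm} (hb : ¬ HasBul (.fn g ts)) :
    Bad R X (.fn g ts) ↔ ¬ IsRedex R (.fn g ts) ∧
      ∀ i < ts.length, Bad R (Xi R X g ts i) (gt ts i) := by
  constructor
  · intro h
    refine ⟨fun hr => ?_, fun i hi D c hD hc => ?_⟩
    · rcases h _ _ hr OneHole.root with h1 | ⟨q, h1, h2⟩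
      · exact hR.not_er_bul h1
      · have h3 := mt_of_nf hR.nf_bul h2
        cases q with
        | var x => exact hXv x h1
        | bul => exact (hX _ h1).2.1 hasBul_bul
        | fn g qs =>
          obtain ⟨σ, hσ⟩ := h3
          rw [subst_fn] at hσ
          simp at hσ
    · exact (hR.hole_iff hX hXv hb hi c).1 (h _ _ hD (oneHole_setS hi hc))
  · rintro ⟨h1, h2⟩ D c hD hc
    rcases oneHole_fnS hc with ⟨rfl, rfl⟩ | ⟨i, hi, a, ha, rfl⟩
    · exact absurd hD h1
    · exact (hR.hole_iff hX hXv hb hi a).2 (h2 i hi D a hD ha)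

end Pool.Agent.H820R2.SS
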