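import Pool.Agent.H820R2.SS.Alt2

/-!
# Claims about a guessed term and their local verification
-/

namespace Pool.Agent.H820R2.SS

open Relation

/-- A claim about a term `t`: `(0, p)`: `t` can reach an instance of `p`; `(1, p)`: `t` is not an
instance of `p`; `(2, p)`: the pattern `p` is to be avoided; `(3, p)`: `t` is not a normal form. -/
abbrev Claim : Type := ℕ × Tm

/-- The term `t` satisfies the claims of `S`. -/
structure Sat (R : TRS) (t : Tm) (S : List Claim) : Prop where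
  ovr : Over R.sig t
  nobul : ¬ HasBul t
  c0 : ∀ p, ((0, p) : Claim) ∈ S → Mt R t p
  c1 : ∀ p, ((1, p) : Claim) ∈ S → ¬ Inst p t
  c3 : ∀ p, ((3, p) : Claim) ∈ S → ¬ NF R t
  bad : Bad R (fun p => ((2, p) : Claim) ∈ S) t

/-- The claims about the arguments show that the term can reach a redex. -/
def SoftC (R : TRS) (g : ℕ) (Ss : List (List Claim)) : Prop :=
  ∃ ρ ∈ R, ∃ ls, ρ.1 = .fn g ls ∧ ls.length = Ss.length ∧
    ∀ i < Ss.length, ((0, gt ls i) : Claim) ∈ Ss.getD i []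

/-- Local verification of the claims of a term with root symbol `g`. -/
structure LocN (R : TRS) (g : ℕ) (S : List Claim) (Ss : List (List Claim)) : Prop where
  h0 : ∀ p, ((0, p) : Claim) ∈ S → (∃ x, p = .var x) ∨ SoftC R g Ss ∨
    ∃ ps, p = .fn g ps ∧ ps.length = Ss.length ∧
      ∀ i < Ss.length, ((0, gt ps i) : Claim) ∈ Ss.getD i []
  h1 : ∀ p, ((1, p) : Claim) ∈ S → (∀ x, p ≠ .var x) ∧
    ∀ ps, p = .fn g ps → ps.length = Ss.length →
      ∃ i < Ss.length, ((1, gt ps i) : Claim) ∈ Ss.getD i []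
  h3 : ∀ p, ((3, p) : Claim) ∈ S → SoftC R g Ss ∨
    ∃ i < Ss.length, ∃ p', ((3, p') : Claim) ∈ Ss.getD i []
  h2 : (∃ x, ((2, .var x) : Claim) ∈ S) ∨
    ((∀ ρ ∈ R, ∀ ls, ρ.1 = .fn g ls → ls.length = Ss.length →
      ∃ i < Ss.length, ((1, gt ls i) : Claim) ∈ Ss.getD i []) ∧
    ∀ i < Ss.length, ∀ q', ((2, q') : Claim) ∈ Ss.getD i [] →
      ∃ qs, ((∃ ρ ∈ R, ρ.1 = .fn g qs) ∨ ((2, .fn g qs) : Claim) ∈ S) ∧
        qs.length = Ss.length ∧ q' = gt qs i ∧
        ∀ j < Ss.length, j ≠ i → ((0, gt qs j) : Claim) ∈ Ss.getD j [])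

/-- Local verification for a variable. -/
def Leaf (S : List Claim) : Prop :=
  (∀ p, ((0, p) : Claim) ∈ S → ∃ x, p = .var x) ∧
  (∀ p, ((1, p) : Claim) ∈ S → ∀ x, p ≠ .var x) ∧ ∀ p, ((3, p) : Claim) ∉ S

/-- Local verification. -/
def LocS (R : TRS) (S : List Claim) (Ss : List (List Claim)) : Prop :=
  (Leaf S ∧ Ss = []) ∨ ∃ g, (g, Ss.length) ∈ R.sig ∧ LocN R g S Ss

theorem Soft.not_nf {R : TRS} {t : Tm} (h : Soft R t) : ¬ NF R t := by
  intro hn
  obtain ⟨u, h1, h2⟩ := h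
  rw [nf_rch hn h1] at h2
  exact hn t (Subterm.refl _) h2

theorem not_nf_fn {R : TRS} {g : ℕ} {ts : List Tm} : ¬ NF R (.fn g ts) ↔
    IsRedex R (.fn g ts) ∨ ∃ i < ts.length, ¬ NF R (gt ts i) := by
  constructor
  · intro h
    by_contra hc
    push Not at hc
    refine h (nf_fn hc.1 fun a ha => ?_)
    obtain ⟨i, hi, rfl⟩ := List.getElem_of_mem ha
    have h2 := hc.2 i hi
    have h3 : gt ts i = ts[i] := by simp [gt, hi]
    rwa [h3] at h2
  · rintro (h | ⟨i, hi, h⟩) hn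
    · exact hn _ (Subterm.refl _) h
    · exact h (fun D hD => hn D (Subterm.arg (gt_mem hi) hD))

theorem over_fnS {F : List (ℕ × ℕ)} {f : ℕ} {ts : List Tm} :
    Over F (.fn f ts) ↔ (f, ts.length) ∈ F ∧ ∀ a ∈ ts, Over F a := by
  unfold Over
  constructor
  · intro h
    refine ⟨h _ (by simp), fun a ha s hs => h s ?_⟩
    rw [syms_fn, List.mem_cons, List.mem_flatMap]
    exact Or.inr ⟨a, ha, hs⟩
  · rintro ⟨h1, h2⟩ s hs
    rw [syms_fn, List.mem_cons, List.mem_flatMap] at hs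
    rcases hs with rfl | ⟨a, ha, hs⟩
    · exact h1
    · exact h2 a ha s hs

theorem forall_mem_iff_gt {P : Tm → Prop} {ts : List Tm} :
    (∀ a ∈ ts, P a) ↔ ∀ i < ts.length, P (gt ts i) := by
  constructor
  · exact fun h i hi => h _ (gt_mem hi)
  · intro h a ha
    obtain ⟨i, hi, rfl⟩ := List.getElem_of_mem ha
    have h3 : gt ts i = ts[i] := by simp [gt, hi]
    rw [← h3]
    exact h i hi

variable {R : TRS}

theorem LL.softC_sound (hR : LL R) {g : ℕ} {ts : List Tm} {Ss : List (List Claim)}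
    (hl : ts.length = Ss.length) (hs : ∀ i < ts.length, Sat R (gt ts i) (Ss.getD i []))
    (h : SoftC R g Ss) : Soft R (.fn g ts) := by
  obtain ⟨ρ, hρ, ls, h1, h2, h3⟩ := h
  exact hR.soft_iff.2 ⟨ρ, hρ, ls, h1, by omega, fun i hi => (hs i hi).c0 _ (h3 i (by omega))⟩

theorem LL.locN_sound (hR : LL R) {g : ℕ} {S : List Claim} (hS : ∀ q ∈ S, q.1 < 3 → PatOK R q.2)
    {ts : List Tm} {Ss : List (List Claim)} (hl : ts.length = Ss.length)
    (hg : (g, ts.length) ∈ R.sig) (hs : ∀ i < ts.length, Sat R (gt ts i) (Ss.getD i []))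
    (h : LocN R g S Ss) : Sat R (.fn g ts) S := by
  have hnb : ¬ HasBul (.fn g ts) := by
    rw [hasBul_fn]
    rintro ⟨a, ha, hab⟩
    exact (forall_mem_iff_gt (P := fun a => ¬ HasBul a)).2 (fun i hi => (hs i hi).nobul) a ha hab
  refine ⟨?_, hnb, ?_, ?_, ?_, ?_⟩
  · rw [over_fnS]
    exact ⟨hg, forall_mem_iff_gt.2 fun i hi => (hs i hi).ovr⟩
  · intro p hp
    rcases h.h0 p hp with ⟨x, rfl⟩ | h1 | ⟨ps, rfl, h2, h3⟩
    · exact mt_var _ _ _
    · exact (hR.softC_sound hl hs h1).mt (hS _ hp (by norm_num)).1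
    · exact Mt.fn (by omega) (hS _ hp (by norm_num)).2.2
        (fun i hi => (hs i hi).c0 _ (h3 i (by omega)))
  · intro p hp hi
    obtain ⟨h1, h2⟩ := h.h1 p hp
    cases p with
    | var x => exact h1 x rfl
    | bul => exact (hS _ hp (by norm_num)).2.1 hasBul_bul
    | fn g' ps =>
      obtain ⟨rfl, h3, h4⟩ := inst_fn_inv hi
      obtain ⟨i, hi, h5⟩ := h2 ps rfl (by omega)
      exact (hs i (by omega)).c1 _ h5 (h4 i (by omega))
  · intro p hp
    rcases h.h3 p hp with h1 | ⟨i, hi, p', h1⟩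
    · exact (hR.softC_sound hl hs h1).not_nf
    · exact not_nf_fn.2 (Or.inr ⟨i, by omega, (hs i (by omega)).c3 _ h1⟩)
  · by_cases hv : ∃ x, ((2, .var x) : Claim) ∈ S
    · obtain ⟨x, hx⟩ := hv
      exact Bad.of_var hx _
    · rcases h.h2 with h1 | ⟨h1, h2⟩
      · exact absurd h1 hv
      · rw [hR.bad_fn (fun q hq => hS _ hq (by norm_num)) (fun x hx => hv ⟨x, hx⟩) hnb]
        refine ⟨fun hr => ?_, fun i hi => ?_⟩
        · obtain ⟨ρ, hρ, ls, h3, h4, h5⟩ := hR.redex_iff.1 hr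
          obtain ⟨i, hi, h6⟩ := h1 ρ hρ ls h3 (by omega)
          exact (hs i (by omega)).c1 _ h6 (h5 i (by omega))
        · refine Bad.mono ?_ (hs i hi).bad
          intro q' hq'
          obtain ⟨qs, h3, h4, h5, h6⟩ := h2 i (by omega) q' hq'
          exact ⟨qs, h3, by omega, h5, fun j hj hji => (hs j hj).c0 _ (h6 j (by omega) hji)⟩

theorem LL.leaf_sound (hR : LL R) {S : List Claim} (hS : ∀ q ∈ S, q.1 < 3 → PatOK R q.2)
    (h : Leaf S) : Sat R (.var 0) S := by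
  refine ⟨by intro s hs; simp at hs, not_hasBul_var 0, ?_, ?_, ?_, hR.bad_var _ _⟩
  · intro p hp
    obtain ⟨x, rfl⟩ := h.1 p hp
    exact mt_var _ _ _
  · rintro p hp ⟨σ, hσ⟩
    cases p with
    | var x => exact h.2.1 _ hp x rfl
    | bul => exact (hS _ hp (by norm_num)).2.1 hasBul_bul
    | fn g' ps =>
      rw [subst_fn] at hσ
      simp at hσ
  · exact fun p hp => absurd hp (h.2.2 p)

theorem LL.leaf_complete (hR : LL R) {S : List Claim} {x : ℕ} (h : Sat R (.var x) S) :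
    Leaf S := by
  refine ⟨fun p hp => ?_, fun p hp y hy => ?_, fun p hp => ?_⟩
  · obtain ⟨σ, hσ⟩ := mt_of_nf (hR.nf_var x) (h.c0 p hp)
    cases p with
    | var x => exact ⟨x, rfl⟩
    | bul => simp at hσ
    | fn g' ps =>
      rw [subst_fn] at hσ
      simp at hσ
  · subst hy
    exact h.c1 _ hp (inst_var _ _)
  · exact h.c3 p hp (hR.nf_var x)

/-- A list of patterns that is closed under taking arguments and contains the left-hand sides. -/
structure PatList (R : TRS) (P : List Tm) : Prop where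
  ok : ∀ p ∈ P, PatOK R p
  lhs : ∀ ρ ∈ R, ρ.1 ∈ P
  args : ∀ g ps, Tm.fn g ps ∈ P → ∀ i < ps.length, gt ps i ∈ P

/-- All claims about patterns of `P`. -/
def claims (P : List Tm) : List Claim := (3, .bul) :: [0, 1, 2].flatMap (fun k => P.map (k, ·))

theorem mem_claims {P : List Tm} {q : Claim} :
    q ∈ claims P ↔ q = (3, .bul) ∨ (q.1 < 3 ∧ q.2 ∈ P) := by
  obtain ⟨k, p⟩ := q
  simp only [claims, List.mem_cons, List.mem_flatMap, List.mem_map, List.not_mem_nil, or_false]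
  constructor
  · rintro (h | ⟨k', hk, a, ha, h⟩)
    · exact Or.inl h
    · simp only [Prod.mk.injEq] at h
      obtain ⟨rfl, rfl⟩ := h
      right
      exact ⟨by omega, ha⟩
  · rintro (h | ⟨h1, h2⟩)
    · exact Or.inl h
    · exact Or.inr ⟨k, by omega, p, h2, rfl⟩

open Classical in
/-- The true claims about the argument `i`. -/
noncomputable def childC (R : TRS) (P : List Tm) (S : List Claim) (g : ℕ) (ts : List Tm)
    (i : ℕ) : List Claim :=
  (claims P).filter (fun q => decide ((q.1 = 0 ∧ Mt R (gt ts i) q.2) ∨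
    (q.1 = 1 ∧ ¬ Inst q.2 (gt ts i)) ∨ (q.1 = 3 ∧ ¬ NF R (gt ts i)) ∨
    (q.1 = 2 ∧ ((∃ x, ((2, .var x) : Claim) ∈ S) ∨
      Xi R (fun p => ((2, p) : Claim) ∈ S) g ts i q.2))))

theorem mem_childC {P : List Tm} {S : List Claim} {g : ℕ} {ts : List Tm} {i : ℕ} {q : Claim} :
    q ∈ childC R P S g ts i ↔ q ∈ claims P ∧ ((q.1 = 0 ∧ Mt R (gt ts i) q.2) ∨
    (q.1 = 1 ∧ ¬ Inst q.2 (gt ts i)) ∨ (q.1 = 3 ∧ ¬ NF R (gt ts i)) ∨
    (q.1 = 2 ∧ ((∃ x, ((2, .var x) : Claim) ∈ S) ∨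
      Xi R (fun p => ((2, p) : Claim) ∈ S) g ts i q.2))) := by
  classical
  simp only [childC, List.mem_filter, decide_eq_true_eq]

theorem childC_zero {P : List Tm} {S : List Claim} {g : ℕ} {ts : List Tm} {i : ℕ} {p : Tm} :
    ((0, p) : Claim) ∈ childC R P S g ts i ↔ p ∈ P ∧ Mt R (gt ts i) p := by
  rw [mem_childC, mem_claims]
  simp

theorem childC_one {P : List Tm} {S : List Claim} {g : ℕ} {ts : List Tm} {i : ℕ} {p : Tm} :
    ((1, p) : Claim) ∈ childC R P S g ts i ↔ p ∈ P ∧ ¬ Inst p (gt ts i) := by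
  rw [mem_childC, mem_claims]
  simp

theorem childC_three {P : List Tm} {S : List Claim} {g : ℕ} {ts : List Tm} {i : ℕ} {p : Tm} :
    ((3, p) : Claim) ∈ childC R P S g ts i ↔ p = .bul ∧ ¬ NF R (gt ts i) := by
  rw [mem_childC, mem_claims]
  simp

theorem childC_two {P : List Tm} {S : List Claim} {g : ℕ} {ts : List Tm} {i : ℕ} {p : Tm} :
    ((2, p) : Claim) ∈ childC R P S g ts i ↔ p ∈ P ∧ ((∃ x, ((2, .var x) : Claim) ∈ S) ∨
      Xi R (fun p => ((2, p) : Claim) ∈ S) g ts i p) := by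
  rw [mem_childC, mem_claims]
  simp

theorem LL.childC_sat (hR : LL R) {P : List Tm} (hP : PatList R P) {S : List Claim}
    (hS : ∀ q ∈ S, q ∈ claims P) {g : ℕ} {ts : List Tm} (h : Sat R (.fn g ts) S) {i : ℕ}
    (hi : i < ts.length) : Sat R (gt ts i) (childC R P S g ts i) := by
  refine ⟨?_, ?_, ?_, ?_, ?_, ?_⟩
  · exact (over_fnS.1 h.ovr).2 _ (gt_mem hi)
  · exact fun hb => h.nobul (hasBul_fn.2 ⟨_, gt_mem hi, hb⟩)
  · exact fun p hp => (childC_zero.1 hp).2
  · exact fun p hp => (childC_one.1 hp).2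
  · exact fun p hp => (childC_three.1 hp).2
  · by_cases hv : ∃ x, ((2, .var x) : Claim) ∈ S
    · obtain ⟨x, hx⟩ := hv
      refine Bad.of_var (x := x) (childC_two.2 ⟨?_, Or.inl ⟨x, hx⟩⟩) _
      have := hS _ hx
      rw [mem_claims] at this
      simpa using this
    · have hX : ∀ q, ((2, q) : Claim) ∈ S → PatOK R q := by
        intro q hq
        have := hS _ hq
        rw [mem_claims] at this
        simp at this
        exact hP.ok _ this
      have h1 := (hR.bad_fn hX (fun x hx => hv ⟨x, hx⟩) h.nobul).1 h.bad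
      refine Bad.mono ?_ (h1.2 i hi)
      intro q hq
      refine childC_two.2 ⟨?_, Or.inr hq⟩
      obtain ⟨qs, h2, h3, rfl, _⟩ := hq
      rcases h2 with ⟨ρ, hρ, h2⟩ | h2
      · exact hP.args g qs (h2 ▸ hP.lhs ρ hρ) i (by omega)
      · have := hS _ h2
        rw [mem_claims] at this
        simp at this
        exact hP.args g qs this i (by omega)

theorem LL.locN_complete (hR : LL R) {P : List Tm} (hP : PatList R P) {S : List Claim}
    (hS : ∀ q ∈ S, q ∈ claims P) {g : ℕ} {ts : List Tm} (h : Sat R (.fn g ts) S)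
    {Ss : List (List Claim)} (hl : Ss.length = ts.length)
    (hSs : ∀ i < ts.length, Ss.getD i [] = childC R P S g ts i) : LocN R g S Ss := by
  have hSP : ∀ k p, k < 3 → ((k, p) : Claim) ∈ S → p ∈ P := by
    intro k p hk hp
    have := hS _ hp
    rw [mem_claims] at this
    rcases this with h | h
    · simp only [Prod.mk.injEq] at h
      omega
    · exact h.2
  have hsoft : Soft R (.fn g ts) → SoftC R g Ss := by
    intro hs
    obtain ⟨ρ, hρ, ls, h1, h2, h3⟩ := hR.soft_iff.1 hs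
    refine ⟨ρ, hρ, ls, h1, by omega, fun i hi => ?_⟩
    rw [hSs i (by omega), childC_zero]
    exact ⟨hP.args g ls (h1 ▸ hP.lhs ρ hρ) i (by omega), h3 i (by omega)⟩
  have hcomp : ∀ ps, Tm.fn g ps ∈ P → ps.length = ts.length → ¬ Inst (.fn g ps) (.fn g ts) →
      ∃ i < Ss.length, ((1, gt ps i) : Claim) ∈ Ss.getD i [] := by
    intro ps hp h1 h2
    by_contra hc
    push Not at hc
    refine h2 (inst_fn h1 (hP.ok _ hp).2.2 fun i hi => ?_)
    have h3 := hc i (by omega)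
    rw [hSs i (by omega), childC_one] at h3
    by_contra h4
    exact h3 ⟨hP.args g ps hp i hi, h4⟩
  refine ⟨?_, ?_, ?_, ?_⟩
  · intro p hp
    have h1 := h.c0 p hp
    cases p with
    | var x => exact Or.inl ⟨x, rfl⟩
    | bul => exact absurd hasBul_bul (hP.ok _ (hSP 0 _ (by norm_num) hp)).2.1
    | fn g' ps =>
      rcases mt_fn_inv h1 with h2 | ⟨rfl, h3, h4⟩
      · exact Or.inr (Or.inl (hsoft h2))
      · refine Or.inr (Or.inr ⟨ps, rfl, by omega, fun i hi => ?_⟩)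
        rw [hSs i (by omega), childC_zero]
        exact ⟨hP.args _ ps (hSP 0 _ (by norm_num) hp) i (by omega), h4 i (by omega)⟩
  · intro p hp
    have h1 := h.c1 p hp
    refine ⟨fun x hx => h1 (hx ▸ inst_var x _), fun ps hps h2 => ?_⟩
    subst hps
    exact hcomp ps (hSP 1 _ (by norm_num) hp) (by omega) h1
  · intro p hp
    rcases not_nf_fn.1 (h.c3 p hp) with h1 | ⟨i, hi, h1⟩
    · exact Or.inl (hsoft ⟨_, ReflTransGen.refl, h1⟩)
    · refine Or.inr ⟨i, by omega, .bul, ?_⟩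
      rw [hSs i hi, childC_three]
      exact ⟨rfl, h1⟩
  · by_cases hv : ∃ x, ((2, .var x) : Claim) ∈ S
    · exact Or.inl hv
    · right
      have hX : ∀ q, ((2, q) : Claim) ∈ S → PatOK R q := fun q hq =>
        hP.ok _ (hSP 2 _ (by norm_num) hq)
      have h1 := (hR.bad_fn hX (fun x hx => hv ⟨x, hx⟩) h.nobul).1 h.bad
      refine ⟨?_, ?_⟩
      · intro ρ hρ ls h2 h3
        refine hcomp ls (h2 ▸ hP.lhs ρ hρ) (by omega) ?_
        rintro ⟨σ, hσ⟩
        exact h1.1 ⟨ρ, hρ, σ, by rw [h2, hσ]⟩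
      · intro i hi q' hq'
        rw [hSs i (by omega), childC_two] at hq'
        obtain ⟨_, h2⟩ := hq'
        rcases h2 with h2 | ⟨qs, h2, h3, h4, h5⟩
        · exact absurd h2 hv
        · refine ⟨qs, h2, by omega, h4, fun j hj hji => ?_⟩
          rw [hSs j (by omega), childC_zero]
          refine ⟨?_, h5 j (by omega) hji⟩
          rcases h2 with ⟨ρ, hρ, h2⟩ | h2
          · exact hP.args g qs (h2 ▸ hP.lhs ρ hρ) j (by omega)
          · exact hP.args g qs (hSP 2 _ (by norm_num) h2) j (by omega)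

end Pool.Agent.H820R2.SS
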