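import Pool.Agent.H820R2.SS.Basic
import Pool.Agent.NPC.Hard

/-!
# Encoding of terms by binary trees
-/

namespace Pool.Agent.H820R2.SS

open Pool.Agent.NPC

/-- The tree coding a term. -/
def Tm.code : Tm → T
  | .var x => T.node T.nil (toT x)
  | .bul => T.nil
  | .node f _ ts =>
    T.node (T.node T.nil T.nil) (T.node (toT f) (T.ofList (List.ofFn fun i => (ts i).code)))

theorem Tm.code_var (x : ℕ) : (Tm.var x).code = T.node T.nil (toT x) := by rw [Tm.code]
theorem Tm.code_bul : Tm.bul.code = T.nil := by rw [Tm.code]
theorem Tm.code_fn (f : ℕ) (ts : List Tm) : (Tm.fn f ts).code =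
    T.node (T.node T.nil T.nil) (T.node (toT f) (T.ofList (ts.map Tm.code))) := by
  rw [Tm.fn, Tm.code]
  congr 3
  apply List.ext_getElem <;> simp

theorem Tm.code_injective : ∀ t s : Tm, t.code = s.code → t = s := by
  refine Tm.ind (P := fun t => ∀ s : Tm, t.code = s.code → t = s) ?_ ?_ ?_
  · intro x s h
    cases s with
    | var y =>
      rw [Tm.code_var, Tm.code_var] at h
      injection h with _ h
      rw [TEnc.inj h]
    | bul => rw [Tm.code_var, Tm.code_bul] at h; cases h
    | fn g us => rw [Tm.code_var, Tm.code_fn] at h; cases h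
  · intro s h
    cases s with
    | var y => rw [Tm.code_var, Tm.code_bul] at h; cases h
    | bul => rfl
    | fn g us => rw [Tm.code_bul, Tm.code_fn] at h; cases h
  · intro f ts ih s h
    cases s with
    | var y => rw [Tm.code_var, Tm.code_fn] at h; cases h
    | bul => rw [Tm.code_bul, Tm.code_fn] at h; cases h
    | fn g us =>
      rw [Tm.code_fn, Tm.code_fn] at h
      injection h with _ h
      injection h with h1 h2
      have h3 := T.ofList_injective h2
      have h4 : ts = us := by
        have key : ∀ (ts us : List Tm), (∀ a ∈ ts, ∀ s : Tm, a.code = s.code → a = s) →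
            ts.map Tm.code = us.map Tm.code → ts = us := by
          intro ts
          induction ts with
          | nil => intro us _ h; cases us <;> simp_all
          | cons a ts ih2 =>
            intro us ih h
            cases us with
            | nil => simp at h
            | cons b us =>
              simp only [List.map_cons, List.cons.injEq] at h
              rw [ih a (by simp) b h.1, ih2 us (fun a ha => ih a (by simp [ha])) h.2]
        exact key ts us ih h3
      rw [TEnc.inj h1, h4]

/-- Terms are coded by trees. -/
instance : TEnc Tm := ⟨Tm.code, fun t s h => Tm.code_injective t s h⟩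

theorem toT_tmVar (x : ℕ) : toT (Tm.var x) = toT (Sum.inl x : ℕ ⊕ (ℕ × List Tm)) :=
  Tm.code_var x

theorem toT_tmFn (f : ℕ) (ts : List Tm) :
    toT (Tm.fn f ts) = toT (Sum.inr (f, ts) : ℕ ⊕ (ℕ × List Tm)) :=
  Tm.code_fn f ts

end Pool.Agent.H820R2.SS
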