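import Pool.Agent.NPC.Defs

/-!
# Alternating guess of exponentially many states
-/

namespace Pool.Agent.H820R2.SS

/-- States are bit strings of length `m a`; a state is generated if some list of at most `m a`
generated states passes the local test `loc a`. -/
inductive Gen {A : Type} (m : A → ℕ) (loc : A → List Bool → List (List Bool) → Bool) (a : A) :
    List Bool → Prop
  | mk (c : List Bool) (cs : List (List Bool)) (h1 : c.length = m a) (h2 : cs.length ≤ m a)
      (h3 : loc a c cs = true) (h4 : ∀ c' ∈ cs, Gen m loc a c') : Gen m loc a c

end Pool.Agent.H820R2.SS
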