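import Pool.Agent.H820R2.SS.Alt3
import Pool.Agent.H820R2.SS.Enc
import Pool.Agent.H820R2.SS.Gen

/-!
# The local test as a Boolean function
-/

namespace Pool.Agent.H820R2.SS

open Relation Pool.Agent.NPC

instance : DecidableEq Tm := fun a b =>
  decidable_of_iff (toT a = toT b) ⟨fun h => TEnc.inj h, fun h => congrArg _ h⟩

/-- Is it a variable? -/
def Tm.isVar : Tm → Bool
  | .var _ => true
  | _ => false

/-- The root symbol. -/
def Tm.hd : Tm → Option (ℕ × ℕ)
  | .node f k _ => some (f, k)
  | _ => none

/-- The arguments. -/
def Tm.args : Tm → List Tm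
  | .node _ _ ts => List.ofFn ts
  | _ => []

@[simp] theorem isVar_var (x : ℕ) : (Tm.var x).isVar = true := rfl
@[simp] theorem isVar_bul : Tm.bul.isVar = false := rfl
@[simp] theorem isVar_fn (f : ℕ) (ts : List Tm) : (Tm.fn f ts).isVar = false := rfl
@[simp] theorem hd_var (x : ℕ) : (Tm.var x).hd = none := rfl
@[simp] theorem hd_bul : Tm.bul.hd = none := rfl
@[simp] theorem hd_fn (f : ℕ) (ts : List Tm) : (Tm.fn f ts).hd = some (f, ts.length) := rfl
@[simp] theorem args_var (x : ℕ) : (Tm.var x).args = [] := rfl
@[simp] theorem args_bul : Tm.bul.args = [] := rfl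
@[simp] theorem args_fn (f : ℕ) (ts : List Tm) : (Tm.fn f ts).args = ts := by
  show List.ofFn ts.get = ts
  exact List.ofFn_get ts

theorem isVar_iff {p : Tm} : p.isVar = true ↔ ∃ x, p = .var x := by
  cases p <;> simp

theorem hd_iff {p : Tm} {g k : ℕ} : p.hd = some (g, k) ↔ ∃ ps, p = .fn g ps ∧ ps.length = k := by
  cases p with
  | var x => simp
  | bul => simp
  | fn f ts =>
    simp only [hd_fn, Option.some.injEq, Prod.mk.injEq, Tm.fn_eq_iff]
    constructor
    · rintro ⟨rfl, rfl⟩
      exact ⟨ts, ⟨rfl, rfl⟩, rfl⟩
    · rintro ⟨ps, ⟨rfl, rfl⟩, rfl⟩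
      exact ⟨rfl, rfl⟩

/-- Boolean version of `SoftC`. -/
def softB (R : TRS) (g : ℕ) (Ss : List (List Claim)) : Bool :=
  R.any fun ρ => decide (ρ.1.hd = some (g, Ss.length)) &&
    (List.range Ss.length).all fun i => decide (((0, gt ρ.1.args i) : Claim) ∈ Ss.getD i [])

/-- Test of the claims of kind `0`. -/
def b0 (R : TRS) (g : ℕ) (S : List Claim) (Ss : List (List Claim)) : Bool :=
  S.all fun q => !(decide (q.1 = 0)) || (q.2.isVar || (softB R g Ss ||
    (decide (q.2.hd = some (g, Ss.length)) &&
      (List.range Ss.length).all fun i => decide (((0, gt q.2.args i) : Claim) ∈ Ss.getD i []))))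

/-- Test of the claims of kind `1`. -/
def b1 (g : ℕ) (S : List Claim) (Ss : List (List Claim)) : Bool :=
  S.all fun q => !(decide (q.1 = 1)) || (!q.2.isVar && (!(decide (q.2.hd = some (g, Ss.length))) ||
    (List.range Ss.length).any fun i => decide (((1, gt q.2.args i) : Claim) ∈ Ss.getD i [])))

/-- Test of the claims of kind `3`. -/
def b3 (R : TRS) (g : ℕ) (S : List Claim) (Ss : List (List Claim)) : Bool :=
  S.all fun q => !(decide (q.1 = 3)) || (softB R g Ss ||
    (List.range Ss.length).any fun i => (Ss.getD i []).any fun q' => decide (q'.1 = 3))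

/-- Candidates for patterns. -/
def cand (R : TRS) (S : List Claim) : List Tm :=
  R.map Prod.fst ++ (S.filter fun q => decide (q.1 = 2)).map Prod.snd

/-- Test of the claims of kind `2`. -/
def b2 (R : TRS) (g : ℕ) (S : List Claim) (Ss : List (List Claim)) : Bool :=
  (S.any fun q => decide (q.1 = 2) && q.2.isVar) ||
  ((R.all fun ρ => !(decide (ρ.1.hd = some (g, Ss.length))) ||
      (List.range Ss.length).any fun i => decide (((1, gt ρ.1.args i) : Claim) ∈ Ss.getD i [])) &&
    (List.range Ss.length).all fun i => (Ss.getD i []).all fun q' => !(decide (q'.1 = 2)) ||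
      (cand R S).any fun q => decide (q.hd = some (g, Ss.length)) &&
        (decide (gt q.args i = q'.2) && (List.range Ss.length).all fun j =>
          decide (j = i) || decide (((0, gt q.args j) : Claim) ∈ Ss.getD j [])))

/-- Boolean version of `Leaf`. -/
def leafB (S : List Claim) : Bool :=
  S.all fun q => (!(decide (q.1 = 0)) || q.2.isVar) &&
    ((!(decide (q.1 = 1)) || !q.2.isVar) && !(decide (q.1 = 3)))

/-- Boolean version of `LocS`; `sg` is a list of the symbols of the signature. -/
def locT (R : TRS) (sg : List (ℕ × ℕ)) (S : List Claim) (Ss : List (List Claim)) : Bool :=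
  (leafB S && Ss.isEmpty) || sg.any fun s => decide (s.2 = Ss.length) &&
    (b0 R s.1 S Ss && (b1 s.1 S Ss && (b3 R s.1 S Ss && b2 R s.1 S Ss)))

theorem all_range {n : ℕ} {f : ℕ → Bool} : (List.range n).all f = true ↔ ∀ i < n, f i = true := by
  simp

theorem any_range {n : ℕ} {f : ℕ → Bool} :
    (List.range n).any f = true ↔ ∃ i < n, f i = true := by
  simp

theorem softB_iff {R : TRS} {g : ℕ} {Ss : List (List Claim)} :
    softB R g Ss = true ↔ SoftC R g Ss := by
  unfold softB SoftC
  rw [List.any_eq_true]
  refine exists_congr fun ρ => and_congr_right fun _ => ?_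
  rw [Bool.and_eq_true, decide_eq_true_iff, hd_iff, all_range]
  constructor
  · rintro ⟨⟨ls, h1, h2⟩, h3⟩
    refine ⟨ls, h1, h2, fun i hi => ?_⟩
    have := h3 i hi
    rw [h1, args_fn, decide_eq_true_iff] at this
    exact this
  · rintro ⟨ls, h1, h2, h3⟩
    refine ⟨⟨ls, h1, h2⟩, fun i hi => ?_⟩
    rw [h1, args_fn, decide_eq_true_iff]
    exact h3 i hi

theorem imp_bool {a b : Bool} : (!a || b) = true ↔ (a = true → b = true) := by
  cases a <;> simp

theorem locT_iff {R : TRS} {sg : List (ℕ × ℕ)} (hsg : ∀ s, s ∈ sg ↔ s ∈ R.sig)
    {S : List Claim} {Ss : List (List Claim)} : locT R sg S Ss = true ↔ LocS R S Ss := by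
  unfold locT LocS
  rw [Bool.or_eq_true, Bool.and_eq_true, List.any_eq_true, List.isEmpty_iff]
  apply or_congr
  · apply and_congr_left
    intro _
    unfold leafB Leaf
    rw [List.all_eq_true]
    constructor
    · intro h
      refine ⟨fun p hp => ?_, fun p hp x hx => ?_, fun p hp => ?_⟩
      · have := h _ hp
        simpa [isVar_iff] using this
      · have := h _ hp
        subst hx
        simp at this
      · have := h _ hp
        simp at this
    · rintro ⟨h0, h1, h3⟩ ⟨k, p⟩ hq
      rw [Bool.and_eq_true, Bool.and_eq_true, imp_bool, imp_bool]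
      refine ⟨fun hk => ?_, fun hk => ?_, ?_⟩
      · simp only [decide_eq_true_eq] at hk
        subst hk
        exact isVar_iff.2 (h0 p hq)
      · simp only [decide_eq_true_eq] at hk
        subst hk
        have := h1 p hq
        cases p with
        | var x => exact absurd rfl (this x)
        | bul => rfl
        | fn f ts => rfl
      · have : k ≠ 3 := by
          rintro rfl
          exact h3 p hq
        simp [this]
  · constructor
    · rintro ⟨⟨g, k⟩, hs, h⟩
      rw [Bool.and_eq_true, Bool.and_eq_true, Bool.and_eq_true, Bool.and_eq_true] at h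
      obtain ⟨h1, h2, h3, h4, h5⟩ := h
      simp only [decide_eq_true_eq] at h1
      simp only at h2 h3 h4 h5
      subst h1
      refine ⟨g, (hsg _).1 hs, ?_, ?_, ?_, ?_⟩
      · intro p hp
        unfold b0 at h2
        rw [List.all_eq_true] at h2
        have := h2 _ hp
        rw [imp_bool] at this
        have := this (by simp)
        rw [Bool.or_eq_true, Bool.or_eq_true, Bool.and_eq_true, isVar_iff, softB_iff,
          decide_eq_true_iff, hd_iff, all_range] at this
        rcases this with h | h | ⟨⟨ps, h, h'⟩, h''⟩
        · exact Or.inl h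
        · exact Or.inr (Or.inl h)
        · refine Or.inr (Or.inr ⟨ps, h, h', fun i hi => ?_⟩)
          have := h'' i hi
          rw [h, args_fn, decide_eq_true_iff] at this
          exact this
      · intro p hp
        unfold b1 at h3
        rw [List.all_eq_true] at h3
        have := h3 _ hp
        rw [imp_bool] at this
        have := this (by simp)
        rw [Bool.and_eq_true, imp_bool] at this
        obtain ⟨h6, h7⟩ := this
        refine ⟨fun x hx => ?_, fun ps hps hl => ?_⟩
        · subst hx
          simp at h6
        · subst hps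
          have := h7 (by simp [hl])
          rw [any_range] at this
          obtain ⟨i, hi, h8⟩ := this
          rw [args_fn, decide_eq_true_iff] at h8
          exact ⟨i, hi, h8⟩
      · intro p hp
        unfold b3 at h4
        rw [List.all_eq_true] at h4
        have := h4 _ hp
        rw [imp_bool] at this
        have := this (by simp)
        rw [Bool.or_eq_true, softB_iff, any_range] at this
        rcases this with h | ⟨i, hi, h⟩
        · exact Or.inl h
        · rw [List.any_eq_true] at h
          obtain ⟨⟨k', p'⟩, h6, h7⟩ := h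
          simp only [decide_eq_true_eq] at h7
          subst h7
          exact Or.inr ⟨i, hi, p', h6⟩
      · unfold b2 at h5
        rw [Bool.or_eq_true, List.any_eq_true, Bool.and_eq_true, List.all_eq_true,
          all_range] at h5
        rcases h5 with ⟨⟨k', p'⟩, h6, h7⟩ | ⟨h6, h7⟩
        · rw [Bool.and_eq_true] at h7
          obtain ⟨h7, h8⟩ := h7
          simp only [decide_eq_true_eq] at h7
          subst h7
          obtain ⟨x, hx⟩ := isVar_iff.1 h8
          simp only at hx
          subst hx
          exact Or.inl ⟨x, h6⟩
        · refine Or.inr ⟨fun ρ hρ ls h8 hl => ?_, fun i hi q' hq' => ?_⟩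
          · have := h6 ρ hρ
            rw [imp_bool, any_range] at this
            obtain ⟨i, hi, h9⟩ := this (by rw [h8]; simp [hl])
            rw [h8, args_fn, decide_eq_true_iff] at h9
            exact ⟨i, hi, h9⟩
          · have := h7 i hi
            rw [List.all_eq_true] at this
            have := this _ hq'
            rw [imp_bool] at this
            have := this (by simp)
            rw [List.any_eq_true] at this
            obtain ⟨q, h8, h9⟩ := this
            rw [Bool.and_eq_true, Bool.and_eq_true, decide_eq_true_iff, decide_eq_true_iff,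
              hd_iff, all_range] at h9
            obtain ⟨⟨qs, rfl, hl⟩, h10, h11⟩ := h9
            rw [args_fn] at h10 h11
            refine ⟨qs, ?_, hl, h10.symm, fun j hj hji => ?_⟩
            · unfold cand at h8
              rw [List.mem_append, List.mem_map, List.mem_map] at h8
              rcases h8 with ⟨ρ, h12, h13⟩ | ⟨⟨k', p'⟩, h12, h13⟩
              · exact Or.inl ⟨ρ, h12, h13⟩
              · rw [List.mem_filter] at h12
                obtain ⟨h12, h14⟩ := h12
                simp only [decide_eq_true_eq] at h14
                simp only at h13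
                subst h14 h13
                exact Or.inr h12
            · have := h11 j hj
              rw [Bool.or_eq_true, decide_eq_true_iff, decide_eq_true_iff] at this
              exact this.resolve_left hji
    · rintro ⟨g, hg, h⟩
      refine ⟨(g, Ss.length), (hsg _).2 hg, ?_⟩
      rw [Bool.and_eq_true, Bool.and_eq_true, Bool.and_eq_true, Bool.and_eq_true]
      refine ⟨by simp, ?_, ?_, ?_, ?_⟩
      · unfold b0
        rw [List.all_eq_true]
        rintro ⟨k, p⟩ hp
        rw [imp_bool]
        intro hk
        simp only [decide_eq_true_eq] at hk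
        subst hk
        rw [Bool.or_eq_true, Bool.or_eq_true, Bool.and_eq_true, isVar_iff, softB_iff,
          decide_eq_true_iff, hd_iff, all_range]
        rcases h.h0 p hp with h1 | h1 | ⟨ps, rfl, h1, h2⟩
        · exact Or.inl h1
        · exact Or.inr (Or.inl h1)
        · refine Or.inr (Or.inr ⟨⟨ps, rfl, h1⟩, fun i hi => ?_⟩)
          rw [args_fn, decide_eq_true_iff]
          exact h2 i hi
      · unfold b1
        rw [List.all_eq_true]
        rintro ⟨k, p⟩ hp
        rw [imp_bool]
        intro hk
        simp only [decide_eq_true_eq] at hk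
        subst hk
        obtain ⟨h1, h2⟩ := h.h1 p hp
        rw [Bool.and_eq_true, imp_bool]
        refine ⟨?_, fun h3 => ?_⟩
        · cases p <;> simp_all
        · rw [decide_eq_true_iff, hd_iff] at h3
          obtain ⟨ps, h3, h4⟩ := h3
          simp only at h3
          subst h3
          obtain ⟨i, hi, h5⟩ := h2 ps rfl h4
          rw [any_range]
          refine ⟨i, hi, ?_⟩
          rw [args_fn, decide_eq_true_iff]
          exact h5
      · unfold b3
        rw [List.all_eq_true]
        rintro ⟨k, p⟩ hp
        rw [imp_bool]
        intro hk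
        simp only [decide_eq_true_eq] at hk
        subst hk
        rw [Bool.or_eq_true, softB_iff, any_range]
        rcases h.h3 p hp with h1 | ⟨i, hi, p', h1⟩
        · exact Or.inl h1
        · refine Or.inr ⟨i, hi, ?_⟩
          rw [List.any_eq_true]
          exact ⟨_, h1, by simp⟩
      · unfold b2
        rw [Bool.or_eq_true, List.any_eq_true, Bool.and_eq_true, List.all_eq_true, all_range]
        rcases h.h2 with ⟨x, hx⟩ | ⟨h1, h2⟩
        · exact Or.inl ⟨_, hx, by simp⟩
        · refine Or.inr ⟨fun ρ hρ => ?_, fun i hi => ?_⟩
          · rw [imp_bool]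
            intro h3
            rw [decide_eq_true_iff, hd_iff] at h3
            obtain ⟨ls, h3, h4⟩ := h3
            obtain ⟨i, hi, h5⟩ := h1 ρ hρ ls h3 h4
            rw [any_range]
            refine ⟨i, hi, ?_⟩
            rw [h3, args_fn, decide_eq_true_iff]
            exact h5
          · rw [List.all_eq_true]
            rintro ⟨k, q'⟩ hq'
            rw [imp_bool]
            intro hk
            simp only [decide_eq_true_eq] at hk
            subst hk
            obtain ⟨qs, h3, h4, rfl, h5⟩ := h2 i hi q' hq'
            rw [List.any_eq_true]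
            refine ⟨.fn g qs, ?_, ?_⟩
            · unfold cand
              rw [List.mem_append, List.mem_map, List.mem_map]
              rcases h3 with ⟨ρ, h6, h7⟩ | h3
              · exact Or.inl ⟨ρ, h6, h7⟩
              · exact Or.inr ⟨_, List.mem_filter.2 ⟨h3, by simp⟩, rfl⟩
            · rw [Bool.and_eq_true, Bool.and_eq_true, decide_eq_true_iff, decide_eq_true_iff,
                hd_iff, all_range, args_fn]
              refine ⟨⟨qs, rfl, h4⟩, rfl, fun j hj => ?_⟩
              rw [Bool.or_eq_true, decide_eq_true_iff, decide_eq_true_iff]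
              by_cases hji : j = i
              · exact Or.inl hji
              · exact Or.inr (h5 j hj hji)

end Pool.Agent.H820R2.SS
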