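import Pool.Agent.H820R2.SS.Alt4
import Pool.Agent.NPC.Enc

/-!
# Not being strongly sequential, as generation of states
-/

namespace Pool.Agent.H820R2.SS

open Relation Pool.Agent.NPC

/-! ### All subterms -/

/-- One round: the current terms are collected and replaced by their arguments. -/
def bfsStep (s : List Tm × List Tm) : List Tm × List Tm := (s.1 ++ s.2, s.2.flatMap Tm.args)

/-- The subterms of the terms of `l`. -/
def bfs (l : List Tm) : List Tm := (bfsStep^[sz l] ([], l)).1

theorem sz_args_le (t : Tm) : sz t.args ≤ sz t := by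
  cases t with
  | var x =>
    rw [args_var]
    exact sz_pos _
  | bul =>
    rw [args_bul]
    exact sz_pos _
  | fn f ts =>
    rw [args_fn]
    show (toT ts).size ≤ (toT (Tm.fn f ts)).size
    rw [toT_tmFn]
    show (toT ts).size ≤ (T.node (T.node T.nil T.nil) (T.node (toT f) (toT ts))).size
    simp only [T.size, T.enc, List.length_cons, List.length_append]
    omega

theorem sz_flatMap_args (l : List Tm) : sz (l.flatMap Tm.args) + l.length ≤ sz l := by
  induction l with
  | nil => simp
  | cons a l ih =>
    rw [List.flatMap_cons, sz_list_cons, List.length_cons]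
    have h1 := sz_append a.args (l.flatMap Tm.args)
    have h2 := sz_args_le a
    omega

theorem bfs_cur (l : List Tm) (n : ℕ) : (bfsStep^[n] ([], l)).2 = [] ∨
    sz (bfsStep^[n] ([], l)).2 + n ≤ sz l := by
  induction n with
  | zero => exact Or.inr (by simp)
  | succ n ih =>
    rw [Function.iterate_succ_apply']
    have h1 := sz_flatMap_args (bfsStep^[n] ([], l)).2
    rcases ih with ih | ih
    · left
      show (bfsStep^[n] ([], l)).2.flatMap Tm.args = []
      rw [ih]
      rfl
    · by_cases h2 : (bfsStep^[n] ([], l)).2 = []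
      · left
        show (bfsStep^[n] ([], l)).2.flatMap Tm.args = []
        rw [h2]
        rfl
      · right
        have h3 : 0 < (bfsStep^[n] ([], l)).2.length := List.length_pos_iff.2 h2
        show sz ((bfsStep^[n] ([], l)).2.flatMap Tm.args) + (n + 1) ≤ sz l
        omega

theorem bfs_end (l : List Tm) : (bfsStep^[sz l] ([], l)).2 = [] := by
  rcases bfs_cur l (sz l) with h | h
  · exact h
  · have := sz_pos (bfsStep^[sz l] ([], l)).2
    omega

theorem bfs_inv (l : List Tm) (n : ℕ) :
    (∀ t ∈ l, t ∈ (bfsStep^[n] ([], l)).1 ∨ t ∈ (bfsStep^[n] ([], l)).2) ∧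
    (∀ t ∈ (bfsStep^[n] ([], l)).1, ∀ a ∈ t.args,
      a ∈ (bfsStep^[n] ([], l)).1 ∨ a ∈ (bfsStep^[n] ([], l)).2) ∧
    (∀ t, t ∈ (bfsStep^[n] ([], l)).1 ∨ t ∈ (bfsStep^[n] ([], l)).2 →
      ∃ s ∈ l, Subterm t s) := by
  induction n with
  | zero =>
    refine ⟨fun t ht => Or.inr ht, fun t ht => by simp at ht, fun t ht => ?_⟩
    rcases ht with ht | ht
    · simp at ht
    · exact ⟨t, ht, Subterm.refl t⟩
  | succ n ih =>
    rw [Function.iterate_succ_apply']
    obtain ⟨h1, h2, h3⟩ := ih
    generalize bfsStep^[n] ([], l) = s at h1 h2 h3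
    refine ⟨fun t ht => Or.inl ?_, fun t ht a ha => ?_, fun t ht => ?_⟩
    · show t ∈ s.1 ++ s.2
      rw [List.mem_append]
      exact h1 t ht
    · have ht : t ∈ s.1 ++ s.2 := ht
      rw [List.mem_append] at ht
      rcases ht with ht | ht
      · left
        show a ∈ s.1 ++ s.2
        rw [List.mem_append]
        exact h2 t ht a ha
      · right
        show a ∈ s.2.flatMap Tm.args
        rw [List.mem_flatMap]
        exact ⟨t, ht, ha⟩
    · have ht : t ∈ s.1 ++ s.2 ∨ t ∈ s.2.flatMap Tm.args := ht
      rw [List.mem_append, List.mem_flatMap] at ht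
      rcases ht with ht | ⟨b, hb, ht⟩
      · exact h3 t ht
      · obtain ⟨r, hr, hbr⟩ := h3 b (Or.inr hb)
        refine ⟨r, hr, ?_⟩
        have hbt : Subterm t b := by
          cases b with
          | var x => simp at ht
          | bul => simp at ht
          | fn f ts =>
            rw [args_fn] at ht
            exact Subterm.arg ht (Subterm.refl t)
        clear ht hb hr
        induction hbr with
        | refl => exact hbt
        | arg ha _ ih => exact Subterm.arg ha ih

theorem bfs_base {l : List Tm} {t : Tm} (h : t ∈ l) : t ∈ bfs l := by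
  rcases (bfs_inv l (sz l)).1 t h with h | h
  · exact h
  · rw [bfs_end] at h
    simp at h

theorem bfs_args {l : List Tm} {t a : Tm} (h : t ∈ bfs l) (ha : a ∈ t.args) : a ∈ bfs l := by
  rcases (bfs_inv l (sz l)).2.1 t h a ha with h | h
  · exact h
  · rw [bfs_end] at h
    simp at h

theorem bfs_sub {l : List Tm} {t : Tm} (h : t ∈ bfs l) : ∃ s ∈ l, Subterm t s :=
  (bfs_inv l (sz l)).2.2 t (Or.inl h)

/-- The patterns: all subterms of the left-hand sides. -/
def pats (R : TRS) : List Tm := bfs (R.map Prod.fst)

/-- The symbols of the signature. -/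
def sigL (R : TRS) : List (ℕ × ℕ) :=
  (bfs (R.flatMap fun ρ => [ρ.1, ρ.2])).flatMap fun t => t.hd.toList

theorem subterm_syms {t s : Tm} (h : Subterm t s) : ∀ x ∈ t.syms, x ∈ s.syms := by
  induction h with
  | refl => exact fun x hx => hx
  | arg ha _ ih =>
    intro x hx
    rw [syms_fn, List.mem_cons, List.mem_flatMap]
    exact Or.inr ⟨_, ha, ih x hx⟩

theorem syms_bfs {l : List Tm} (t : Tm) : t ∈ bfs l → ∀ x ∈ t.syms, ∃ p ∈ bfs l, p.hd = some x := by
  induction t with
  | var x => intro _ x hx; simp at hx
  | bul => intro _ x hx; simp at hx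
  | fn f ts ih =>
    intro ht x hx
    rw [syms_fn, List.mem_cons, List.mem_flatMap] at hx
    rcases hx with rfl | ⟨a, ha, hx⟩
    · exact ⟨_, ht, hd_fn f ts⟩
    · exact ih a ha (bfs_args ht (by rw [args_fn]; exact ha)) x hx

theorem mem_sigL {R : TRS} (s : ℕ × ℕ) : s ∈ sigL R ↔ s ∈ R.sig := by
  unfold sigL TRS.sig
  rw [List.mem_flatMap, List.mem_flatMap]
  constructor
  · rintro ⟨t, ht, hs⟩
    rw [Option.mem_toList] at hs
    obtain ⟨r, hr, htr⟩ := bfs_sub ht
    rw [List.mem_flatMap] at hr
    obtain ⟨ρ, hρ, hr⟩ := hr
    have h1 : s ∈ t.syms := by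
      cases t with
      | var x => simp at hs
      | bul => simp at hs
      | fn f ts =>
        simp only [hd_fn, Option.some.injEq] at hs
        rw [syms_fn, ← hs]
        simp
    have h2 := subterm_syms htr s h1
    refine ⟨ρ, hρ, ?_⟩
    simp only [List.mem_cons, List.not_mem_nil, or_false] at hr
    rcases hr with rfl | rfl
    · exact List.mem_append_left _ h2
    · exact List.mem_append_right _ h2
  · rintro ⟨ρ, hρ, hs⟩
    rw [List.mem_append] at hs
    have key : ∀ r, r = ρ.1 ∨ r = ρ.2 → s ∈ r.syms →
        ∃ a ∈ bfs (R.flatMap fun ρ => [ρ.1, ρ.2]), s ∈ a.hd.toList := by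
      intro r hr hs
      have h1 : r ∈ bfs (R.flatMap fun ρ => [ρ.1, ρ.2]) := by
        apply bfs_base
        rw [List.mem_flatMap]
        exact ⟨ρ, hρ, by rcases hr with rfl | rfl <;> simp⟩
      obtain ⟨p, h2, h3⟩ := syms_bfs r h1 s hs
      exact ⟨p, h2, by rw [Option.mem_toList, h3]⟩
    rcases hs with hs | hs
    · exact key _ (Or.inl rfl) hs
    · exact key _ (Or.inr rfl) hs

theorem nodup_subterm {t s : Tm} (h : Subterm t s) (hs : s.vars.Nodup) : t.vars.Nodup := by
  induction h with
  | refl => exact hs
  | @arg a f ts ha h ih =>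
    apply ih
    rw [vars_fn, List.nodup_flatMap] at hs
    exact hs.1 a ha

theorem hasBul_subterm {t s : Tm} (h : Subterm t s) (hs : ¬ HasBul s) : ¬ HasBul t := by
  induction h with
  | refl => exact hs
  | arg ha h ih => exact ih (fun hb => hs (hasBul_fn.2 ⟨_, ha, hb⟩))

theorem LL.patList {R : TRS} (hR : LL R) : PatList R (pats R) := by
  refine ⟨fun p hp => ?_, fun ρ hρ => ?_, fun g ps hp i hi => ?_⟩
  · obtain ⟨r, hr, hpr⟩ := bfs_sub hp
    rw [List.mem_map] at hr
    obtain ⟨ρ, hρ, rfl⟩ := hr
    obtain ⟨h1, h2, h3⟩ := hR.lhs_patOK hρ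
    exact ⟨fun s hs => h1 s (subterm_syms hpr s hs), hasBul_subterm hpr h2,
      nodup_subterm hpr h3⟩
  · exact bfs_base (List.mem_map.2 ⟨ρ, hρ, rfl⟩)
  · exact bfs_args hp (by rw [args_fn]; exact gt_mem hi)

/-! ### States -/

/-- The claims selected by a bit string. -/
def sel (Q : List Claim) (c : List Bool) : List Claim := ((Q.zip c).filter (·.2)).map (·.1)

theorem sel_enc (Q : List Claim) (D : Claim → Bool) (k : ℕ) :
    sel Q (Q.map D ++ List.replicate k false) = Q.filter D := by
  unfold sel
  induction Q with
  | nil => simp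
  | cons q Q ih =>
    rw [List.map_cons, List.cons_append, List.zip_cons_cons, List.filter_cons, List.filter_cons]
    cases h : D q
    · simp [ih]
    · simp [ih]

theorem sel_sub {Q : List Claim} {c : List Bool} : ∀ q ∈ sel Q c, q ∈ Q := by
  intro q hq
  unfold sel at hq
  rw [List.mem_map] at hq
  obtain ⟨⟨q', b⟩, h1, rfl⟩ := hq
  rw [List.mem_filter] at h1
  exact (List.of_mem_zip h1.1).1

/-- The length of the states. -/
def stLen (R : TRS) : ℕ := (claims (pats R)).length + (sz R + 1)

/-- The local test on states. -/
def locB (R : TRS) (c : List Bool) (cs : List (List Bool)) : Bool :=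
  locT R (sigL R) (sel (claims (pats R)) c) (cs.map (sel (claims (pats R))))

/-- The start state: the only claim is that the term is not a normal form. -/
def startB (R : TRS) : List Bool := true :: List.replicate (stLen R - 1) false

theorem sz_le_of_subterm {t s : Tm} (h : Subterm t s) : sz t ≤ sz s := by
  induction h with
  | refl => exact le_rfl
  | @arg a f ts ha h ih =>
    have h1 := sz_args_le (.fn f ts)
    rw [args_fn] at h1
    have h2 := sz_le_of_mem ha
    omega

theorem arity_lt {R : TRS} {g k : ℕ} (h : (g, k) ∈ R.sig) : k < sz R := by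
  rw [← mem_sigL] at h
  unfold sigL at h
  rw [List.mem_flatMap] at h
  obtain ⟨t, ht, hs⟩ := h
  rw [Option.mem_toList] at hs
  obtain ⟨r, hr, htr⟩ := bfs_sub ht
  rw [List.mem_flatMap] at hr
  obtain ⟨ρ, hρ, hr⟩ := hr
  obtain ⟨ps, rfl, rfl⟩ := hd_iff.1 hs
  have h1 := sz_args_le (.fn g ps)
  rw [args_fn] at h1
  have h2 := length_lt_sz ps
  have h3 := sz_le_of_subterm htr
  have h4 := sz_le_of_mem hρ
  have h5 := sz_pair ρ.1 ρ.2
  simp only [List.mem_cons, List.not_mem_nil, or_false] at hr
  have h6 : sz ρ = sz (ρ.1, ρ.2) := rfl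
  rcases hr with rfl | rfl <;> omega

theorem LL.gen_iff {R : TRS} (hR : LL R) (c : List Bool) :
    Gen stLen locB R c ↔ c.length = stLen R ∧ ∃ t, Sat R t (sel (claims (pats R)) c) := by
  have hP := hR.patList
  have hsel : ∀ c, ∀ q ∈ sel (claims (pats R)) c, q.1 < 3 → PatOK R q.2 := by
    intro c q hq hlt
    have := sel_sub q hq
    rw [mem_claims] at this
    rcases this with rfl | h
    · simp at hlt
    · exact hP.ok _ h.2
  have hgetD : ∀ (cs : List (List Bool)) (i : ℕ), i < cs.length →
      (cs.map (sel (claims (pats R)))).getD i [] = sel (claims (pats R)) (cs.getD i []) := by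
    intro cs i hi
    simp [hi]
  constructor
  · intro h
    induction h with
    | mk c cs h1 h2 h3 h4 ih =>
      refine ⟨h1, ?_⟩
      unfold locB at h3
      rw [locT_iff mem_sigL] at h3
      rcases h3 with ⟨h5, _⟩ | ⟨g, h5, h6⟩
      · exact ⟨_, hR.leaf_sound (hsel c) h5⟩
      · have h7 : ∀ i : Fin cs.length, ∃ t, Sat R t (sel (claims (pats R)) (cs.getD i [])) := by
          intro i
          refine (ih (cs.getD i []) ?_).2
          rw [List.getD_eq_getElem _ _ i.2]
          exact List.getElem_mem _
        choose t h8 using h7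
        refine ⟨.fn g (List.ofFn t), hR.locN_sound (hsel c) (by simp) ?_ (fun i hi => ?_) h6⟩
        · simpa using h5
        · rw [List.length_ofFn] at hi
          rw [hgetD cs i hi]
          have := h8 ⟨i, hi⟩
          simpa [gt, hi] using this
  · rintro ⟨h1, t, h2⟩
    induction t generalizing c with
    | var x =>
      refine Gen.mk c [] h1 (by simp) ?_ (by simp)
      unfold locB
      rw [locT_iff mem_sigL]
      exact Or.inl ⟨hR.leaf_complete h2, rfl⟩
    | bul => exact absurd hasBul_bul h2.nobul
    | fn g ts ih =>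
      classical
      set S := sel (claims (pats R)) c with hS
      have hSc : ∀ q ∈ S, q ∈ claims (pats R) := sel_sub
      -- the codes of the children
      have hch : ∀ i, ∃ c', c'.length = stLen R ∧
          sel (claims (pats R)) c' = childC R (pats R) S g ts i := by
        intro i
        refine ⟨(claims (pats R)).map (fun q => decide (q ∈ childC R (pats R) S g ts i)) ++
          List.replicate (sz R + 1) false, by simp [stLen], ?_⟩
        rw [sel_enc]
        unfold childC
        apply List.filter_congr
        intro q hq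
        rw [decide_eq_decide, List.mem_filter, decide_eq_true_iff]
        simp [hq]
      choose ch h3 h4 using hch
      have hlen : ts.length ≤ stLen R := by
        have := arity_lt (over_fnS.1 h2.ovr).1
        unfold stLen
        omega
      refine Gen.mk c (List.ofFn fun i : Fin ts.length => ch i) h1 (by simpa using hlen) ?_ ?_
      · unfold locB
        rw [locT_iff mem_sigL]
        refine Or.inr ⟨g, ?_, hR.locN_complete hP hSc h2 (by simp) fun i hi => ?_⟩
        · simpa using (over_fnS.1 h2.ovr).1
        · rw [hgetD _ _ (by simpa using hi)]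
          have : (List.ofFn fun i : Fin ts.length => ch i).getD i [] = ch i := by
            simp [hi]
          rw [this, h4]
      · intro c' hc'
        obtain ⟨i, rfl⟩ := (List.mem_ofFn' _ c').1 hc'
        refine ih (gt ts i) (gt_mem i.2) (ch i) (h3 i) ?_
        rw [h4]
        exact hR.childC_sat hP hSc h2 i.2

/-- A left-linear system is not strongly sequential if and only if the start state is
generated. -/
theorem LL.notSS_iff_gen {R : TRS} (hR : LL R) :
    ¬ StronglySequential R ↔ Gen stLen locB R (startB R) := by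
  have h0 : sel (claims (pats R)) (startB R) = [(3, .bul)] := by
    have h1 : startB R = (claims (pats R)).map (fun q => decide (q = (3, Tm.bul))) ++
        List.replicate (sz R + 1) false := by
      have h2 : ∀ l : List Claim, (∀ q ∈ l, q ≠ (3, Tm.bul)) →
          l.map (fun q => decide (q = (3, Tm.bul))) = List.replicate l.length false := by
        intro l hl
        apply List.ext_getElem (by simp)
        intro i hi hi'
        simp only [List.getElem_map, List.getElem_replicate, decide_eq_false_iff_not]
        exact hl _ (List.getElem_mem _)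
      unfold startB stLen claims
      rw [List.map_cons, h2]
      · simp only [decide_true, List.length_cons, List.cons_append, List.cons.injEq, true_and]
        rw [List.replicate_append_replicate]
        congr 1
        omega
      · intro q hq h
        subst h
        simp at hq
    rw [h1, sel_enc]
    unfold claims
    rw [List.filter_cons]
    simp only [decide_true, if_true]
    congr 1
    rw [List.filter_eq_nil_iff]
    intro q hq h
    simp only [decide_eq_true_eq] at h
    subst h
    simp at hq
  rw [hR.gen_iff, hR.notSS_iff, h0]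
  constructor
  · rintro ⟨t, h1, h2, h3, h4⟩
    refine ⟨by simp [startB, stLen, add_assoc], t, h1, h2, ?_, ?_, ?_, ?_⟩
    · intro p hp
      simp at hp
    · intro p hp
      simp at hp
    · exact fun _ _ => h3
    · exact Bad.mono (fun q hq => hq.elim) h4
  · rintro ⟨_, t, h⟩
    refine ⟨t, h.ovr, h.nobul, h.c3 .bul (by simp), Bad.mono (fun q hq => ?_) h.bad⟩
    simp at hq

end Pool.Agent.H820R2.SS
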