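import Pool.Agent.H820R2.SS.Alt5
import Pool.Agent.H671R2.PolyAuto
import Pool.Agent.NPC.Dec

/-!
# The local test is computable in polynomial time
-/

namespace Pool.Agent.H820R2.SS

open Pool.Agent.NPC

variable {α : Type} [TEnc α]

@[fun_prop]
theorem poly_rangeLength {β : Type} [TEnc β] {l : α → List β} (hl : NPC.Poly l) :
    NPC.Poly (fun a => List.range (l a).length) := Poly.range_length hl

/-- Is the root a function symbol? -/
def Tm.isFn : Tm → Bool
  | .node _ _ _ => true
  | _ => false

theorem poly_isFn {t : α → Tm} (ht : NPC.Poly t) : NPC.Poly (fun a => (t a).isFn) := by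
  have h1 : NPC.Poly (fun a => !(decide ((toT (t a)).hd = T.nil))) :=
    NPC.Poly.not (NPC.Poly.decide_eq (NPC.Poly.hd (NPC.Poly.toT' ht)) (NPC.Poly.const T.nil))
  refine h1.congr fun a => ?_
  cases t a with
  | var x => rfl
  | bul => rfl
  | fn f ts =>
    rw [toT_tmFn]
    rfl

@[fun_prop]
theorem poly_isVar {t : α → Tm} (ht : NPC.Poly t) : NPC.Poly (fun a => (t a).isVar) := by
  have h1 : NPC.Poly (fun a => !(decide (t a = Tm.bul)) && !(t a).isFn) :=
    NPC.Poly.and (NPC.Poly.not (NPC.Poly.decide_eq ht (NPC.Poly.const Tm.bul)))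
      (NPC.Poly.not (poly_isFn ht))
  refine h1.congr fun a => ?_
  cases t a with
  | var x => simp [Tm.isFn]
  | bul => simp [Tm.isFn]
  | fn f ts => rw [isVar_fn]; simp [Tm.isFn, Tm.fn]

@[fun_prop]
theorem poly_args {t : α → Tm} (ht : NPC.Poly t) : NPC.Poly (fun a => (t a).args) := by
  have h1 : NPC.Poly (fun a => bif (t a).isFn then (toT (t a)).tl.tl else T.nil) :=
    NPC.Poly.cond (poly_isFn ht) (NPC.Poly.tl (NPC.Poly.tl (NPC.Poly.toT' ht)))
      (NPC.Poly.const T.nil)
  refine NPC.Poly.of_toT (h1.congr fun a => ?_)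
  cases t a with
  | var x => rfl
  | bul => rfl
  | fn f ts =>
    rw [args_fn, toT_tmFn]
    rfl

/-- The name of the root symbol. -/
def Tm.nm (t : Tm) : ℕ := t.hd.elim 0 Prod.fst

theorem poly_nm {t : α → Tm} (ht : NPC.Poly t) : NPC.Poly (fun a => (t a).nm) := by
  have h1 : NPC.Poly (fun a => bif (t a).isFn then (toT (t a)).tl.hd else T.nil) :=
    NPC.Poly.cond (poly_isFn ht) (NPC.Poly.hd (NPC.Poly.tl (NPC.Poly.toT' ht)))
      (NPC.Poly.const T.nil)
  refine NPC.Poly.of_toT (h1.congr fun a => ?_)
  cases t a with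
  | var x => rfl
  | bul => rfl
  | fn f ts =>
    rw [toT_tmFn]
    rfl

@[fun_prop]
theorem poly_hd {t : α → Tm} (ht : NPC.Poly t) : NPC.Poly (fun a => (t a).hd) := by
  have h1 : NPC.Poly (fun a => bif (t a).isFn then some ((t a).nm, (t a).args.length) else none) :=
    NPC.Poly.cond (poly_isFn ht)
      (NPC.Poly.some (NPC.Poly.pair (poly_nm ht) (NPC.Poly.length (poly_args ht))))
      (NPC.Poly.const none)
  refine h1.congr fun a => ?_
  cases t a with
  | var x => rfl
  | bul => rfl
  | fn f ts =>
    rw [hd_fn, args_fn]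
    rfl

theorem poly_bits {β : Type} [TEnc β] {f : α → β} (hf : NPC.Poly f) : NPC.Poly (fun a => bits (f a)) := by
  have h1 : PC (bits : α → List Bool) (fun x : List Bool => x) (fun a => bits (f a)) := hf
  exact PC.comp (g := fun x : List Bool => x) (f := fun a => bits (f a)) PC.rawIn h1

theorem poly_bfs {l : α → List Tm} (hl : NPC.Poly l) : NPC.Poly (fun a => bfs (l a)) := by
  have h0 : NPC.Poly (fun l : List Tm => bfs l) := by
    have h1 : NPC.Poly (fun l : List Tm => bfsStep^[(bits l).length] ([], l)) := by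
      refine Poly.iterLen (l := fun l : List Tm => bits l) (s := fun l => (([] : List Tm), l))
        (F := fun _ s => bfsStep s) (poly_bits NPC.Poly.id) (by fun_prop) ?_
        (Polynomial.X * Polynomial.X + Polynomial.X + Polynomial.C 3) ?_
      · unfold bfsStep
        fun_prop
      · intro l k hk
        rw [bits_length] at hk
        have h2 : sz (bfsStep^[k] ([], l)).2 ≤ sz l := by
          rcases bfs_cur l k with h | h
          · rw [h]
            exact sz_pos l
          · omega
        have h3 : ∀ j ≤ k, sz (bfsStep^[j] ([], l)).1 ≤ j * sz l + 1 := by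
          intro j
          induction j with
          | zero => intro _; simp
          | succ j ih =>
            intro hj
            rw [Function.iterate_succ_apply']
            have h4 := ih (by omega)
            have h5 : sz (bfsStep^[j] ([], l)).2 ≤ sz l := by
              rcases bfs_cur l j with h | h
              · rw [h]
                exact sz_pos l
              · omega
            have h6 := sz_append (bfsStep^[j] ([], l)).1 (bfsStep^[j] ([], l)).2
            show sz ((bfsStep^[j] ([], l)).1 ++ (bfsStep^[j] ([], l)).2) ≤ (j + 1) * sz l + 1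
            rw [Nat.add_mul]
            omega
        have h4 := h3 k le_rfl
        have h5 : sz (bfsStep^[k] ([], l)) = sz (bfsStep^[k] ([], l)).1 +
          sz (bfsStep^[k] ([], l)).2 + 1 := sz_pair _ _
        have h6 : k * sz l ≤ sz l * sz l := Nat.mul_le_mul_right _ hk
        simp only [Polynomial.eval_add, Polynomial.eval_mul, Polynomial.eval_C,
          Polynomial.eval_X]
        show sz (bfsStep^[k] ([], l)) ≤ _
        omega
    refine (NPC.Poly.fst h1).congr fun l => ?_
    rw [bits_length]
    rfl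
  exact h0.comp hl

attribute [fun_prop] poly_bfs

@[fun_prop]
theorem poly_pats {R : α → TRS} (hR : NPC.Poly R) : NPC.Poly (fun a => pats (R a)) := by
  unfold pats
  fun_prop

@[fun_prop]
theorem poly_sigL {R : α → TRS} (hR : NPC.Poly R) : NPC.Poly (fun a => sigL (R a)) := by
  have h1 : NPC.Poly (fun a => (bfs ((R a).flatMap fun ρ => [ρ.1, ρ.2])).flatMap fun t =>
      t.hd.elim ([] : List (ℕ × ℕ)) (fun s => [s])) := by fun_prop
  refine h1.congr fun a => ?_
  unfold sigL
  congr 1
  funext t
  cases t.hd <;> rfl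

@[fun_prop]
theorem poly_claims {P : α → List Tm} (hP : NPC.Poly P) : NPC.Poly (fun a => claims (P a)) := by
  unfold claims
  fun_prop

@[fun_prop]
theorem poly_sel {Q : α → List Claim} {c : α → List Bool} (hQ : NPC.Poly Q) (hc : NPC.Poly c) :
    NPC.Poly (fun a => sel (Q a) (c a)) := by
  unfold sel
  fun_prop

abbrev SsT : Type := List (List Claim)

@[fun_prop]
theorem poly_softB {R : α → TRS} {g : α → ℕ} {Ss : α → SsT} (hR : NPC.Poly R) (hg : NPC.Poly g)
    (hSs : NPC.Poly Ss) : NPC.Poly (fun a => softB (R a) (g a) (Ss a)) := by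
  unfold softB gt
  fun_prop

@[fun_prop]
theorem poly_b0 {R : α → TRS} {g : α → ℕ} {S : α → List Claim} {Ss : α → SsT} (hR : NPC.Poly R)
    (hg : NPC.Poly g) (hS : NPC.Poly S) (hSs : NPC.Poly Ss) :
    NPC.Poly (fun a => b0 (R a) (g a) (S a) (Ss a)) := by
  unfold b0 gt
  fun_prop

@[fun_prop]
theorem poly_b1 {g : α → ℕ} {S : α → List Claim} {Ss : α → SsT}
    (hg : NPC.Poly g) (hS : NPC.Poly S) (hSs : NPC.Poly Ss) :
    NPC.Poly (fun a => b1 (g a) (S a) (Ss a)) := by
  unfold b1 gt
  fun_prop

@[fun_prop]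
theorem poly_b3 {R : α → TRS} {g : α → ℕ} {S : α → List Claim} {Ss : α → SsT} (hR : NPC.Poly R)
    (hg : NPC.Poly g) (hS : NPC.Poly S) (hSs : NPC.Poly Ss) :
    NPC.Poly (fun a => b3 (R a) (g a) (S a) (Ss a)) := by
  unfold b3
  fun_prop

@[fun_prop]
theorem poly_cand {R : α → TRS} {S : α → List Claim} (hR : NPC.Poly R)
    (hS : NPC.Poly S) : NPC.Poly (fun a => cand (R a) (S a)) := by
  unfold cand
  fun_prop

@[fun_prop]
theorem poly_b2 {R : α → TRS} {g : α → ℕ} {S : α → List Claim} {Ss : α → SsT} (hR : NPC.Poly R)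
    (hg : NPC.Poly g) (hS : NPC.Poly S) (hSs : NPC.Poly Ss) :
    NPC.Poly (fun a => b2 (R a) (g a) (S a) (Ss a)) := by
  unfold b2 gt
  fun_prop

@[fun_prop]
theorem poly_leafB {S : α → List Claim} (hS : NPC.Poly S) :
    NPC.Poly (fun a => leafB (S a)) := by
  unfold leafB
  fun_prop

@[fun_prop]
theorem poly_locT {R : α → TRS} {sg : α → List (ℕ × ℕ)} {S : α → List Claim} {Ss : α → SsT}
    (hR : NPC.Poly R) (hsg : NPC.Poly sg) (hS : NPC.Poly S) (hSs : NPC.Poly Ss) :
    NPC.Poly (fun a => locT (R a) (sg a) (S a) (Ss a)) := by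
  unfold locT
  fun_prop

theorem poly_locB : NPC.Poly (fun q : TRS × List Bool × List (List Bool) =>
    locB q.1 q.2.1 q.2.2) := by
  unfold locB
  fun_prop

theorem upoly_stLen : UPoly stLen := by
  unfold stLen
  refine UPoly.add (UPoly.length (poly_claims (poly_pats NPC.Poly.id))) (UPoly.add ?_ (UPoly.const 1))
  exact (UPoly.length (poly_bits (α := TRS) NPC.Poly.id)).congr fun a =>
    congrArg (fun n => List.replicate n ()) (bits_length a)

theorem poly_startB : NPC.Poly startB := by
  have h1 : NPC.Poly (fun R : TRS => true :: (List.replicate (stLen R) ()).tail.map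
      (fun _ => false)) :=
    NPC.Poly.cons (NPC.Poly.const true) (NPC.Poly.map (F := fun _ _ => false)
      (NPC.Poly.tail upoly_stLen) (NPC.Poly.const false))
  refine h1.congr fun R => ?_
  unfold startB
  congr 1
  rw [List.tail_replicate, List.map_replicate]

end Pool.Agent.H820R2.SS
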