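import Pool.Agent.H820R2.SS.Defs
/-!
# Terms with lists of arguments
-/
namespace Pool.Agent.H820R2.SS

theorem Tm.fn_inj {f g : ℕ} {ts us : List Tm} (h : Tm.fn f ts = Tm.fn g us) : f = g ∧ ts = us := by
  unfold Tm.fn at h
  injection h with h1 h2 h3
  refine ⟨h1, ?_⟩
  apply List.ext_get h2
  intro n hn1 hn2
  have key : ∀ {k k' : ℕ} {a : Fin k → Tm} {b : Fin k' → Tm}, k = k' → HEq a b →
      ∀ n (h : n < k) (h' : n < k'), a ⟨n, h⟩ = b ⟨n, h'⟩ := by
    intro k k' a b e1 e2 n h h'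
    subst e1
    cases e2
    rfl
  exact key h2 h3 n hn1 hn2

@[simp] theorem Tm.fn_eq_iff {f g : ℕ} {ts us : List Tm} :
    Tm.fn f ts = Tm.fn g us ↔ f = g ∧ ts = us :=
  ⟨Tm.fn_inj, by rintro ⟨rfl, rfl⟩; rfl⟩

@[simp] theorem Tm.var_ne_fn {x f : ℕ} {ts : List Tm} : Tm.var x ≠ Tm.fn f ts := by
  intro h; unfold Tm.fn at h; cases h

@[simp] theorem Tm.fn_ne_var {x f : ℕ} {ts : List Tm} : Tm.fn f ts ≠ Tm.var x := by
  intro h; unfold Tm.fn at h; cases h

@[simp] theorem Tm.bul_ne_fn {f : ℕ} {ts : List Tm} : Tm.bul ≠ Tm.fn f ts := by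
  intro h; unfold Tm.fn at h; cases h

@[simp] theorem Tm.fn_ne_bul {f : ℕ} {ts : List Tm} : Tm.fn f ts ≠ Tm.bul := by
  intro h; unfold Tm.fn at h; cases h

theorem Tm.node_eq_fn {f k : ℕ} (ts : Fin k → Tm) : Tm.node f k ts = Tm.fn f (List.ofFn ts) := by
  unfold Tm.fn
  have key : ∀ (l : List Tm) (hl : l.length = k), (∀ i : Fin k, l.get ⟨i, by omega⟩ = ts i) →
      Tm.node f k ts = Tm.node f l.length l.get := by
    intro l hl h
    subst hl
    congr 1
    funext i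
    exact (h i).symm
  apply key (List.ofFn ts) (by simp)
  intro i
  simp

@[induction_eliminator]
theorem Tm.ind {P : Tm → Prop} (var : ∀ x, P (.var x)) (bul : P .bul)
    (fn : ∀ f ts, (∀ a ∈ ts, P a) → P (.fn f ts)) (t : Tm) : P t :=
  Tm.rec (motive := P) var bul (fun f k ts ih => by
    rw [Tm.node_eq_fn]
    apply fn
    intro a ha
    obtain ⟨i, rfl⟩ := (List.mem_ofFn' ts a).1 ha
    exact ih i) t

@[cases_eliminator]
theorem Tm.casesFn {P : Tm → Prop} (var : ∀ x, P (.var x)) (bul : P .bul)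
    (fn : ∀ f ts, P (.fn f ts)) (t : Tm) : P t :=
  Tm.ind var bul (fun f ts _ => fn f ts) t

@[simp] theorem subst_var (σ : ℕ → Tm) (x : ℕ) : (Tm.var x).subst σ = σ x := by
  rw [Tm.subst]
@[simp] theorem subst_bul (σ : ℕ → Tm) : (Tm.bul).subst σ = .bul := by
  rw [Tm.subst]
@[simp] theorem subst_fn (σ : ℕ → Tm) (f : ℕ) (ts : List Tm) :
    (Tm.fn f ts).subst σ = .fn f (ts.map (Tm.subst σ)) := by
  rw [Tm.fn, Tm.subst, Tm.node_eq_fn]
  congr 1
  apply List.ext_getElem <;> simp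

@[simp] theorem vars_var (x : ℕ) : (Tm.var x).vars = [x] := by
  rw [Tm.vars]
@[simp] theorem vars_bul : (Tm.bul).vars = [] := by
  rw [Tm.vars]
@[simp] theorem vars_fn (f : ℕ) (ts : List Tm) :
    (Tm.fn f ts).vars = ts.flatMap Tm.vars := by
  rw [Tm.fn, Tm.vars, List.flatMap]
  congr 1
  apply List.ext_getElem <;> simp

@[simp] theorem syms_var (x : ℕ) : (Tm.var x).syms = [] := by
  rw [Tm.syms]
@[simp] theorem syms_bul : (Tm.bul).syms = [] := by
  rw [Tm.syms]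
@[simp] theorem syms_fn (f : ℕ) (ts : List Tm) :
    (Tm.fn f ts).syms = (f, ts.length) :: ts.flatMap Tm.syms := by
  rw [Tm.fn, Tm.syms, List.flatMap]
  congr 2
  apply List.ext_getElem <;> simp

end Pool.Agent.H820R2.SS
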