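import Pool.Agent.H820R2.SS.Api

/-!
# Basic facts about terms and arbitrary reduction
-/

namespace Pool.Agent.H820R2.SS

open Relation

/-- Access to arguments, with default value. -/
abbrev gt (ts : List Tm) (i : ℕ) : Tm := ts.getD i Tm.bul

/-- Replacing `•` by a term. -/
def plug (D : Tm) : Tm → Tm
  | .var x => .var x
  | .bul => D
  | .node f k ts => .node f k (fun i => plug D (ts i))

@[simp] theorem plug_var (D : Tm) (x : ℕ) : plug D (Tm.var x) = .var x := by
  rw [plug]
@[simp] theorem plug_bul (D : Tm) : plug D Tm.bul = D := by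
  rw [plug]
@[simp] theorem plug_fn (D : Tm) (f : ℕ) (ts : List Tm) :
    plug D (Tm.fn f ts) = .fn f (ts.map (plug D)) := by
  rw [Tm.fn, plug, Tm.node_eq_fn]
  congr 1
  apply List.ext_getElem <;> simp

theorem hasBul_bul : HasBul .bul := Subterm.refl _

theorem not_hasBul_var (x : ℕ) : ¬ HasBul (.var x) := by
  intro h
  cases h

theorem subterm_fn {s : Tm} {f : ℕ} {ts : List Tm} (h : Subterm s (.fn f ts)) :
    s = .fn f ts ∨ ∃ a ∈ ts, Subterm s a := by
  generalize hx : Tm.fn f ts = x at h
  cases h with
  | refl => exact Or.inl rfl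
  | arg ha h =>
    obtain ⟨-, rfl⟩ := Tm.fn_inj hx
    exact Or.inr ⟨_, ha, h⟩

theorem hasBul_fn {f : ℕ} {ts : List Tm} : HasBul (.fn f ts) ↔ ∃ a ∈ ts, HasBul a := by
  constructor
  · intro h
    unfold HasBul at h
    generalize hx : Tm.fn f ts = x at h
    cases h with
    | refl => exact absurd hx (by simp)
    | arg ha h =>
      obtain ⟨-, rfl⟩ := Tm.fn_inj hx
      exact ⟨_, ha, h⟩
  · rintro ⟨a, ha, h⟩
    exact Subterm.arg ha h

theorem plug_eq_self (D : Tm) : ∀ t : Tm, ¬ HasBul t → plug D t = t := by
  refine Tm.ind ?_ ?_ ?_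
  · intro x _
    simp
  · intro h
    exact absurd hasBul_bul h
  · intro f ts ih h
    rw [plug_fn]
    congr 1
    conv_rhs => rw [← List.map_id ts]
    apply List.map_congr_left
    intro a ha
    exact ih a ha (fun hb => h (hasBul_fn.2 ⟨a, ha, hb⟩))

theorem plug_subst (D : Tm) (σ : ℕ → Tm) : ∀ t : Tm, ¬ HasBul t →
    plug D (t.subst σ) = t.subst (fun x => plug D (σ x)) := by
  refine Tm.ind ?_ ?_ ?_
  · intro x _
    simp
  · intro h
    exact absurd hasBul_bul h
  · intro f ts ih h
    rw [subst_fn, plug_fn, subst_fn, List.map_map]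
    congr 1
    apply List.map_congr_left
    intro a ha
    exact ih a ha (fun hb => h (hasBul_fn.2 ⟨a, ha, hb⟩))

theorem oneHole_plug {D t c : Tm} (h : OneHole D t c) (ht : ¬ HasBul t) : plug D c = t := by
  induction h with
  | root => simp
  | @arg f l r a c h ih =>
    rw [plug_fn]
    have h1 : ∀ b ∈ l ++ a :: r, ¬ HasBul b := fun b hb hb' => ht (hasBul_fn.2 ⟨b, hb, hb'⟩)
    have h2 : ∀ l' : List Tm, (∀ b ∈ l', ¬ HasBul b) → l'.map (plug D) = l' := by
      intro l' hl'
      conv_rhs => rw [← List.map_id l']
      apply List.map_congr_left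
      intro b hb
      exact plug_eq_self D b (hl' b hb)
    rw [List.map_append, List.map_cons, ih (h1 a (by simp)),
      h2 l (fun b hb => h1 b (by simp [hb])), h2 r (fun b hb => h1 b (by simp [hb]))]

/-- Unrestricted arbitrary reduction. -/
inductive StepU (R : TRS) : Tm → Tm → Prop
  | root {t : Tm} (ht : IsRedex R t) (s : Tm) : StepU R t s
  | arg {f : ℕ} {l r : List Tm} {a b : Tm} (h : StepU R a b) :
      StepU R (.fn f (l ++ a :: r)) (.fn f (l ++ b :: r))

theorem Step.toU {R : TRS} {a b : Tm} (h : Step R a b) : StepU R a b := by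
  induction h with
  | root ht hs => exact StepU.root ht _
  | arg h ih => exact StepU.arg ih

/-- Reachability by unrestricted arbitrary reduction. -/
abbrev RU (R : TRS) : Tm → Tm → Prop := ReflTransGen (StepU R)

/-- Componentwise reachability of argument lists. -/
def RL (R : TRS) (us vs : List Tm) : Prop :=
  us.length = vs.length ∧ ∀ i < us.length, RU R (gt us i) (gt vs i)

theorem RL.refl (R : TRS) (us : List Tm) : RL R us us := ⟨rfl, fun _ _ => ReflTransGen.refl⟩

theorem gt_append_cons_eq (l r : List Tm) (a : Tm) : gt (l ++ a :: r) l.length = a := by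
  simp [gt]

theorem gt_append_cons_ne (l r : List Tm) (a b : Tm) (i : ℕ) (h : i ≠ l.length) :
    gt (l ++ a :: r) i = gt (l ++ b :: r) i := by
  unfold gt
  rcases lt_or_gt_of_ne h with h | h
  · rw [List.getD_append _ _ _ _ h, List.getD_append _ _ _ _ h]
  · rw [List.getD_append_right _ _ _ _ h.le, List.getD_append_right _ _ _ _ h.le]
    obtain ⟨k, hk⟩ : ∃ k, i - l.length = k + 1 := ⟨i - l.length - 1, by omega⟩
    rw [hk]
    simp

theorem RL.step {R : TRS} {us : List Tm} {l r : List Tm} {a b : Tm} (h : RL R us (l ++ a :: r))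
    (hab : StepU R a b) : RL R us (l ++ b :: r) := by
  refine ⟨by rw [h.1]; simp, fun i hi => ?_⟩
  by_cases hil : i = l.length
  · subst hil
    have := h.2 _ hi
    rw [gt_append_cons_eq] at this ⊢
    exact this.tail hab
  · rw [← gt_append_cons_ne l r a b i hil]
    exact h.2 i hi

/-- The root lemma: either all reducts have the same root and componentwise reducts, or a redex at
the root is reachable. -/
theorem root_lemma {R : TRS} {g : ℕ} {ts : List Tm} {u : Tm} (h : RU R (.fn g ts) u) :
    (∃ us, u = .fn g us ∧ RL R ts us) ∨ (∃ us, RL R ts us ∧ IsRedex R (.fn g us)) := by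
  induction h with
  | refl => exact Or.inl ⟨ts, rfl, RL.refl R ts⟩
  | @tail v w hv hvw ih =>
    rcases ih with ⟨vs, rfl, hvs⟩ | h
    · generalize hx : Tm.fn g vs = x at hvw
      cases hvw with
      | root ht s =>
        subst hx
        exact Or.inr ⟨vs, hvs, ht⟩
      | @arg f l r a b h =>
        obtain ⟨h1, h2⟩ := Tm.fn_inj hx
        subst h1 h2
        exact Or.inl ⟨_, rfl, hvs.step h⟩
    · exact Or.inr h

theorem gt_set_self {ts : List Tm} {i : ℕ} (hi : i < ts.length) (b : Tm) :
    gt (ts.set i b) i = b := by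
  simp [gt, hi]

theorem gt_set_ne {ts : List Tm} {i j : ℕ} (h : j ≠ i) (b : Tm) :
    gt (ts.set i b) j = gt ts j := by
  simp [gt, List.getElem?_set_ne h.symm]

theorem gt_mem {ts : List Tm} {i : ℕ} (hi : i < ts.length) : gt ts i ∈ ts := by
  simp [gt, hi]

theorem list_ext_gt {us vs : List Tm} (h : us.length = vs.length)
    (h2 : ∀ i < us.length, gt us i = gt vs i) : us = vs := by
  apply List.ext_getElem h
  intro i hi hi'
  have := h2 i hi
  simpa [gt, hi, hi'] using this

/-- Componentwise reachability for arbitrary reduction over the signature. -/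
def RLS (R : TRS) (us vs : List Tm) : Prop :=
  us.length = vs.length ∧ ∀ i < us.length, ReflTransGen (Step R) (gt us i) (gt vs i)

theorem RS.set {R : TRS} {g : ℕ} {ts : List Tm} {i : ℕ} (hi : i < ts.length) {b : Tm}
    (h : ReflTransGen (Step R) (gt ts i) b) :
    ReflTransGen (Step R) (.fn g ts) (.fn g (ts.set i b)) := by
  have key : ∀ b, ReflTransGen (Step R) (gt ts i) b →
      ReflTransGen (Step R) (.fn g ts) (.fn g (ts.take i ++ b :: ts.drop (i + 1))) := by
    intro b hb
    induction hb with
    | refl =>
      have : gt ts i = ts[i] := by simp [gt, hi]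
      rw [this, List.cons_getElem_drop_succ, List.take_append_drop]
    | tail _ h2 ih => exact ih.tail (Step.arg h2)
  rw [List.set_eq_take_append_cons_drop, if_pos hi]
  exact key b h

/-- Congruence for reachability of all arguments. -/
theorem RS.congr_args {R : TRS} (g : ℕ) {us vs : List Tm} (h : RLS R us vs) :
    ReflTransGen (Step R) (.fn g us) (.fn g vs) := by
  obtain ⟨h1, h2⟩ := h
  have key : ∀ k ≤ us.length, ∃ ws : List Tm, ws.length = us.length ∧
      (∀ i < k, gt ws i = gt vs i) ∧ (∀ i, k ≤ i → gt ws i = gt us i) ∧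
      ReflTransGen (Step R) (.fn g us) (.fn g ws) := by
    intro k
    induction k with
    | zero => exact fun _ => ⟨us, rfl, fun i hi => absurd hi (by omega), fun _ _ => rfl,
        ReflTransGen.refl⟩
    | succ k ih =>
      intro hk
      obtain ⟨ws, hl, ha, hb, hr⟩ := ih (by omega)
      refine ⟨ws.set k (gt vs k), by simp [hl], ?_, ?_, ?_⟩
      · intro i hi
        by_cases hik : i = k
        · subst hik
          rw [gt_set_self (by omega)]
        · rw [gt_set_ne hik]
          exact ha i (by omega)
      · intro i hi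
        rw [gt_set_ne (by omega)]
        exact hb i (by omega)
      · refine hr.trans (RS.set (by omega) ?_)
        rw [hb k le_rfl]
        exact h2 k (by omega)
  obtain ⟨ws, hl, ha, _, hr⟩ := key us.length le_rfl
  have : ws = vs := list_ext_gt (by omega) (fun i hi => ha i (by omega))
  rwa [this] at hr

/-- Congruence for unrestricted reachability of all arguments. -/
theorem RU.congr_args {R : TRS} (g : ℕ) {us vs : List Tm} (h : RL R us vs) :
    RU R (.fn g us) (.fn g vs) := by
  have hset : ∀ {ts : List Tm} {i : ℕ}, i < ts.length → ∀ b, RU R (gt ts i) b →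
      RU R (.fn g ts) (.fn g (ts.set i b)) := by
    intro ts i hi b hb
    rw [List.set_eq_take_append_cons_drop, if_pos hi]
    induction hb with
    | refl =>
      have : gt ts i = ts[i] := by simp [gt, hi]
      rw [this, List.cons_getElem_drop_succ, List.take_append_drop]
    | tail _ h2 ih => exact ih.tail (StepU.arg h2)
  obtain ⟨h1, h2⟩ := h
  have key : ∀ k ≤ us.length, ∃ ws : List Tm, ws.length = us.length ∧
      (∀ i < k, gt ws i = gt vs i) ∧ (∀ i, k ≤ i → gt ws i = gt us i) ∧
      RU R (.fn g us) (.fn g ws) := by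
    intro k
    induction k with
    | zero => exact fun _ => ⟨us, rfl, fun i hi => absurd hi (by omega), fun _ _ => rfl,
        ReflTransGen.refl⟩
    | succ k ih =>
      intro hk
      obtain ⟨ws, hl, ha, hb, hr⟩ := ih (by omega)
      refine ⟨ws.set k (gt vs k), by simp [hl], ?_, ?_, ?_⟩
      · intro i hi
        by_cases hik : i = k
        · subst hik
          rw [gt_set_self (by omega)]
        · rw [gt_set_ne hik]
          exact ha i (by omega)
      · intro i hi
        rw [gt_set_ne (by omega)]
        exact hb i (by omega)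
      · refine hr.trans (hset (by omega) _ ?_)
        rw [hb k le_rfl]
        exact h2 k (by omega)
  obtain ⟨ws, hl, ha, _, hr⟩ := key us.length le_rfl
  have : ws = vs := list_ext_gt (by omega) (fun i hi => ha i (by omega))
  rwa [this] at hr

end Pool.Agent.H820R2.SS
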