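import Pool.Agent.H820R2.SS.Game

/-!
# If the game is accepting, the system is not strongly sequential
-/

namespace Pool.Agent.H820R2.SS

open Relation

theorem oneHole_fn {D : Tm} {f : ℕ} {ts : List Tm} {e : Tm} (h : OneHole D (.fn f ts) e) :
    (D = .fn f ts ∧ e = .bul) ∨ ∃ i < ts.length, ∃ a, OneHole D (gt ts i) a ∧
      e = .fn f (ts.set i a) := by
  generalize hx : Tm.fn f ts = x at h
  cases h with
  | root => exact Or.inl ⟨rfl, rfl⟩
  | @arg g l r a c h =>
    obtain ⟨h1, h2⟩ := Tm.fn_inj hx
    subst h1 h2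
    right
    refine ⟨l.length, by simp, c, ?_, ?_⟩
    · rw [gt_append_cons_eq]
      exact h
    · simp

theorem over_fn {F : List (ℕ × ℕ)} {f : ℕ} {ts : List Tm} :
    Over F (.fn f ts) ↔ (f, ts.length) ∈ F ∧ ∀ a ∈ ts, Over F a := by
  unfold Over
  constructor
  · intro h
    refine ⟨h _ (by simp), fun a ha s hs => h s ?_⟩
    rw [syms_fn, List.mem_cons, List.mem_flatMap]
    exact Or.inr ⟨a, ha, hs⟩
  · rintro ⟨h1, h2⟩ s hs
    rw [syms_fn, List.mem_cons, List.mem_flatMap] at hs
    rcases hs with rfl | ⟨a, ha, hs⟩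
    · exact h1
    · exact h2 a ha s hs

theorem over_c {F : List (ℕ × ℕ)} {k : ℕ} : Over F (c k) ↔ (k, 0) ∈ F := by
  rw [c, over_fn]
  simp

theorem over_cols {F : List (ℕ × ℕ)} {f n J : ℕ} {p q : ℕ → Tm} (hf : (f, n + J) ∈ F)
    (hp : ∀ i < n, Over F (p i)) (hq : ∀ j < J, Over F (q j)) :
    Over F (.fn f (cols n J p q)) := by
  rw [over_fn, length_cols]
  refine ⟨hf, fun a ha => ?_⟩
  rw [cols, List.mem_append, List.mem_map, List.mem_map] at ha
  rcases ha with ⟨i, hi, rfl⟩ | ⟨j, hj, rfl⟩
  · exact hp i (List.mem_range.1 hi)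
  · exact hq j (List.mem_range.1 hj)

theorem not_hasBul_c (k : ℕ) : ¬ HasBul (c k) := by
  rw [c, hasBul_fn]
  simp

theorem not_hasBul_cols {f n J : ℕ} {p q : ℕ → Tm} (hp : ∀ i < n, ¬ HasBul (p i))
    (hq : ∀ j < J, ¬ HasBul (q j)) : ¬ HasBul (.fn f (cols n J p q)) := by
  rw [hasBul_fn]
  rintro ⟨a, ha, hb⟩
  rw [cols, List.mem_append, List.mem_map, List.mem_map] at ha
  rcases ha with ⟨i, hi, rfl⟩ | ⟨j, hj, rfl⟩
  · exact hp i (List.mem_range.1 hi) hb
  · exact hq j (List.mem_range.1 hj) hb

variable {G : Game}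

/-- Reaches every term over the signature. -/
def SoftS (G : Game) (s : Tm) : Prop := ∀ u, Over (trs G).sig u → ReflTransGen (Step (trs G)) s u

theorem softS_of_redex {s : Tm} (h : IsRedex (trs G) s) : SoftS G s :=
  fun _ hu => ReflTransGen.single (Step.root h hu)

theorem softS_of_reach {s s' : Tm} (h : ReflTransGen (Step (trs G)) s s') (h' : SoftS G s') :
    SoftS G s := fun u hu => h.trans (h' u hu)

/-- A closed redex. -/
def dd : Tm := .fn 3 [c 1, c 1]
/-- The content of a closed column. -/
def kk : Tm := .fn 3 [dd, dd]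

theorem redex_dd : IsRedex (trs G) dd := redex_iff.2 (Or.inl rfl)

theorem not_redex_c (k : ℕ) : ¬ IsRedex (trs G) (c k) := by
  rw [redex_iff]
  simp only [c]
  rintro (h | ⟨v, h⟩ | ⟨X, m, hm, v, h, _⟩ | ⟨m, hm, hJ, h⟩ |
      ⟨m, hm, j, hj, b, hb, X, m', hm', us, h, hus⟩)
  · simp at h
  · simp at h
  · simp at h
  · have h := (Tm.fn_inj h).2
    have := congrArg List.length h
    have := G.n_pos
    simp at *
    omega
  · have h := (Tm.fn_inj h).2
    have h1 := hus.1
    rw [← h] at h1
    have := G.n_pos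
    simp at h1
    omega

theorem not_redex_kk : ¬ IsRedex (trs G) kk := by
  rw [redex_iff]
  simp only [kk, dd, c]
  rintro (h | ⟨v, h⟩ | ⟨X, m, hm, v, h, _⟩ | ⟨m, hm, hJ, h⟩ |
      ⟨m, hm, j, hj, b, hb, X, m', hm', us, h, hus⟩)
  · simp at h
  · simp at h
  · simp at h
  · have h := (Tm.fn_inj h).1
    omega
  · have h := (Tm.fn_inj h).1
    omega

theorem mem_sig {ρ : Tm × Tm} (hρ : ρ ∈ trs G) {s : ℕ × ℕ} (hs : s ∈ ρ.1.syms ++ ρ.2.syms) :
    s ∈ (trs G).sig := List.mem_flatMap.2 ⟨ρ, hρ, hs⟩

theorem mem_trs_of {l : Tm} (h : l ∈ lhss G) : (l, c 0) ∈ trs G := List.mem_map_of_mem h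

theorem sig3 : (3, 2) ∈ (trs G).sig :=
  mem_sig (mem_trs_of (l := .fn 3 [c 1, c 1]) (by simp [lhss])) (by simp)

theorem sig1 : (1, 0) ∈ (trs G).sig :=
  mem_sig (mem_trs_of (l := .fn 3 [c 1, c 1]) (by simp [lhss])) (by simp [c])

theorem sig0 : (0, 0) ∈ (trs G).sig :=
  mem_sig (mem_trs_of (l := .fn 3 [c 1, c 1]) (by simp [lhss])) (by simp [c])

theorem sig4 : (4, 2) ∈ (trs G).sig :=
  mem_sig (mem_trs_of (l := .fn 4 [.var 0, c 1]) (by simp [lhss])) (by simp)

theorem sig2 {m : ℕ} (hm : m ∈ G.next0) : (2, 0) ∈ (trs G).sig := by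
  refine mem_sig (mem_trs_of (l := .fn 4 [cX true, xrow G true m G.Z0]) ?_)
    (by simp [Tm.syms, c, cX])
  rw [lhss, List.mem_cons, List.mem_cons, List.mem_append]
  right; right; left
  rw [List.mem_flatMap]
  exact ⟨true, by simp, List.mem_map_of_mem hm⟩

theorem over_cX {m : ℕ} (hm : m ∈ G.next0) (X : Bool) : Over (trs G).sig (cX X) := by
  cases X
  · exact over_c.2 sig1
  · exact over_c.2 (sig2 hm)

theorem over_dd : Over (trs G).sig dd := by
  rw [dd, over_fn]
  refine ⟨sig3, ?_⟩
  intro a ha
  simp at ha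
  subst ha
  exact over_c.2 sig1

theorem over_kk : Over (trs G).sig kk := by
  rw [kk, over_fn]
  refine ⟨sig3, ?_⟩
  intro a ha
  simp at ha
  subst ha
  exact over_dd

theorem not_hasBul_dd : ¬ HasBul dd := by
  rw [dd, hasBul_fn]
  rintro ⟨a, ha, h⟩
  simp at ha
  subst ha
  exact not_hasBul_c _ h

theorem not_hasBul_kk : ¬ HasBul kk := by
  rw [kk, hasBul_fn]
  rintro ⟨a, ha, h⟩
  simp at ha
  subst ha
  exact not_hasBul_dd h

theorem rls_pair {R : TRS} {a b a' b' : Tm} (h1 : ReflTransGen (Step R) a a')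
    (h2 : ReflTransGen (Step R) b b') : RLS R [a, b] [a', b'] := by
  refine ⟨rfl, fun i hi => ?_⟩
  match i, hi with
  | 0, _ => exact h1
  | 1, _ => exact h2

theorem softS_kk : SoftS G kk := by
  refine softS_of_reach (s' := dd) (RS.congr_args 3 (rls_pair ?_ ?_)) (softS_of_redex redex_dd)
  · exact softS_of_redex redex_dd _ (over_c.2 sig1)
  · exact softS_of_redex redex_dd _ (over_c.2 sig1)

/-- A common instance of the two killer patterns. -/
def pp : Tm := .fn 3 [c 0, c 0]

theorem patP_pp (X : Bool) : PatP X pp := ⟨c 0, by cases X <;> simp [pp]⟩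

theorem over_pp : Over (trs G).sig pp := by
  rw [pp, over_fn]
  refine ⟨sig3, ?_⟩
  intro a ha
  simp at ha
  subst ha
  exact over_c.2 sig0

theorem no_oneHole_c {k : ℕ} {D e : Tm} (hD : IsRedex (trs G) D) (h : OneHole D (c k) e) :
    False := by
  rcases oneHole_fn h with ⟨rfl, _⟩ | ⟨i, hi, _⟩
  · exact not_redex_c k hD
  · simp at hi

theorem oneHole_kk {D e : Tm} (hD : IsRedex (trs G) D) (h : OneHole D kk e) :
    ∃ X u, ReflTransGen (Step (trs G)) e u ∧ PatP X u := by
  rcases oneHole_fn h with ⟨rfl, _⟩ | ⟨i, hi, a, ha, rfl⟩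
  · exact absurd hD not_redex_kk
  · have hs : ReflTransGen (Step (trs G)) dd (c 0) := softS_of_redex redex_dd _ (over_c.2 sig0)
    match i, hi with
    | 0, _ =>
      refine ⟨false, .fn 3 [a, c 0], ?_, a, by simp⟩
      exact RS.congr_args 3 (rls_pair ReflTransGen.refl hs)
    | 1, _ =>
      refine ⟨true, .fn 3 [c 0, a], ?_, a, by simp⟩
      exact RS.congr_args 3 (rls_pair hs ReflTransGen.refl)

open Classical in
/-- A term over the signature matching a killer row. -/
noncomputable def xinst (G : Game) (m : ℕ) (D : ℕ → Prop) : Tm :=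
  .fn (5 + m) (cols G.n (G.J m) (fun i => if D i then pp else c 0) (fun _ => c 0))

theorem isX_xinst (X : Bool) (m : ℕ) (D : ℕ → Prop) : IsX G X m D (xinst G m D) := by
  refine ⟨_, rfl, length_cols _ _ _ _, fun i hi => ?_, fun j hj => gt_cols_right hj⟩
  rw [gt_cols_left hi]
  constructor
  · intro h
    rw [if_pos h]
    exact patP_pp X
  · intro h
    rw [if_neg h]

theorem over_xinst {m : ℕ} (hm : (5 + m, G.n + G.J m) ∈ (trs G).sig) (D : ℕ → Prop) :
    Over (trs G).sig (xinst G m D) := by
  refine over_cols hm (fun i _ => ?_) (fun j _ => over_c.2 sig0)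
  split
  · exact over_pp
  · exact over_c.2 sig0

theorem sigm {G : Game} {m : ℕ} {Z : ℕ → Prop} (h : G.Win m Z) :
    (5 + m, G.n + G.J m) ∈ (trs G).sig := by
  cases h with
  | leaf hm hJ hZ =>
    refine mem_sig (mem_trs_of (l := lrow G m) ?_) ?_
    · rw [lhss, List.mem_cons, List.mem_cons, List.mem_append]
      right; right; right
      rw [List.mem_flatMap]
      exact ⟨m, List.mem_range.2 hm, by simp [mrules, hJ]⟩
    · simp [lrow, Tm.syms, hJ]
  | node hm hJ f hf h =>
    refine mem_sig (mem_trs_of (l := yrow G m 0 0 false (f 0)) ?_) ?_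
    · rw [lhss, List.mem_cons, List.mem_cons, List.mem_append]
      right; right; right
      rw [List.mem_flatMap]
      refine ⟨m, List.mem_range.2 hm, ?_⟩
      rw [mrules, if_neg (by omega), List.mem_flatMap]
      refine ⟨0, List.mem_range.2 hJ, ?_⟩
      rw [List.mem_flatMap]
      refine ⟨0, List.mem_range.2 G.n_pos, ?_⟩
      rw [List.mem_flatMap]
      exact ⟨false, by simp, List.mem_map_of_mem (hf 0 hJ)⟩
    · simp [yrow, Tm.syms, length_cols]

theorem rls_cols {R : TRS} {n J : ℕ} {us : List Tm} {p q : ℕ → Tm} (hl : us.length = n + J)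
    (hp : ∀ i < n, ReflTransGen (Step R) (gt us i) (p i))
    (hq : ∀ j < J, ReflTransGen (Step R) (gt us (n + j)) (q j)) : RLS R us (cols n J p q) := by
  refine ⟨by rw [hl, length_cols], fun i hi => ?_⟩
  by_cases hin : i < n
  · rw [gt_cols_left hin]
    exact hp i hin
  · obtain ⟨j, rfl⟩ : ∃ j, i = n + j := ⟨i - n, by omega⟩
    rw [gt_cols_right (by omega)]
    exact hq j (by omega)

/-- The property of the terms constructed from winning positions. -/
structure Good (G : Game) (m : ℕ) (Z : ℕ → Prop) (s : Tm) : Prop where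
  ovr : Over (trs G).sig s
  nobul : ¬ HasBul s
  soft : SoftS G s
  head : ∃ us, s = .fn (5 + m) us
  kill : ∀ D e, IsRedex (trs G) D → OneHole D s e → ∃ b < G.n, Z b ∧ ∃ X, ∀ E : ℕ → Prop,
    (∀ i < G.n, E i → Z i) → E b → ∃ u, ReflTransGen (Step (trs G)) e u ∧ IsX G X m E u

open Classical in
theorem exists_good {m0 : ℕ} (hm0 : m0 ∈ G.next0) {m : ℕ} {Z : ℕ → Prop} (h : G.Win m Z) :
    ∃ s, Good G m Z s := by
  have hsig := sigm h
  have hne := h.nonempty
  induction h with
  | @leaf m Z hm hJ hZ =>
    set ts := cols G.n (G.J m) (fun _ => kk) (fun _ => c 0) with hts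
    have hlen : ts.length = G.n + G.J m := length_cols _ _ _ _
    refine ⟨.fn (5 + m) ts, ?_, ?_, ?_, ⟨_, rfl⟩, ?_⟩
    · exact over_cols hsig (fun _ _ => over_kk) (fun _ _ => over_c.2 sig0)
    · exact not_hasBul_cols (fun _ _ => not_hasBul_kk) (fun _ _ => not_hasBul_c _)
    · refine softS_of_reach (s' := .fn (5 + m) ((List.range G.n).map (fun _ => c 1))) ?_ ?_
      · have : (List.range G.n).map (fun _ => c 1) =
            cols G.n (G.J m) (fun _ => c 1) (fun _ => c 0) := by simp [cols, hJ]
        rw [this]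
        refine RS.congr_args _ (rls_cols hlen (fun i hi => ?_) (fun j hj => by omega))
        rw [hts, gt_cols_left hi]
        exact softS_kk _ (over_c.2 sig1)
      · exact softS_of_redex (redex_iff.2 (Or.inr (Or.inr (Or.inr (Or.inl ⟨m, hm, hJ, rfl⟩)))))
    · intro D e hD he
      rcases oneHole_fn he with ⟨rfl, _⟩ | ⟨i, hi, a, ha, rfl⟩
      · exfalso
        have h0 : gt ts 0 = kk := by rw [hts, gt_cols_left G.n_pos]
        rw [redex_iff] at hD
        rcases hD with h | ⟨v, h⟩ | ⟨X, m, hm, v, h, _⟩ | ⟨m', hm', hJ', h⟩ |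
          ⟨m', hm', j, hj, b, hb, X, m'', hm'', us, h, hus⟩
        · have h := (Tm.fn_inj h).1; omega
        · have h := (Tm.fn_inj h).1; omega
        · have h := (Tm.fn_inj h).1; omega
        · obtain ⟨h1, h2⟩ := Tm.fn_inj h
          rw [h2] at h0
          have := G.n_pos
          simp [gt, this, c, kk] at h0
        · obtain ⟨h1, h2⟩ := Tm.fn_inj h
          have h3 := hus.2.1 0 G.n_pos
          rw [← h2, h0] at h3
          split at h3
          · cases X <;> simp [cX, c, kk] at h3
          · simp [c, kk] at h3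
      · have hin : i < G.n := by omega
        rw [hts, gt_cols_left hin] at ha
        obtain ⟨X, u, hu, hX⟩ := oneHole_kk hD ha
        refine ⟨i, hin, hZ i hin, X, fun E hE hEi => ?_⟩
        refine ⟨.fn (5 + m) (cols G.n (G.J m) (fun i' => if i' = i then u else
          if E i' then pp else c 0) (fun _ => c 0)), ?_, ?_⟩
        · refine RS.congr_args _ (rls_cols (by simpa using hlen) (fun i' hi' => ?_)
            (fun j hj => by omega))
          by_cases hii : i' = i
          · subst hii
            rw [gt_set_self hi, if_pos rfl]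
            exact hu
          · rw [gt_set_ne hii, if_neg hii, hts, gt_cols_left hi']
            apply softS_kk
            split
            · exact over_pp
            · exact over_c.2 sig0
        · refine ⟨_, rfl, length_cols _ _ _ _, fun i' hi' => ?_, fun j hj => gt_cols_right hj⟩
          rw [gt_cols_left hi']
          by_cases hii : i' = i
          · subst hii
            simp [hX, hEi]
          · simp only [hii, if_false]
            refine ⟨fun h => ?_, fun h => ?_⟩
            · rw [if_pos h]; exact patP_pp X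
            · rw [if_neg h]
  | @node m Z hm hJ f hf h ih =>
    have ih' : ∀ j, ∃ s, j < G.J m → Good G (f j) (G.image (G.br m j).1 Z) s := by
      intro j
      by_cases hj : j < G.J m
      · obtain ⟨s, hs⟩ := ih j hj (sigm (h j hj)) (h j hj).nonempty
        exact ⟨s, fun _ => hs⟩
      · exact ⟨.bul, fun h => absurd h hj⟩
    choose s hs using ih'
    set ts := cols G.n (G.J m) (fun i => if Z i then kk else c 0) s with hts
    have hlen : ts.length = G.n + G.J m := length_cols _ _ _ _
    -- reaching a redex through branch `j` when its argument reaches a killer instance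
    have key : ∀ (ts' : List Tm) (j b0 : ℕ) (X : Bool) (u : Tm), j < G.J m → b0 < G.n → Z b0 →
        ts'.length = G.n + G.J m → (∀ i < G.n, gt ts' i = gt ts i) →
        (∀ j' < G.J m, j' ≠ j → gt ts' (G.n + j') = gt ts (G.n + j')) →
        ReflTransGen (Step (trs G)) (gt ts' (G.n + j)) u →
        IsX G X (f j) (fun b' => (b0, b') ∈ (G.br m j).1) u → SoftS G (.fn (5 + m) ts') := by
      intro ts' j b0 X u hj hb0 hZ0 hl h1 h2 h3 h4
      refine softS_of_reach (s' := .fn (5 + m) (cols G.n (G.J m)
        (fun i => if i = b0 then cX X else c 0) (fun j' => if j' = j then u else c 1))) ?_ ?_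
      · refine RS.congr_args _ (rls_cols hl (fun i hi => ?_) (fun j' hj' => ?_))
        · rw [h1 i hi, hts, gt_cols_left hi]
          by_cases hZi : Z i
          · rw [if_pos hZi]
            apply softS_kk
            split
            · exact over_cX hm0 X
            · exact over_c.2 sig0
          · rw [if_neg hZi, if_neg (by rintro rfl; exact hZi hZ0)]
        · by_cases hjj : j' = j
          · subst hjj
            rw [if_pos rfl]
            exact h3
          · rw [h2 j' hj' hjj, if_neg hjj, hts, gt_cols_right hj']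
            exact (hs j' hj').soft _ (over_c.2 sig1)
      · apply softS_of_redex
        rw [redex_iff]
        right; right; right; right
        refine ⟨m, hm, j, hj, b0, hb0, X, f j, hf j hj, _, rfl, length_cols _ _ _ _,
          fun i hi => gt_cols_left hi, fun j' hj' hjj => ?_, ?_⟩
        · rw [gt_cols_right hj', if_neg hjj]
        · rw [gt_cols_right hj, if_pos rfl]
          exact h4
    refine ⟨.fn (5 + m) ts, ?_, ?_, ?_, ⟨_, rfl⟩, ?_⟩
    · refine over_cols hsig (fun i _ => ?_) (fun j hj => (hs j hj).ovr)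
      split
      · exact over_kk
      · exact over_c.2 sig0
    · refine not_hasBul_cols (fun i _ => ?_) (fun j hj => (hs j hj).nobul)
      split
      · exact not_hasBul_kk
      · exact not_hasBul_c _
    · obtain ⟨b', _, b0, ⟨hb0, hZ0⟩, _⟩ := (h 0 hJ).nonempty
      refine key ts 0 b0 false (xinst G (f 0) (fun b' => (b0, b') ∈ (G.br m 0).1)) hJ hb0 hZ0 hlen
        (fun _ _ => rfl) (fun _ _ _ => rfl) ?_ (isX_xinst _ _ _)
      rw [hts, gt_cols_right hJ]
      exact (hs 0 hJ).soft _ (over_xinst (sigm (h 0 hJ)) _)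
    · intro D e hD he
      rcases oneHole_fn he with ⟨rfl, _⟩ | ⟨i, hi, a, ha, rfl⟩
      · exfalso
        obtain ⟨b, hb, hZb⟩ := hne
        have h0 : gt ts b = kk := by rw [hts, gt_cols_left hb, if_pos hZb]
        rw [redex_iff] at hD
        rcases hD with h | ⟨v, h⟩ | ⟨X, m, hm, v, h, _⟩ | ⟨m', hm', hJ', h⟩ |
          ⟨m', hm', j, hj, b1, hb1, X, m'', hm'', us, h, hus⟩
        · have h := (Tm.fn_inj h).1; omega
        · have h := (Tm.fn_inj h).1; omega
        · have h := (Tm.fn_inj h).1; omega
        · obtain ⟨h1, h2⟩ := Tm.fn_inj h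
          have : m = m' := by omega
          subst this
          omega
        · obtain ⟨h1, h2⟩ := Tm.fn_inj h
          have h3 := hus.2.1 b hb
          rw [← h2, h0] at h3
          split at h3
          · cases X <;> simp [cX, c, kk] at h3
          · simp [c, kk] at h3
      · by_cases hin : i < G.n
        · rw [hts, gt_cols_left hin] at ha
          by_cases hZi : Z i
          · rw [if_pos hZi] at ha
            obtain ⟨X, u, hu, hX⟩ := oneHole_kk hD ha
            refine ⟨i, hin, hZi, X, fun E hE hEi => ?_⟩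
            refine ⟨.fn (5 + m) (cols G.n (G.J m) (fun i' => if i' = i then u else
              if E i' then pp else c 0) (fun _ => c 0)), ?_, ?_⟩
            · refine RS.congr_args _ (rls_cols (by simpa using hlen) (fun i' hi' => ?_)
                (fun j hj => ?_))
              · by_cases hii : i' = i
                · subst hii
                  rw [gt_set_self hi, if_pos rfl]
                  exact hu
                · rw [gt_set_ne hii, if_neg hii, hts, gt_cols_left hi']
                  by_cases hZi' : Z i'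
                  · rw [if_pos hZi']
                    apply softS_kk
                    split
                    · exact over_pp
                    · exact over_c.2 sig0
                  · rw [if_neg hZi', if_neg (fun hE' => hZi' (hE i' hi' hE'))]
              · rw [gt_set_ne (by omega), hts, gt_cols_right hj]
                exact (hs j hj).soft _ (over_c.2 sig0)
            · refine ⟨_, rfl, length_cols _ _ _ _, fun i' hi' => ?_, fun j hj => gt_cols_right hj⟩
              rw [gt_cols_left hi']
              by_cases hii : i' = i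
              · subst hii
                simp [hX, hEi]
              · simp only [hii, if_false]
                refine ⟨fun h => ?_, fun h => ?_⟩
                · rw [if_pos h]; exact patP_pp X
                · rw [if_neg h]
          · rw [if_neg hZi] at ha
            exact (no_oneHole_c hD ha).elim
        · obtain ⟨j, rfl⟩ : ∃ j, i = G.n + j := ⟨i - G.n, by omega⟩
          have hj : j < G.J m := by omega
          rw [hts, gt_cols_right hj] at ha
          obtain ⟨b', hb', ⟨b0, ⟨hb0, hZ0⟩, hbb⟩, X, hX⟩ := (hs j hj).kill D a hD ha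
          obtain ⟨u, hu, hu'⟩ := hX (fun b'' => (b0, b'') ∈ (G.br m j).1)
            (fun i _ h => ⟨b0, ⟨hb0, hZ0⟩, h⟩) hbb
          refine ⟨b0, hb0, hZ0, X, fun E hE hE0 => ⟨xinst G m E, ?_, isX_xinst _ _ _⟩⟩
          refine key _ j b0 X u hj hb0 hZ0 (by simpa using hlen) (fun i hi' => gt_set_ne (by omega) _)
            (fun j' hj' hjj => gt_set_ne (by omega) _) ?_ hu' _ (over_xinst hsig _)
          rw [gt_set_self hi]
          exact hu

theorem nf_c (k : ℕ) : NF (trs G) (c k) := by
  intro D h
  rcases subterm_fn h with rfl | ⟨a, ha, _⟩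
  · exact not_redex_c k
  · simp at ha

/-- If the game is accepting then the system is not strongly sequential. -/
theorem not_stronglySequential_of_acc (h : G.Acc) : ¬ StronglySequential (trs G) := by
  obtain ⟨m, hm, hw⟩ := h
  obtain ⟨s, hs⟩ := exists_good hm hw
  intro hss
  have hov : Over (trs G).sig (.fn 4 [dd, s]) := by
    rw [over_fn]
    refine ⟨sig4, fun a ha => ?_⟩
    simp at ha
    rcases ha with rfl | rfl
    · exact over_dd
    · exact hs.ovr
  have hnb : ¬ HasBul (.fn 4 [dd, s]) := by
    rw [hasBul_fn]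
    rintro ⟨a, ha, h⟩
    simp at ha
    rcases ha with rfl | rfl
    · exact not_hasBul_dd h
    · exact hs.nobul h
  have hnf : ¬ NF (trs G) (.fn 4 [dd, s]) := fun h =>
    h dd (Subterm.arg (by simp) (Subterm.refl _)) redex_dd
  obtain ⟨D, e, hD, he, hn⟩ := hss (.fn 4 [dd, s]) hov hnb hnf
  have hreach : ReflTransGen (Step (trs G)) e (c 0) := by
    rcases oneHole_fn he with ⟨rfl, _⟩ | ⟨i, hi, a, ha, rfl⟩
    · exfalso
      obtain ⟨us, hus⟩ := hs.head
      rw [redex_iff] at hD
      rcases hD with h | ⟨v, h⟩ | ⟨X, m, hm, v, h, _⟩ | ⟨m', hm', hJ', h⟩ |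
        ⟨m', hm', j, hj, b1, hb1, X, m'', hm'', us, h, hus⟩
      · have h := (Tm.fn_inj h).1; omega
      · obtain ⟨h1, h2⟩ := Tm.fn_inj h
        injection h2 with h2 h3
        injection h3 with h3 h4
        rw [hus, c] at h3
        have h3 := (Tm.fn_inj h3).1
        omega
      · obtain ⟨h1, h2⟩ := Tm.fn_inj h
        injection h2 with h2 h3
        cases X <;> simp [dd, cX, c] at h2
      · obtain ⟨h1, h2⟩ := Tm.fn_inj h
        omega
      · obtain ⟨h1, h2⟩ := Tm.fn_inj h
        omega
    · match i, hi with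
      | 0, _ =>
        have h1 : ReflTransGen (Step (trs G)) (.fn 4 [a, s]) (.fn 4 [a, c 1]) :=
          RS.congr_args 4 (rls_pair ReflTransGen.refl (hs.soft _ (over_c.2 sig1)))
        exact h1.trans (softS_of_redex (redex_iff.2 (Or.inr (Or.inl ⟨a, rfl⟩))) _ (over_c.2 sig0))
      | 1, _ =>
        obtain ⟨b, hb, hZ, X, hX⟩ := hs.kill D a hD ha
        obtain ⟨u, hu, hu'⟩ := hX (fun b => b ∈ G.Z0) (fun _ _ h => h) hZ
        have h1 : ReflTransGen (Step (trs G)) (.fn 4 [dd, a]) (.fn 4 [cX X, u]) :=
          RS.congr_args 4 (rls_pair (softS_of_redex redex_dd _ (over_cX hm X)) hu)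
        exact h1.trans (softS_of_redex (redex_iff.2 (Or.inr (Or.inr (Or.inl
          ⟨X, m, hm, u, rfl, hu'⟩)))) _ (over_c.2 sig0))
  exact not_hasBul_c 0 (hn _ hreach (nf_c 0))

end Pool.Agent.H820R2.SS
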