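import Pool.Agent.H820R2.SS.Sound

/-!
# The rewriting system of a game is orthogonal
-/

namespace Pool.Agent.H820R2.SS

open Relation

variable {G : Game}

theorem mem_lhss {l : Tm} : l ∈ lhss G ↔
    l = .fn 3 [c 1, c 1] ∨ l = .fn 4 [.var 0, c 1] ∨
    (∃ X, ∃ m ∈ G.next0, l = .fn 4 [cX X, xrow G X m G.Z0]) ∨
    (∃ m < G.M, G.J m = 0 ∧ l = lrow G m) ∨
    (∃ m < G.M, ∃ j < G.J m, ∃ b < G.n, ∃ X, ∃ m' ∈ (G.br m j).2, l = yrow G m j b X m') := by
  rw [lhss, List.mem_cons, List.mem_cons, List.mem_append, List.mem_flatMap, List.mem_flatMap]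
  constructor
  · rintro (h | h | ⟨X, _, hl⟩ | ⟨m, hm, hl⟩)
    · exact Or.inl h
    · exact Or.inr (Or.inl h)
    · rw [List.mem_map] at hl
      obtain ⟨m, hm, rfl⟩ := hl
      exact Or.inr (Or.inr (Or.inl ⟨X, m, hm, rfl⟩))
    · rw [List.mem_range] at hm
      unfold mrules at hl
      split at hl
      · rename_i hJ
        rw [List.mem_singleton] at hl
        exact Or.inr (Or.inr (Or.inr (Or.inl ⟨m, hm, hJ, hl⟩)))
      · rw [List.mem_flatMap] at hl
        obtain ⟨j, hj, hl⟩ := hl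
        rw [List.mem_flatMap] at hl
        obtain ⟨b, hb, hl⟩ := hl
        rw [List.mem_flatMap] at hl
        obtain ⟨X, _, hl⟩ := hl
        rw [List.mem_map] at hl
        obtain ⟨m', hm', rfl⟩ := hl
        rw [List.mem_range] at hj hb
        exact Or.inr (Or.inr (Or.inr (Or.inr ⟨m, hm, j, hj, b, hb, X, m', hm', rfl⟩)))
  · rintro (h | h | ⟨X, m, hm, rfl⟩ | ⟨m, hm, hJ, rfl⟩ | ⟨m, hm, j, hj, b, hb, X, m', hm', rfl⟩)
    · exact Or.inl h
    · exact Or.inr (Or.inl h)
    · exact Or.inr (Or.inr (Or.inl ⟨X, by cases X <;> simp, List.mem_map_of_mem hm⟩))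
    · exact Or.inr (Or.inr (Or.inr ⟨m, List.mem_range.2 hm, by simp [mrules, hJ]⟩))
    · refine Or.inr (Or.inr (Or.inr ⟨m, List.mem_range.2 hm, ?_⟩))
      rw [mrules, if_neg (by omega), List.mem_flatMap]
      refine ⟨j, List.mem_range.2 hj, ?_⟩
      rw [List.mem_flatMap]
      refine ⟨b, List.mem_range.2 hb, ?_⟩
      rw [List.mem_flatMap]
      exact ⟨X, by cases X <;> simp, List.mem_map_of_mem hm'⟩

theorem not_hasBul_cX (X : Bool) : ¬ HasBul (cX X) := by
  cases X <;> exact not_hasBul_c _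

theorem not_hasBul_xrow (X : Bool) (m : ℕ) (E : List ℕ) : ¬ HasBul (xrow G X m E) := by
  refine not_hasBul_cols (fun i _ => ?_) (fun j _ => not_hasBul_c _)
  split
  · cases X <;> simp [pat, hasBul_fn, not_hasBul_var, not_hasBul_c]
  · exact not_hasBul_c _

theorem not_hasBul_lhs {l : Tm} (h : l ∈ lhss G) : ¬ HasBul l := by
  rw [mem_lhss] at h
  rcases h with rfl | rfl | ⟨X, m, hm, rfl⟩ | ⟨m, hm, hJ, rfl⟩ |
    ⟨m, hm, j, hj, b, hb, X, m', hm', rfl⟩
  · simp [hasBul_fn, not_hasBul_c]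
  · simp [hasBul_fn, not_hasBul_c, not_hasBul_var]
  · simp [hasBul_fn, not_hasBul_xrow, not_hasBul_cX]
  · rw [lrow, hasBul_fn]
    rintro ⟨a, ha, hb⟩
    rw [List.mem_map] at ha
    obtain ⟨_, _, rfl⟩ := ha
    exact not_hasBul_c _ hb
  · refine not_hasBul_cols (fun i _ => ?_) (fun j _ => ?_)
    · split
      · exact not_hasBul_cX _
      · exact not_hasBul_c _
    · split
      · exact not_hasBul_xrow _ _ _
      · exact not_hasBul_c _

theorem vars_c (k : ℕ) : (c k).vars = [] := by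
  rw [c, vars_fn]
  rfl

theorem vars_cX (X : Bool) : (cX X).vars = [] := by
  cases X <;> exact vars_c _

theorem vars_pat (X : Bool) (b : ℕ) : (pat X b).vars = [b] := by
  cases X <;> simp [pat, vars_fn, vars_c, vars_var]

theorem vars_cols (f n J : ℕ) (p q : ℕ → Tm) : (Tm.fn f (cols n J p q)).vars =
    (List.range n).flatMap (fun i => (p i).vars) ++ (List.range J).flatMap (fun j => (q j).vars) := by
  rw [vars_fn, cols, List.flatMap_append, List.flatMap_map, List.flatMap_map]

theorem nodup_vars_xrow (X : Bool) (m : ℕ) (E : List ℕ) : (xrow G X m E).vars.Nodup := by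
  rw [xrow, vars_cols]
  have h1 : (List.range (G.J m)).flatMap (fun _ => (c 0).vars) = [] := by
    simp [vars_c]
  have h2 : (List.range G.n).flatMap (fun i => (if i ∈ E then pat X i else c 0).vars) =
      (List.range G.n).filter (fun i => i ∈ E) := by
    generalize List.range G.n = L
    induction L with
    | nil => rfl
    | cons a L ih =>
      rw [List.flatMap_cons, ih, List.filter_cons]
      by_cases h : a ∈ E <;> simp [h, vars_pat, vars_c]
  rw [h1, h2, List.append_nil]
  exact List.Nodup.filter _ List.nodup_range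

theorem leftLinear_lhs {l : Tm} (h : l ∈ lhss G) : l.vars.Nodup := by
  rw [mem_lhss] at h
  rcases h with rfl | rfl | ⟨X, m, hm, rfl⟩ | ⟨m, hm, hJ, rfl⟩ |
    ⟨m, hm, j, hj, b, hb, X, m', hm', rfl⟩
  · simp [vars_fn, vars_c]
  · simp [vars_fn, vars_c, vars_var]
  · rw [vars_fn]
    simp only [List.flatMap_cons, List.flatMap_nil, vars_cX, List.nil_append, List.append_nil]
    exact nodup_vars_xrow _ _ _
  · rw [lrow, vars_fn]
    have : ((List.range G.n).map (fun _ => c 1)).flatMap Tm.vars = [] := by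
      simp [vars_c]
    rw [this]
    exact List.nodup_nil
  · rw [yrow, vars_cols]
    have h1 : (List.range G.n).flatMap (fun i => (if i = b then cX X else c 0).vars) = [] := by
      rw [List.flatMap_eq_nil_iff]
      intro i _
      split
      · exact vars_cX X
      · exact vars_c 0
    rw [h1, List.nil_append, List.nodup_flatMap]
    constructor
    · intro j' _
      split
      · exact nodup_vars_xrow _ _ _
      · rw [vars_c]; exact List.nodup_nil
    · apply List.Pairwise.imp_of_mem (R := fun a b => a ≠ b) _ List.nodup_range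
      intro x y _ _ hxy
      simp only [Function.onFun]
      by_cases hx : x = j
      · rw [if_neg (fun hy => hxy (hx.trans hy.symm) : ¬ y = j), vars_c]
        simp
      · rw [if_neg hx, vars_c]
        simp

theorem isX_not_redex {X : Bool} {m : ℕ} {D : ℕ → Prop} {u : Tm} (h : IsX G X m D u) :
    ¬ IsRedex (trs G) u := fun hr =>
  isX_ru h (ReflTransGen.single (StepU.root hr (c 0))) ⟨0, rfl⟩

theorem patP_not_redex {X : Bool} {u : Tm} (h : PatP X u) : ¬ IsRedex (trs G) u := fun hr =>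
  patP_ru h (ReflTransGen.single (StepU.root hr (c 0))) ⟨0, rfl⟩

/-- No instance of a non-variable subterm is a redex. -/
def Inert (G : Game) (a : Tm) : Prop :=
  ∀ f ts, Subterm (.fn f ts) a → ∀ σ, ¬ IsRedex (trs G) ((Tm.fn f ts).subst σ)

theorem inert_fn {f : ℕ} {ts : List Tm} (h1 : ∀ a ∈ ts, Inert G a)
    (h2 : ∀ σ, ¬ IsRedex (trs G) ((Tm.fn f ts).subst σ)) : Inert G (.fn f ts) := by
  intro g us h
  rcases subterm_fn h with h | ⟨a, ha, h⟩
  · obtain ⟨rfl, rfl⟩ := Tm.fn_inj h
    exact h2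
  · exact h1 _ ha g us h

theorem inert_c (k : ℕ) : Inert G (c k) := by
  rw [c]
  refine inert_fn (fun a ha => by simp at ha) (fun σ => ?_)
  rw [subst_fn]
  exact not_redex_c k

theorem inert_cX (X : Bool) : Inert G (cX X) := by
  cases X <;> exact inert_c _

theorem inert_var (x : ℕ) : Inert G (.var x) := by
  intro f ts h
  cases h

theorem inert_pat (X : Bool) (b : ℕ) : Inert G (pat X b) := by
  have h : ∀ σ, ¬ IsRedex (trs G) ((pat X b).subst σ) := by
    intro σ
    rw [pat_subst]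
    exact patP_not_redex ⟨σ b, rfl⟩
  cases X
  · simp only [pat, Bool.false_eq_true, if_false] at h ⊢
    refine inert_fn (fun a ha => ?_) h
    simp at ha
    rcases ha with rfl | rfl
    · exact inert_var b
    · exact inert_c 0
  · simp only [pat, if_true] at h ⊢
    refine inert_fn (fun a ha => ?_) h
    simp at ha
    rcases ha with rfl | rfl
    · exact inert_c 0
    · exact inert_var b

theorem mem_cols {n J : ℕ} {p q : ℕ → Tm} {a : Tm} (h : a ∈ cols n J p q) :
    (∃ i < n, a = p i) ∨ ∃ j < J, a = q j := by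
  rw [cols, List.mem_append, List.mem_map, List.mem_map] at h
  rcases h with ⟨i, hi, rfl⟩ | ⟨j, hj, rfl⟩
  · exact Or.inl ⟨i, List.mem_range.1 hi, rfl⟩
  · exact Or.inr ⟨j, List.mem_range.1 hj, rfl⟩

theorem inert_xrow (X : Bool) (m : ℕ) (E : List ℕ) : Inert G (xrow G X m E) := by
  have h : ∀ σ, ¬ IsRedex (trs G) ((xrow G X m E).subst σ) := fun σ => isX_not_redex isX_of_subst
  rw [xrow] at h ⊢
  refine inert_fn (fun a ha => ?_) h
  rcases mem_cols ha with ⟨i, _, rfl⟩ | ⟨j, _, rfl⟩
  · split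
    · exact inert_pat _ _
    · exact inert_c _
  · exact inert_c _

theorem inert_arg {g : ℕ} {us : List Tm} (h : Tm.fn g us ∈ lhss G) {a : Tm} (ha : a ∈ us) :
    Inert G a := by
  rw [mem_lhss] at h
  rcases h with h | h | ⟨X, m, hm, h⟩ | ⟨m, hm, hJ, h⟩ | ⟨m, hm, j, hj, b, hb, X, m', hm', h⟩
  · have h := (Tm.fn_inj h).2
    subst h
    simp at ha
    subst ha
    exact inert_c _
  · have h := (Tm.fn_inj h).2
    subst h
    simp at ha
    rcases ha with rfl | rfl
    · exact inert_var _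
    · exact inert_c _
  · have h := (Tm.fn_inj h).2
    subst h
    simp at ha
    rcases ha with rfl | rfl
    · exact inert_cX _
    · exact inert_xrow _ _ _
  · have h := (Tm.fn_inj h).2
    subst h
    rw [List.mem_map] at ha
    obtain ⟨_, _, rfl⟩ := ha
    exact inert_c _
  · have h := (Tm.fn_inj h).2
    subst h
    rcases mem_cols ha with ⟨i, _, rfl⟩ | ⟨j, _, rfl⟩
    · split
      · exact inert_cX _
      · exact inert_c _
    · split
      · exact inert_xrow _ _ _
      · exact inert_c _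

theorem subst_xrow_ne_c {X : Bool} {m : ℕ} {E : List ℕ} {σ : ℕ → Tm} {k : ℕ} :
    (xrow G X m E).subst σ ≠ c k := by
  intro h
  exact not_isX_c (G := G) ⟨k, h⟩ (isX_of_subst (X := X) (m := m) (D := E) (σ := σ))

theorem ymatch_unique {m j b : ℕ} {X : Bool} {m1 j' b' : ℕ} {X' : Bool} {m1' : ℕ} {us : List Tm}
    (hj : j < G.J m) (hj' : j' < G.J m) (hb : b < G.n)
    (h : YMatch G m j b X m1 us) (h' : YMatch G m j' b' X' m1' us) :
    j = j' ∧ b = b' ∧ X = X' ∧ m1 = m1' := by
  have h1 := h.2.1 b hb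
  rw [if_pos rfl, h'.2.1 b hb] at h1
  split at h1
  · rename_i hbb
    have hX := cX_inj h1
    by_cases hjj : j = j'
    · subst hjj
      obtain ⟨vs, h2, _⟩ := h.2.2.2
      obtain ⟨vs', h3, _⟩ := h'.2.2.2
      rw [h2] at h3
      have h3 := (Tm.fn_inj h3).1
      exact ⟨rfl, hbb, hX.symm, by omega⟩
    · exfalso
      have h2 := h'.2.2.1 j hj hjj
      exact not_isX_c ⟨1, h2⟩ h.2.2.2
  · exact absurd h1.symm (cX_ne X)

/-- The left-hand sides are pairwise non-unifiable at the root. -/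
theorem root_unique {l l' : Tm} (hl : l ∈ lhss G) (hl' : l' ∈ lhss G) {σ τ : ℕ → Tm}
    (h : l.subst σ = l'.subst τ) : l = l' := by
  rw [mem_lhss] at hl hl'
  rcases hl with rfl | rfl | ⟨X, m, hm, rfl⟩ | ⟨m, hm, hJ, rfl⟩ |
    ⟨m, hm, j, hj, b, hb, X, m1, hm1, rfl⟩ <;>
  rcases hl' with rfl | rfl | ⟨X', m', hm', rfl⟩ | ⟨m', hm', hJ', rfl⟩ |
    ⟨m', hm', j', hj', b', hb', X', m1', hm1', rfl⟩
  · rfl
  · rw [subst_fn, subst_fn] at h; have h := (Tm.fn_inj h).1; omega
  · rw [subst_fn, subst_fn] at h; have h := (Tm.fn_inj h).1; omega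
  · rw [lrow, subst_fn, subst_fn] at h; have h := (Tm.fn_inj h).1; omega
  · rw [yrow, subst_fn, subst_fn] at h; have h := (Tm.fn_inj h).1; omega
  · rw [subst_fn, subst_fn] at h; have h := (Tm.fn_inj h).1; omega
  · rfl
  · rw [subst_fn, subst_fn] at h
    simp only [List.map_cons, List.map_nil, subst_c] at h
    have h := (Tm.fn_inj h).2
    injection h with _ h
    injection h with h _
    exact absurd h.symm subst_xrow_ne_c
  · rw [lrow, subst_fn, subst_fn] at h; have h := (Tm.fn_inj h).1; omega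
  · rw [yrow, subst_fn, subst_fn] at h; have h := (Tm.fn_inj h).1; omega
  · rw [subst_fn, subst_fn] at h; have h := (Tm.fn_inj h).1; omega
  · rw [subst_fn, subst_fn] at h
    simp only [List.map_cons, List.map_nil, subst_c] at h
    have h := (Tm.fn_inj h).2
    injection h with _ h
    injection h with h _
    exact absurd h subst_xrow_ne_c
  · rw [subst_fn, subst_fn] at h
    simp only [List.map_cons, List.map_nil, subst_cX] at h
    have h := (Tm.fn_inj h).2
    injection h with h1 h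
    injection h with h2 _
    have h3 := cX_inj h1
    subst h3
    rw [xrow, xrow, subst_fn, subst_fn] at h2
    have h2 := (Tm.fn_inj h2).1
    obtain rfl : m = m' := by omega
    rfl
  · rw [lrow, subst_fn, subst_fn] at h; have h := (Tm.fn_inj h).1; omega
  · rw [yrow, subst_fn, subst_fn] at h; have h := (Tm.fn_inj h).1; omega
  · rw [lrow, subst_fn, subst_fn] at h; have h := (Tm.fn_inj h).1; omega
  · rw [lrow, subst_fn, subst_fn] at h; have h := (Tm.fn_inj h).1; omega
  · rw [lrow, subst_fn, subst_fn] at h; have h := (Tm.fn_inj h).1; omega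
  · rw [lrow, lrow, subst_fn, subst_fn] at h
    have h := (Tm.fn_inj h).1
    obtain rfl : m = m' := by omega
    rfl
  · rw [lrow, yrow, subst_fn, subst_fn] at h
    have h := (Tm.fn_inj h).1
    obtain rfl : m = m' := by omega
    omega
  · rw [yrow, subst_fn, subst_fn] at h; have h := (Tm.fn_inj h).1; omega
  · rw [yrow, subst_fn, subst_fn] at h; have h := (Tm.fn_inj h).1; omega
  · rw [yrow, subst_fn, subst_fn] at h; have h := (Tm.fn_inj h).1; omega
  · rw [lrow, yrow, subst_fn, subst_fn] at h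
    have h := (Tm.fn_inj h).1
    obtain rfl : m = m' := by omega
    omega
  · obtain ⟨us, h1, h2⟩ := (yrow_match hj).1 ⟨σ, rfl⟩
    obtain ⟨us', h3, h4⟩ := (yrow_match hj').1 ⟨τ, rfl⟩
    rw [h1, h3] at h
    obtain ⟨h5, h6⟩ := Tm.fn_inj h
    obtain rfl : m = m' := by omega
    subst h6
    obtain ⟨rfl, rfl, rfl, rfl⟩ := ymatch_unique hj hj' hb h2 h4
    rfl

theorem orthogonal_trs (G : Game) : Orthogonal (trs G) := by
  refine ⟨fun ρ hρ => ?_, ?_, ?_⟩
  · obtain ⟨l, hl, rfl⟩ := List.mem_map.1 hρ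
    refine ⟨⟨not_hasBul_lhs hl, not_hasBul_c 0, fun x hx => ?_, fun x hx => ?_⟩,
      leftLinear_lhs hl⟩
    · simp only at hx
      subst hx
      rw [mem_lhss] at hl
      rcases hl with h | h | ⟨X, m, hm, h⟩ | ⟨m, hm, hJ, h⟩ |
        ⟨m, hm, j, hj, b, hb, X, m1, hm1, h⟩ <;> cases h
    · simp only [vars_c] at hx
      simp at hx
  · intro ρ₁ h₁ ρ₂ h₂ hne σ τ h
    obtain ⟨l, hl, rfl⟩ := List.mem_map.1 h₁
    obtain ⟨l', hl', rfl⟩ := List.mem_map.1 h₂
    apply hne
    rw [root_unique hl hl' h]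
  · intro ρ₁ h₁ ρ₂ h₂ g us hg a ha f ts hs σ τ h
    obtain ⟨l, hl, rfl⟩ := List.mem_map.1 h₁
    simp only at hg
    subst hg
    exact inert_arg hl ha f ts hs σ ⟨ρ₂, h₂, τ, h⟩

end Pool.Agent.H820R2.SS
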