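import Pool.Agent.H820R2.SS.Sound2
import Pool.Agent.H820R2.SS.Orth
import Pool.Agent.H820R2.SS.ARMGame
import Pool.Agent.H820R2.SS.Enc

/-!
# From alternating register machines to orthogonal rewriting systems
-/

namespace Pool.Agent.H820R2.SS

open Pool.Agent.NPC

/-- The rewriting system of an alternating register machine. -/
def toTRS (M : ARM) : TRS := trs (ofARM M)

theorem orthogonal_toTRS (M : ARM) : Orthogonal (toTRS M) := orthogonal_trs _

theorem ssOrth_toTRS {M : ARM} (hM : ARMPr M) : SSOrth (toTRS M) ↔ ¬ ARMAcc M := by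
  rw [ofARM_correct hM, acc_iff, not_not]
  exact ⟨fun h => h.2, fun h => ⟨orthogonal_toTRS M, h⟩⟩

end Pool.Agent.H820R2.SS
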