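import Pool.Agent.H820R2.SS.Enc
import Pool.Agent.H671R2.PolyAuto
import Pool.Agent.NPC.Dec

/-!
# Codes of terms can be recognised in polynomial time
-/

namespace Pool.Agent.H820R2.SS

open Pool.Agent.NPC

/-- Local form of codes of terms. -/
def okT : T → Bool
  | T.nil => true
  | T.node T.nil r => (TDec.dec r : Option ℕ).isSome
  | T.node (T.node T.nil T.nil) (T.node f _) => (TDec.dec f : Option ℕ).isSome
  | _ => false

/-- The codes of the arguments. -/
def chT : T → List T
  | T.node (T.node _ _) (T.node _ ts) => ts.toList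
  | _ => []

/-- Trees that code terms. -/
inductive VT : T → Prop
  | mk (t : T) (h1 : okT t = true) (h2 : ∀ c ∈ chT t, VT c) : VT t

theorem vt_iff {t : T} : VT t ↔ okT t = true ∧ ∀ c ∈ chT t, VT c :=
  ⟨fun h => by cases h with | mk _ h1 h2 => exact ⟨h1, h2⟩, fun h => VT.mk t h.1 h.2⟩

theorem toT_bul : toT Tm.bul = T.nil := Tm.code_bul

theorem vt_iff_code {t : T} : VT t ↔ ∃ a : Tm, toT a = t := by
  constructor
  · intro h
    induction h with
    | mk t h1 h2 ih =>
      match t, h1, h2, ih with
      | T.nil, _, _, _ => exact ⟨.bul, toT_bul⟩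
      | T.node T.nil r, h1, _, _ =>
        rw [okT, Option.isSome_iff_exists] at h1
        obtain ⟨x, hx⟩ := h1
        refine ⟨.var x, ?_⟩
        rw [toT_tmVar, ← TDec.toT_dec _ _ hx]
        rfl
      | T.node (T.node T.nil T.nil) (T.node f ts), h1, _, ih =>
        rw [okT, Option.isSome_iff_exists] at h1
        obtain ⟨x, hx⟩ := h1
        have h3 : ∀ l : List T, (∀ c ∈ l, ∃ a : Tm, toT a = c) → ∃ as : List Tm, as.map toT = l := by
          intro l
          induction l with
          | nil => exact fun _ => ⟨[], rfl⟩
          | cons c l ihl =>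
            intro h
            obtain ⟨a, ha⟩ := h c (by simp)
            obtain ⟨as, has⟩ := ihl (fun d hd => h d (by simp [hd]))
            exact ⟨a :: as, by rw [List.map_cons, ha, has]⟩
        obtain ⟨as, has⟩ := h3 ts.toList (fun c hc => ih c hc)
        refine ⟨.fn x as, ?_⟩
        rw [toT_tmFn, ← TDec.toT_dec _ _ hx]
        have h4 : toT as = ts := by
          show T.ofList (as.map toT) = ts
          rw [has, T.ofList_toList]
        show T.node (T.node T.nil T.nil) (T.node (toT x) (toT as)) = _
        rw [h4]
      | T.node (T.node T.nil T.nil) T.nil, h1, _, _ => simp [okT] at h1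
      | T.node (T.node T.nil (T.node _ _)) _, h1, _, _ => simp [okT] at h1
      | T.node (T.node (T.node _ _) _) _, h1, _, _ => simp [okT] at h1
  · rintro ⟨a, rfl⟩
    induction a with
    | var x =>
      rw [toT_tmVar]
      refine VT.mk _ ?_ ?_
      · show (TDec.dec (toT x) : Option ℕ).isSome = true
        rw [TDec.dec_toT]
        rfl
      · intro c hc
        have hc : c ∈ ([] : List T) := hc
        simp at hc
    | bul =>
      rw [toT_bul]
      exact VT.mk _ rfl (by intro c hc; simp [chT] at hc)
    | fn f ts ih =>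
      rw [toT_tmFn]
      refine VT.mk _ ?_ ?_
      · show (TDec.dec (toT f) : Option ℕ).isSome = true
        rw [TDec.dec_toT]
        rfl
      · intro c hc
        have hc : c ∈ (toT ts).toList := hc
        have h1 : (toT ts).toList = ts.map toT := T.toList_ofList _
        rw [h1, List.mem_map] at hc
        obtain ⟨a, ha, rfl⟩ := hc
        exact ih a ha

/-- One round of the recogniser. -/
def vStep (s : Bool × List T) : Bool × List T := (s.1 && s.2.all okT, s.2.flatMap chT)

/-- The recogniser. -/
def validT (t : T) : Bool := (vStep^[sz t + 2] (true, [t])).1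

theorem sz_chT_lt (t : T) : sz (chT t) ≤ sz t := by
  unfold chT
  split
  · rename_i a b c ts
    show (toT ts.toList).size ≤ _
    rw [toT_toList]
    show ts.size ≤ (T.node (T.node a b) (T.node c ts)).size
    simp only [T.size, T.enc, List.length_cons, List.length_append]
    omega
  · exact sz_pos t

theorem sz_flatMap_chT (l : List T) : sz (l.flatMap chT) + l.length ≤ sz l := by
  induction l with
  | nil => simp
  | cons a l ih =>
    rw [List.flatMap_cons, sz_list_cons, List.length_cons]
    have h1 := sz_append (chT a) (l.flatMap chT)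
    have h2 := sz_chT_lt a
    omega

theorem vStep_cur (s : Bool × List T) (n : ℕ) : (vStep^[n] s).2 = [] ∨
    sz (vStep^[n] s).2 + n ≤ sz s.2 := by
  induction n with
  | zero => exact Or.inr (by simp)
  | succ n ih =>
    rw [Function.iterate_succ_apply']
    have h1 := sz_flatMap_chT (vStep^[n] s).2
    by_cases h2 : (vStep^[n] s).2 = []
    · left
      show (vStep^[n] s).2.flatMap chT = []
      rw [h2]
      rfl
    · rcases ih with ih | ih
      · exact absurd ih h2
      · right
        have h3 : 0 < (vStep^[n] s).2.length := List.length_pos_iff.2 h2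
        show sz ((vStep^[n] s).2.flatMap chT) + (n + 1) ≤ sz s.2
        omega

theorem vStep_inv (s : Bool × List T) (n : ℕ) :
    ((vStep^[n] s).1 = true ∧ ∀ t ∈ (vStep^[n] s).2, VT t) ↔ (s.1 = true ∧ ∀ t ∈ s.2, VT t) := by
  induction n with
  | zero => rfl
  | succ n ih =>
    rw [Function.iterate_succ_apply', ← ih]
    generalize vStep^[n] s = u
    show ((u.1 && u.2.all okT) = true ∧ ∀ t ∈ u.2.flatMap chT, VT t) ↔ _
    rw [Bool.and_eq_true, List.all_eq_true, and_assoc]
    refine and_congr_right fun _ => ?_
    constructor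
    · rintro ⟨h1, h2⟩ t ht
      exact VT.mk t (h1 t ht) fun c hc => h2 c (List.mem_flatMap.2 ⟨t, ht, hc⟩)
    · intro h
      refine ⟨fun t ht => (vt_iff.1 (h t ht)).1, fun c hc => ?_⟩
      rw [List.mem_flatMap] at hc
      obtain ⟨t, ht, hc⟩ := hc
      exact (vt_iff.1 (h t ht)).2 c hc

theorem validT_iff {t : T} : validT t = true ↔ ∃ a : Tm, toT a = t := by
  rw [← vt_iff_code]
  have h1 := vStep_inv (true, [t]) (sz t + 2)
  have h2 : (vStep^[sz t + 2] (true, [t])).2 = [] := by
    rcases vStep_cur (true, [t]) (sz t + 2) with h | h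
    · exact h
    · have h3 := sz_pos (vStep^[sz t + 2] (true, [t])).2
      have h4 : sz [t] = sz t + 2 := by simp
      simp only at h
      omega
  rw [h2] at h1
  simpa [validT] using h1

theorem poly_okT : NPC.Poly okT := by
  have hd : NPC.Poly (fun r : T => (TDec.dec r : Option ℕ).isSome) :=
    NPC.Poly.isSome TDec.poly_dec
  have h2 : NPC.Poly (fun p : T × T => match p.2 with
      | T.nil => false
      | T.node f _ => decide (p.1 = T.node T.nil T.nil) && (TDec.dec f : Option ℕ).isSome) :=
    NPC.Poly.treeCases (t := fun p : T × T => p.2) (g := fun _ => false)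
      (h := fun p f _ => decide (p.1 = T.node T.nil T.nil) && (TDec.dec f : Option ℕ).isSome)
      (NPC.Poly.snd NPC.Poly.id) (NPC.Poly.const false)
      (NPC.Poly.and (NPC.Poly.decide_eq (NPC.Poly.fst (NPC.Poly.fst NPC.Poly.id))
        (NPC.Poly.const _)) (hd.comp (NPC.Poly.fst (NPC.Poly.snd NPC.Poly.id))))
  have h3 : NPC.Poly (fun p : T × T => if p.1 = T.nil then (TDec.dec p.2 : Option ℕ).isSome else
      match p.2 with
      | T.nil => false
      | T.node f _ => decide (p.1 = T.node T.nil T.nil) && (TDec.dec f : Option ℕ).isSome) :=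
    NPC.Poly.ite (NPC.Poly.decide_eq (NPC.Poly.fst NPC.Poly.id) (NPC.Poly.const _))
      (hd.comp (NPC.Poly.snd NPC.Poly.id)) h2
  have h4 : NPC.Poly (fun t : T => match t with
      | T.nil => true
      | T.node l r => if l = T.nil then (TDec.dec r : Option ℕ).isSome else
        match r with
        | T.nil => false
        | T.node f _ => decide (l = T.node T.nil T.nil) && (TDec.dec f : Option ℕ).isSome) :=
    NPC.Poly.treeCases (t := fun t : T => t) (g := fun _ => true)
      (h := fun _ l r => if l = T.nil then (TDec.dec r : Option ℕ).isSome else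
        match r with
        | T.nil => false
        | T.node f _ => decide (l = T.node T.nil T.nil) && (TDec.dec f : Option ℕ).isSome)
      NPC.Poly.id (NPC.Poly.const true)
      (h3.comp (NPC.Poly.pair (NPC.Poly.fst (NPC.Poly.snd NPC.Poly.id))
        (NPC.Poly.snd (NPC.Poly.snd NPC.Poly.id))))
  refine h4.congr fun t => ?_
  match t with
  | T.nil => rfl
  | T.node T.nil r => rfl
  | T.node (T.node T.nil T.nil) T.nil => rfl
  | T.node (T.node T.nil T.nil) (T.node f ts) => simp [okT]
  | T.node (T.node T.nil (T.node _ _)) r => cases r <;> simp [okT]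
  | T.node (T.node (T.node _ _) _) r => cases r <;> simp [okT]

theorem poly_chT : NPC.Poly chT := by
  have h1 : NPC.Poly (fun t : T => if t.hd = T.nil then [] else t.tl.tl.toList) :=
    NPC.Poly.ite (NPC.Poly.decide_eq (NPC.Poly.hd NPC.Poly.id) (NPC.Poly.const _))
      (NPC.Poly.const []) (NPC.Poly.treeList (NPC.Poly.tl (NPC.Poly.tl NPC.Poly.id)))
  refine h1.congr fun t => ?_
  match t with
  | T.nil => rfl
  | T.node T.nil r => rfl
  | T.node (T.node _ _) T.nil => rfl
  | T.node (T.node _ _) (T.node f ts) => rfl

theorem poly_bitsT : NPC.Poly (fun t : T => bits t) := by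
  have h1 : PC (bits : T → List Bool) (fun x : List Bool => x) (fun a => bits a) :=
    (NPC.Poly.id : NPC.Poly (fun t : T => t))
  exact PC.comp (g := fun x : List Bool => x) (f := fun a : T => bits a) PC.rawIn h1

theorem poly_validT : NPC.Poly validT := by
  have h1 : NPC.Poly (fun t : T => vStep^[(true :: true :: bits t).length] (true, [t])) := by
    refine Poly.iterLen (l := fun t : T => true :: true :: bits t)
      (s := fun t => ((true, [t]) : Bool × List T)) (F := fun _ s => vStep s)
      (NPC.Poly.cons (NPC.Poly.const _) (NPC.Poly.cons (NPC.Poly.const _) poly_bitsT)) ?_ ?_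
      (Polynomial.X + Polynomial.C 8) ?_
    · exact NPC.Poly.pair (NPC.Poly.const true) (NPC.Poly.cons NPC.Poly.id (NPC.Poly.const []))
    · unfold vStep
      refine NPC.Poly.pair (NPC.Poly.and (NPC.Poly.fst (NPC.Poly.snd NPC.Poly.id)) ?_) ?_
      · exact NPC.Poly.all (p := fun _ t => okT t) (NPC.Poly.snd (NPC.Poly.snd NPC.Poly.id))
          (poly_okT.comp (NPC.Poly.snd NPC.Poly.id))
      · exact NPC.Poly.flatMap (F := fun _ t => chT t) (NPC.Poly.snd (NPC.Poly.snd NPC.Poly.id))
          (poly_chT.comp (NPC.Poly.snd NPC.Poly.id))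
    · intro t k _
      simp only [Polynomial.eval_add, Polynomial.eval_C, Polynomial.eval_X]
      have h2 := sz_bool_le (vStep^[k] (true, [t])).1
      have h3 : sz (vStep^[k] (true, [t])).2 ≤ sz t + 2 := by
        rcases vStep_cur (true, [t]) k with h | h
        · rw [h]
          simp
        · have h4 : sz [t] = sz t + 2 := by simp
          simp only at h
          omega
      have h4 : sz (vStep^[k] (true, [t])) = sz (vStep^[k] (true, [t])).1 +
        sz (vStep^[k] (true, [t])).2 + 1 := sz_pair _ _
      show sz (vStep^[k] (true, [t])) ≤ _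
      omega
  refine (NPC.Poly.fst h1).congr fun t => ?_
  unfold validT
  rw [List.length_cons, List.length_cons, bits_length]

open Classical in
/-- Decoding of terms. -/
noncomputable def decTm (t : T) : Option Tm :=
  if h : ∃ a : Tm, toT a = t then some h.choose else none

theorem decTm_toT (a : Tm) : decTm (toT a) = some a := by
  unfold decTm
  rw [dif_pos ⟨a, rfl⟩]
  congr 1
  exact TEnc.inj (Exists.choose_spec (⟨a, rfl⟩ : ∃ b : Tm, toT b = toT a))

theorem toT_decTm (t : T) (a : Tm) (h : decTm t = some a) : toT a = t := by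
  unfold decTm at h
  split_ifs at h with h1
  rw [← Option.some.inj h]
  exact h1.choose_spec

theorem poly_decTm : NPC.Poly decTm := by
  have h1 : NPC.Poly (fun t : T => bif validT t then T.node t T.nil else T.nil) :=
    NPC.Poly.cond poly_validT (NPC.Poly.node NPC.Poly.id (NPC.Poly.const _)) (NPC.Poly.const _)
  refine NPC.Poly.of_toT (h1.congr fun t => ?_)
  cases h : validT t with
  | true =>
    obtain ⟨a, rfl⟩ := validT_iff.1 h
    rw [decTm_toT]
    rfl
  | false =>
    have h2 : decTm t = none := by
      unfold decTm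
      rw [dif_neg]
      rw [← validT_iff, h]
      simp
    rw [h2]
    rfl

/-- Codes of terms are decodable. -/
noncomputable instance : TDec Tm where
  dec := decTm
  dec_toT := decTm_toT
  toT_dec := toT_decTm
  poly_dec := poly_decTm

end Pool.Agent.H820R2.SS
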