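import Pool.Agent.NPC.Defs

/-!
# Term rewriting systems and strong sequentiality (Huet-Levy)

Terms, redexes, orthogonality, arbitrary reduction, strongly needed redexes and strong sequentiality,
as in problem `MP_ce3b04_lc`.  The fresh constant `•` of the definition is the constructor `Tm.bul`.
-/

namespace Pool.Agent.H820R2.SS

open Pool.Agent.NPC

/-- First-order terms over variables `var x`, the fresh constant `•` (written `bul`) and function
symbols.  A function symbol is a pair (name, arity): the term `node f k ts` has root symbol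
`(f, k)` and arguments `ts 0, …, ts (k - 1)`. -/
inductive Tm : Type
  | var (x : ℕ)
  | bul
  | node (f k : ℕ) (ts : Fin k → Tm)

/-- The term with root symbol `(f, ts.length)` and list of arguments `ts`. -/
def Tm.fn (f : ℕ) (ts : List Tm) : Tm := Tm.node f ts.length ts.get

/-- Applying a substitution. -/
def Tm.subst (σ : ℕ → Tm) : Tm → Tm
  | .var x => σ x
  | .bul => .bul
  | .node f k ts => .node f k (fun i => (ts i).subst σ)

/-- The list of (occurrences of) variables of a term. -/
def Tm.vars : Tm → List ℕ
  | .var x => [x]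
  | .bul => []
  | .node _ _ ts => (List.ofFn fun i => (ts i).vars).flatten

/-- The function symbols (name, arity) occurring in a term. -/
def Tm.syms : Tm → List (ℕ × ℕ)
  | .var _ => []
  | .bul => []
  | .node f k ts => (f, k) :: (List.ofFn fun i => (ts i).syms).flatten

/-- `Subterm s t`: the term `s` occurs in `t`. -/
inductive Subterm : Tm → Tm → Prop
  | refl (t : Tm) : Subterm t t
  | arg {s a : Tm} {f : ℕ} {ts : List Tm} (ha : a ∈ ts) (h : Subterm s a) : Subterm s (.fn f ts)

/-- The term contains `•`. -/
def HasBul (t : Tm) : Prop := Subterm .bul t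

/-- `OneHole Δ t c`: the term `c` is obtained from `t` by replacing one occurrence of the subterm
`Δ` by `•`; that is, `t = C[Δ]` and `c = C[•]` for a context `C` with one hole. -/
inductive OneHole (Δ : Tm) : Tm → Tm → Prop
  | root : OneHole Δ Δ .bul
  | arg {f : ℕ} {l r : List Tm} {a c : Tm} (h : OneHole Δ a c) :
      OneHole Δ (.fn f (l ++ a :: r)) (.fn f (l ++ c :: r))

/-- A term rewriting system, given by the list of its rules (left-hand side, right-hand side). -/
abbrev TRS : Type := List (Tm × Tm)

/-- The signature: the function symbols occurring in the rules. -/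
def TRS.sig (R : TRS) : List (ℕ × ℕ) := R.flatMap (fun ρ => ρ.1.syms ++ ρ.2.syms)

/-- A redex: an instance of a left-hand side. -/
def IsRedex (R : TRS) (t : Tm) : Prop := ∃ ρ ∈ R, ∃ σ : ℕ → Tm, t = ρ.1.subst σ

/-- A normal form: a term that contains no redex. -/
def NF (R : TRS) (t : Tm) : Prop := ∀ Δ, Subterm Δ t → ¬ IsRedex R Δ

/-- `t` is a term over the signature `F` (possibly containing variables and `•`). -/
def Over (F : List (ℕ × ℕ)) (t : Tm) : Prop := ∀ s ∈ t.syms, s ∈ F

/-- Arbitrary reduction: one redex occurrence is replaced by an arbitrary term over the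
signature. -/
inductive Step (R : TRS) : Tm → Tm → Prop
  | root {t : Tm} (ht : IsRedex R t) {s : Tm} (hs : Over R.sig s) : Step R t s
  | arg {f : ℕ} {l r : List Tm} {a b : Tm} (h : Step R a b) :
      Step R (.fn f (l ++ a :: r)) (.fn f (l ++ b :: r))

/-- A term `C[•]` is strongly needed if every normal form to which it reduces by arbitrary
reduction contains `•`. -/
def StronglyNeeded (R : TRS) (c : Tm) : Prop :=
  ∀ s, Relation.ReflTransGen (Step R) c s → NF R s → HasBul s

/-- Rules: no `•`, the left-hand side is not a variable, every variable of the right-hand side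
occurs in the left-hand side. -/
def IsRule (ρ : Tm × Tm) : Prop :=
  ¬ HasBul ρ.1 ∧ ¬ HasBul ρ.2 ∧ (∀ x, ρ.1 ≠ .var x) ∧ ∀ x ∈ ρ.2.vars, x ∈ ρ.1.vars

/-- Left-linearity of a rule. -/
def LeftLinear (ρ : Tm × Tm) : Prop := ρ.1.vars.Nodup

/-- No two left-hand sides overlap: no proper non-variable subterm of a left-hand side is unifiable
with (a renamed copy of) a left-hand side, and the left-hand sides of different rules are not
unifiable (after renaming). -/
def NonOverlapping (R : TRS) : Prop :=
  (∀ ρ₁ ∈ R, ∀ ρ₂ ∈ R, ρ₁ ≠ ρ₂ → ∀ σ τ : ℕ → Tm, ρ₁.1.subst σ ≠ ρ₂.1.subst τ) ∧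
  ∀ ρ₁ ∈ R, ∀ ρ₂ ∈ R, ∀ (g : ℕ) (us : List Tm), ρ₁.1 = .fn g us → ∀ a ∈ us,
    ∀ (f : ℕ) (ts : List Tm), Subterm (.fn f ts) a →
      ∀ σ τ : ℕ → Tm, (Tm.fn f ts).subst σ ≠ ρ₂.1.subst τ

/-- Orthogonal term rewriting systems. -/
def Orthogonal (R : TRS) : Prop :=
  (∀ ρ ∈ R, IsRule ρ ∧ LeftLinear ρ) ∧ NonOverlapping R

/-- Strong sequentiality: every term over the signature that is not a normal form contains a
strongly needed redex. -/
def StronglySequential (R : TRS) : Prop :=
  ∀ t, Over R.sig t → ¬ HasBul t → ¬ NF R t →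
    ∃ Δ c, IsRedex R Δ ∧ OneHole Δ t c ∧ StronglyNeeded R c

/-- The decision problem SS-ORTH: is the given system an orthogonal TRS that is strongly
sequential? -/
def SSOrth (R : TRS) : Prop := Orthogonal R ∧ StronglySequential R

end Pool.Agent.H820R2.SS
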