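import Pool.Agent.H820R2.SS.GenExp

/-!
# Programs of exponential running time and the class EXPTIME
-/

namespace Pool.Agent.H820R2.SS

open Pool.Agent.NPC Turing

/-- Bounded by `2 ^ p(n)` for a polynomial `p`. -/
def ExpB (t : ℕ → ℕ) : Prop := ∃ p : Polynomial ℕ, ∀ n, t n ≤ 2 ^ p.eval n

theorem ExpB.mono {t u : ℕ → ℕ} (h : ExpB u) (htu : ∀ n, t n ≤ u n) : ExpB t := by
  obtain ⟨p, hp⟩ := h
  exact ⟨p, fun n => (htu n).trans (hp n)⟩

theorem ExpB.poly (p : Polynomial ℕ) : ExpB (fun n => p.eval n) :=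
  ⟨p, fun _ => Nat.lt_two_pow_self.le⟩

theorem ExpB.const (c : ℕ) : ExpB (fun _ => c) :=
  ⟨Polynomial.C c, fun n => by rw [Polynomial.eval_C]; exact Nat.lt_two_pow_self.le⟩

theorem ExpB.pow2 (p : Polynomial ℕ) : ExpB (fun n => 2 ^ p.eval n) := ⟨p, fun _ => le_rfl⟩

theorem ExpB.add {t u : ℕ → ℕ} (ht : ExpB t) (hu : ExpB u) : ExpB (fun n => t n + u n) := by
  obtain ⟨p, hp⟩ := ht
  obtain ⟨q, hq⟩ := hu
  refine ⟨p + q + Polynomial.C 1, fun n => ?_⟩
  rw [Polynomial.eval_add, Polynomial.eval_add, Polynomial.eval_C, pow_succ, pow_add]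
  have h1 : 1 ≤ 2 ^ p.eval n := Nat.one_le_two_pow
  have h2 : 1 ≤ 2 ^ q.eval n := Nat.one_le_two_pow
  have h3 := hp n
  have h4 := hq n
  nlinarith [Nat.mul_le_mul h1 (le_refl (2 ^ q.eval n)), Nat.mul_le_mul (le_refl (2 ^ p.eval n)) h2]

theorem ExpB.mul {t u : ℕ → ℕ} (ht : ExpB t) (hu : ExpB u) : ExpB (fun n => t n * u n) := by
  obtain ⟨p, hp⟩ := ht
  obtain ⟨q, hq⟩ := hu
  refine ⟨p + q, fun n => ?_⟩
  rw [Polynomial.eval_add, pow_add]
  exact Nat.mul_le_mul (hp n) (hq n)

theorem ExpB.pow {t : ℕ → ℕ} (ht : ExpB t) (k : ℕ) : ExpB (fun n => t n ^ k) := by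
  induction k with
  | zero => exact (ExpB.const 1).mono (fun n => by simp)
  | succ k ih => exact (ih.mul ht).mono (fun n => by rw [pow_succ])

theorem ExpB.eval {t : ℕ → ℕ} (ht : ExpB t) (p : Polynomial ℕ) : ExpB (fun n => p.eval (t n)) := by
  obtain ⟨C, D, h⟩ := eval_le_pow p
  refine ((ExpB.const C).mul ((ht.add (ExpB.const 1)).pow D)).mono fun n => ?_
  exact (eval_mono p (Nat.le_succ _)).trans (h _ (by omega))

/-- A program of exponential running time gives membership in `EXPTIME`. -/
theorem inEXPTIME_of_runs {L : Set (List Bool)} {V : List Bool → List Bool} {c : Cmd ℕ}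
    {t : ℕ → ℕ} (hc : ∀ x, Runs c (inp x) (inp (V x)) (t x.length)) (ht : ExpB t)
    (hL : ∀ x, x ∈ L ↔ V x = [true]) : InEXPTIME L := by
  have key : ∀ x : List Bool, ∃ s, s ≤ t x.length + 1 ∧
      Nonempty (TM2OutputsInTime (c.map (Fin.ofNat (c.bd + 1))).toTM x (some (V x)) s) := by
    intro x
    obtain ⟨s, hs, hr⟩ := hc x
    have h1 := hr.restrict (n := c.bd) (by omega)
    refine ⟨s + 1, by simpa using hs, toTM_outputs ?_⟩
    convert! h1 using 1
    · funext i
      by_cases hi : i = 0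
      · subst hi; simp [inp]
      · have : (i : ℕ) ≠ 0 := fun h => hi (Fin.ext h)
        simp [inp, hi, this]
    · funext i
      by_cases hi : i = 0
      · subst hi; simp [inp]
      · have : (i : ℕ) ≠ 0 := fun h => hi (Fin.ext h)
        simp [inp, hi, this]
  obtain ⟨p, hp⟩ := ht.add (ExpB.const 1)
  refine ⟨V, { tm := (c.map (Fin.ofNat (c.bd + 1))).toTM
               inputAlphabet := Equiv.refl Bool
               outputAlphabet := Equiv.refl Bool
               time := fun n => t n + 1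
               outputsFun := ?_ }, p, hp, hL⟩
  intro x
  have hx := key x
  have hs := hx.choose_spec.1
  have hm := hx.choose_spec.2.some
  exact outputs_conv (List.map_id x).symm (List.map_id (V x)).symm hs hm

/-- A function that is polynomial-time computable on padded inputs decides a language in
`EXPTIME`. -/
theorem inEXPTIME_of_padded {A : Type} [TEnc A] {f : List Bool → A}
    (hf : PC (fun x : List Bool => x) (bits : A → List Bool) f) {g : A → Bool} {m : A → ℕ}
    (hm : UPoly m)
    (hg : NPC.Poly (fun x : {x : A × List Unit // 2 ^ m x.1 ≤ x.2.length} => g x.1.1))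
    {L : Set (List Bool)} (hL : ∀ x, x ∈ L ↔ g (f x) = true) : InEXPTIME L := by
  obtain ⟨c2, P2, h2⟩ := fpt_run g m (fun n => n) hm hg
  obtain ⟨s, hs⟩ := PC.length_le hf
  obtain ⟨c1, P1, h1⟩ := hf
  obtain ⟨c3, P3, h3⟩ := PC.rawBool
  obtain ⟨r, hr⟩ := hm.sz_le
  have hm' : ∀ a, m a ≤ r.eval (sz a) := by
    intro a
    have := hr a
    rw [sz_replicate_unit] at this
    omega
  -- time bound
  let w : Polynomial ℕ := Polynomial.C 2 * r.comp s + Polynomial.C 4
  have hw : ∀ x : List Bool, 2 * m (f x) + 4 ≤ w.eval x.length := by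
    intro x
    have h4 := hm' (f x)
    have h5 := hs x
    rw [bits_length] at h5
    have h6 := eval_mono r h5
    simp only [w, Polynomial.eval_add, Polynomial.eval_mul, Polynomial.eval_C,
      Polynomial.eval_comp]
    omega
  refine inEXPTIME_of_runs (c := Cmd.seq (Cmd.seq c1 c2) c3) (V := fun x => [g (f x)])
    (t := fun n => P1.eval n + P2.eval (s.eval n + 2 ^ w.eval n) + P3.eval 3 + 5) ?_ ?_ ?_
  · intro x
    have e1 := h1 x
    have e2 : Runs c2 (inp (bits (f x))) (inp (bits (g (f x))))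
        (P2.eval ((bits (f x)).length + 2 ^ (2 * m (f x) + 4))) := h2 (f x)
    have e3 := h3 (g (f x))
    refine ((e1.seq e2).seq e3).mono ?_
    beta_reduce
    have h4 : (bits (g (f x))).length ≤ 3 := by
      rw [bits_length]
      exact sz_bool_le _
    have h5 := eval_mono P3 h4
    have h6 : (bits (f x)).length + 2 ^ (2 * m (f x) + 4) ≤
        s.eval x.length + 2 ^ w.eval x.length :=
      Nat.add_le_add (hs x) (Nat.pow_le_pow_right (by norm_num) (hw x))
    have h7 := eval_mono P2 h6
    omega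
  · exact (((ExpB.poly P1).add (((ExpB.poly s).add (ExpB.pow2 w)).eval P2)).add
      (ExpB.const _)).add (ExpB.const 5)
  · intro x
    rw [hL x]
    simp

/-- Generation of states is decidable in exponential time. -/
theorem inEXPTIME_of_gen {A : Type} [TEnc A] {m : A → ℕ}
    {loc : A → List Bool → List (List Bool) → Bool} (hm : UPoly m)
    (hloc : NPC.Poly (fun q : A × List Bool × List (List Bool) => loc q.1 q.2.1 q.2.2))
    {start : A → List Bool} (hs : NPC.Poly start) {f : List Bool → A}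
    (hf : PC (fun x : List Bool => x) (bits : A → List Bool) f) {L : Set (List Bool)}
    (hL : ∀ x, x ∈ L ↔ Gen m loc (f x) (start (f x))) : InEXPTIME L := by
  refine inEXPTIME_of_padded hf (g := genB m loc start) (m := fun a => (m a + 1) * (m a + 1))
    (UPoly.mul (UPoly.add hm (UPoly.const 1)) (UPoly.add hm (UPoly.const 1)))
    (poly_genB hm hloc hs) fun x => ?_
  rw [hL x, genB_iff]

/-- Not being generated is decidable in exponential time. -/
theorem inEXPTIME_of_not_gen {A : Type} [TEnc A] {m : A → ℕ}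
    {loc : A → List Bool → List (List Bool) → Bool} (hm : UPoly m)
    (hloc : NPC.Poly (fun q : A × List Bool × List (List Bool) => loc q.1 q.2.1 q.2.2))
    {start : A → List Bool} (hs : NPC.Poly start) {f : List Bool → A}
    (hf : PC (fun x : List Bool => x) (bits : A → List Bool) f) {L : Set (List Bool)}
    (hL : ∀ x, x ∈ L ↔ ¬ Gen m loc (f x) (start (f x))) : InEXPTIME L := by
  refine inEXPTIME_of_padded hf (g := fun a => !(genB m loc start a))
    (m := fun a => (m a + 1) * (m a + 1))
    (UPoly.mul (UPoly.add hm (UPoly.const 1)) (UPoly.add hm (UPoly.const 1)))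
    (NPC.Poly.not (poly_genB hm hloc hs)) fun x => ?_
  rw [hL x, ← genB_iff]
  simp

end Pool.Agent.H820R2.SS
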