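import Pool.Agent.H583R2.Expo
import Pool.Agent.H820R2.SS.Exp
import Pool.Agent.NPC.Classes

/-!
# The time hierarchy: EXPTIME is not contained in P
-/

namespace Pool.Agent.H820R2.SS

open Turing Pool.Agent.H583R2

theorem exists_Bv' {V : List Bool → List Bool}
    (M : TM2ComputableInTime (id : List Bool → List Bool) (id : List Bool → List Bool) V) (c : ℕ)
    (hM : ∀ n, M.time n ≤ 2 ^ (c * n + c)) : ∃ e, ∀ y, Bv e y = (V y == [true]) := by
  obtain ⟨cd, m, hcd⟩ := code_of_tm M
  obtain ⟨e, he, hme⟩ := exists_mE cd (c + m)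
  refine ⟨e, ?_⟩
  intro y
  unfold Bv bvF
  rw [hme, hcd y]
  · rfl
  · have h1 := hM y.length
    have h2 := (Nat.lt_two_pow_self (n := m)).le
    calc m * M.time y.length ≤ 2 ^ m * 2 ^ (c * y.length + c) := Nat.mul_le_mul h2 h1
      _ = 2 ^ (m + (c * y.length + c)) := (pow_add _ _ _).symm
      _ ≤ _ := by
        refine Nat.pow_le_pow_right (by norm_num) ?_
        nlinarith [Nat.zero_le (m * y.length), Nat.zero_le ((e - (c + m)) * (y.length + 1)),
          Nat.mul_le_mul_right (y.length + 1) he]

/-- The diagonal function. -/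
def Dg (x : List Bool) : Bool := !(Bv x.length x)

theorem dg_time : ∃ k, ∃ M : TM2ComputableInTime (id : List Bool → List Bool) encB Dg,
    ∀ n, M.time n ≤ k * (n + 2 ^ ((n + 1) * (n + 1)) + 2) ^ k + k := by
  refine tm_exp (f := Dg) encB (fun n => (n + 1) * (n + 1))
    (PF.mul (PF.add (PF.length PF.id) (PF.const 1)) (PF.add (PF.length PF.id) (PF.const 1)))
    (g := fun p => [!(bvF p.1.length p.1 p.2)])
    (PF.cons (PF.not (pf_bvF (PF.length PF.fst) PF.fst PF.snd)) (PF.const [])) ?_
  intro x
  rfl

/-- The diagonal language. -/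
def diagL : Set (List Bool) := {x | Dg x = true}

theorem diagL_inEXPTIME : InEXPTIME diagL := by
  obtain ⟨k, M, hM⟩ := dg_time
  refine ⟨fun x => [Dg x], { tm := M.tm
                             inputAlphabet := M.inputAlphabet
                             outputAlphabet := M.outputAlphabet
                             time := M.time
                             outputsFun := M.outputsFun },
    Polynomial.C k * ((Polynomial.X + Polynomial.C 1) * (Polynomial.X + Polynomial.C 1) +
      Polynomial.X + Polynomial.C 3) + Polynomial.C (2 * k + 1), ?_, ?_⟩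
  · intro n
    refine (hM n).trans ?_
    simp only [Polynomial.eval_add, Polynomial.eval_mul, Polynomial.eval_C, Polynomial.eval_X]
    have h1 : n + 2 ^ ((n + 1) * (n + 1)) + 2 ≤ 2 ^ ((n + 1) * (n + 1) + n + 3) := by
      have h2 : n < 2 ^ n := Nat.lt_two_pow_self
      have h3 : 1 ≤ 2 ^ ((n + 1) * (n + 1)) := Nat.one_le_two_pow
      have h4 : 2 ^ ((n + 1) * (n + 1) + n + 3) = 8 * (2 ^ ((n + 1) * (n + 1)) * 2 ^ n) := by
        rw [pow_add, pow_add]
        ring
      have h5 : 1 ≤ 2 ^ n := Nat.one_le_two_pow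
      rw [h4]
      nlinarith [Nat.mul_le_mul h3 (le_refl (2 ^ n)), Nat.mul_le_mul
        (le_refl (2 ^ ((n + 1) * (n + 1)))) h5]
    have h2 := Nat.pow_le_pow_left h1 k
    rw [← pow_mul] at h2
    have h3 : k < 2 ^ k := Nat.lt_two_pow_self
    generalize hE : (n + 1) * (n + 1) + n + 3 = E at h2 ⊢
    generalize (n + 2 ^ ((n + 1) * (n + 1)) + 2) ^ k = Y at h2 ⊢
    have h4 : 2 ^ (k * E + (2 * k + 1)) = 2 ^ (E * k) * 2 ^ k * 2 ^ k * 2 := by
      rw [← pow_add, ← pow_add, ← pow_succ]
      congr 1
      ring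
    rw [h4]
    have h5 : 1 ≤ 2 ^ (E * k) := Nat.one_le_two_pow
    have h6 : 1 ≤ 2 ^ k := Nat.one_le_two_pow
    have h7 : k * Y ≤ 2 ^ k * 2 ^ (E * k) := Nat.mul_le_mul h3.le h2
    have h8 : 2 ^ k * 2 ^ (E * k) ≤ 2 ^ (E * k) * 2 ^ k * 2 ^ k := by
      nlinarith [Nat.mul_le_mul (le_refl (2 ^ (E * k) * 2 ^ k)) h6]
    have h9 : k ≤ 2 ^ (E * k) * 2 ^ k * 2 ^ k := by
      nlinarith [Nat.mul_le_mul h5 h6, Nat.mul_le_mul (Nat.mul_le_mul h5 h6) h3.le]
    omega
  · intro x
    simp [diagL]

theorem diagL_not_inP : ¬ NPC.InP diagL := by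
  rintro ⟨V, ⟨M⟩, hV⟩
  have hC : ∃ c, ∀ n, M.time.eval n ≤ 2 ^ (c * n + c) := by
    have key : ∀ p : Polynomial ℕ, ∃ c, ∀ n, p.eval n ≤ 2 ^ (c * n + c) := by
      intro p
      induction p using Polynomial.induction_on' with
      | add p q hp hq =>
        obtain ⟨c, hc⟩ := hp
        obtain ⟨d, hd⟩ := hq
        refine ⟨c + d + 1, fun n => ?_⟩
        rw [Polynomial.eval_add]
        have h1 : 2 ^ (c * n + c) ≤ 2 ^ ((c + d) * n + (c + d)) :=
          Nat.pow_le_pow_right (by norm_num) (by nlinarith)
        have h2 : 2 ^ (d * n + d) ≤ 2 ^ ((c + d) * n + (c + d)) :=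
          Nat.pow_le_pow_right (by norm_num) (by nlinarith)
        have h3 : 2 ^ ((c + d) * n + (c + d)) * 2 ≤ 2 ^ ((c + d + 1) * n + (c + d + 1)) := by
          rw [← pow_succ]
          exact Nat.pow_le_pow_right (by norm_num) (by nlinarith)
        have := hc n
        have := hd n
        omega
      | monomial k a =>
        refine ⟨a + k, fun n => ?_⟩
        rw [Polynomial.eval_monomial]
        have h1 : a < 2 ^ a := Nat.lt_two_pow_self
        have h2 : n ^ k ≤ (2 ^ n) ^ k := Nat.pow_le_pow_left (Nat.lt_two_pow_self).le k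
        rw [← pow_mul] at h2
        calc a * n ^ k ≤ 2 ^ a * 2 ^ (n * k) := Nat.mul_le_mul h1.le h2
          _ = 2 ^ (a + n * k) := (pow_add _ _ _).symm
          _ ≤ _ := Nat.pow_le_pow_right (by norm_num) (by nlinarith)
    exact key M.time
  obtain ⟨c, hc⟩ := hC
  obtain ⟨e, he⟩ := exists_Bv' (V := V) { tm := M.tm
                                          inputAlphabet := M.inputAlphabet
                                          outputAlphabet := M.outputAlphabet
                                          time := fun n => M.time.eval n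
                                          outputsFun := M.outputsFun } c hc
  have h1 := hV (List.replicate e true)
  have h2 := he (List.replicate e true)
  have h3 : Dg (List.replicate e true) = !(Bv e (List.replicate e true)) := by
    unfold Dg
    rw [List.length_replicate]
  have h4 : Dg (List.replicate e true) = true ↔ V (List.replicate e true) = [true] := h1
  rw [h3, h2] at h4
  simp at h4

/-- The time hierarchy theorem for these classes. -/
theorem exists_exptime_not_p : ∃ L : Set (List Bool), InEXPTIME L ∧ ¬ NPC.InP L :=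
  ⟨diagL, diagL_inEXPTIME, diagL_not_inP⟩

end Pool.Agent.H820R2.SS
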