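import Pool.Agent.H820R2.SS.AltPoly
import Pool.Agent.H820R2.SS.DecTm
import Pool.Agent.H820R2.SS.ExpTM

/-!
# Strong sequentiality is decidable in exponential time
-/

namespace Pool.Agent.H820R2.SS

open Pool.Agent.NPC

/-- The system coded by a bit string. -/
noncomputable def readTRS (x : List Bool) : TRS := (unbits TRS x).getD []

theorem readTRS_bits (R : TRS) : readTRS (bits R) = R := by
  unfold readTRS
  rw [unbits_bits]
  rfl

theorem pc_readTRS : PC (fun x : List Bool => x) (bits : TRS → List Bool) readTRS := by
  have h1 : NPC.Poly (fun x : List Bool => readTRS x) :=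
    Poly.optGetD (g := fun _ => ([] : TRS)) (poly_unbits (α := TRS)) (NPC.Poly.const [])
  exact PC.comp (g := readTRS) (f := fun x => x) h1 PC.rawIn

theorem Orthogonal.ll {R : TRS} (h : Orthogonal R) : LL R := h.1

/-- Strong sequentiality of orthogonal systems is decided by a language in `EXPTIME`. -/
theorem exists_inEXPTIME : ∃ S : Set (List Bool), InEXPTIME S ∧
    ∀ R : TRS, Orthogonal R → (bits R ∈ S ↔ StronglySequential R) := by
  refine ⟨{x | ¬ Gen stLen locB (readTRS x) (startB (readTRS x))}, ?_, fun R hR => ?_⟩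
  · exact inEXPTIME_of_not_gen upoly_stLen poly_locB poly_startB pc_readTRS fun x => Iff.rfl
  · rw [Set.mem_setOf_eq, readTRS_bits, ← hR.ll.notSS_iff_gen, not_not]

end Pool.Agent.H820R2.SS
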