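import Pool.Agent.H820R2.SS.OrthDec
import Pool.Agent.H820R2.SS.Upper

/-!
# Orthogonality can be tested in polynomial time, conclusion
-/

namespace Pool.Agent.H820R2.SS

open Pool.Agent.NPC

/-- The variable at the root, if any. -/
def Tm.vr : Tm → List ℕ
  | .var x => [x]
  | _ => []

theorem vars_eq (t : Tm) : t.vars = t.vr ++ t.args.flatMap Tm.vars := by
  cases t with
  | var x => rw [vars_var]; rfl
  | bul => rw [vars_bul]; rfl
  | fn f ts =>
    rw [vars_fn, args_fn]
    rfl

/-- The variables of a term, in some order. -/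
def vl (t : Tm) : List ℕ := (bfs [t]).flatMap Tm.vr

theorem bfs_perm (l : List Tm) (n : ℕ) :
    ((bfsStep^[n] ([], l)).1.flatMap Tm.vr ++ (bfsStep^[n] ([], l)).2.flatMap Tm.vars).Perm
      (l.flatMap Tm.vars) := by
  induction n with
  | zero => exact List.Perm.refl _
  | succ n ih =>
    refine List.Perm.trans ?_ ih
    rw [Function.iterate_succ_apply']
    generalize bfsStep^[n] ([], l) = s
    show ((s.1 ++ s.2).flatMap Tm.vr ++ (s.2.flatMap Tm.args).flatMap Tm.vars).Perm _
    rw [List.flatMap_append, List.append_assoc]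
    apply List.Perm.append_left
    rw [List.flatMap_assoc]
    refine (List.flatMap_append_perm _ _ _).trans ?_
    rw [show (fun t : Tm => t.vr ++ t.args.flatMap Tm.vars) = Tm.vars from
      funext fun t => (vars_eq t).symm]

theorem vl_perm (t : Tm) : (vl t).Perm t.vars := by
  have h := bfs_perm [t] (sz [t])
  rw [bfs_end] at h
  simpa [vl, bfs] using h

theorem mem_bfs_iff {l : List Tm} {t : Tm} : t ∈ bfs l ↔ ∃ s ∈ l, Subterm t s := by
  constructor
  · exact bfs_sub
  · rintro ⟨s, hs, h⟩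
    have key : ∀ s, Subterm t s → s ∈ bfs l → t ∈ bfs l := by
      intro s h
      induction h with
      | refl => exact fun h => h
      | arg ha _ ih => exact fun hs => ih (bfs_args hs (by rw [args_fn]; exact ha))
    exact key s h (bfs_base hs)

/-- Test for repetitions. -/
def nodupB (l : List ℕ) : Bool :=
  (List.range l.length).all fun i => (List.range l.length).all fun j =>
    decide (i = j) || !(decide (l.getD i 0 = l.getD j 0))

theorem nodupB_iff {l : List ℕ} : nodupB l = true ↔ l.Nodup := by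
  unfold nodupB
  rw [List.nodup_iff_injective_getElem]
  simp only [List.all_eq_true, List.mem_range, Bool.or_eq_true, decide_eq_true_eq,
    Bool.not_eq_true', decide_eq_false_iff_not]
  constructor
  · intro h i j hij
    rcases h i i.2 j j.2 with h1 | h1
    · exact Fin.ext h1
    · exfalso
      apply h1
      simp only [Fin.getElem_fin] at hij
      rw [List.getD_eq_getElem _ _ i.2, List.getD_eq_getElem _ _ j.2]
      exact hij
  · intro h i hi j hj
    by_cases hij : i = j
    · exact Or.inl hij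
    · right
      intro h1
      rw [List.getD_eq_getElem _ _ hi, List.getD_eq_getElem _ _ hj] at h1
      have := h (a₁ := ⟨i, hi⟩) (a₂ := ⟨j, hj⟩) h1
      exact hij (by simpa using this)

/-- Test of a single rule. -/
def ruleB (ρ : Tm × Tm) : Bool :=
  !(decide (Tm.bul ∈ bfs [ρ.1])) && (!(decide (Tm.bul ∈ bfs [ρ.2])) && (!ρ.1.isVar &&
    ((vl ρ.2).all (fun x => decide (x ∈ vl ρ.1)) && nodupB (vl ρ.1))))

/-- Test of non-overlapping. -/
def nonOvB (R : TRS) : Bool :=
  (R.all fun ρ₁ => R.all fun ρ₂ => decide (ρ₁ = ρ₂) || !(unifB ρ₁.1 ρ₂.1)) &&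
  R.all fun ρ₁ => (bfs ρ₁.1.args).all fun p => !p.hd.isSome || R.all fun ρ₂ => !(unifB p ρ₂.1)

/-- Test of orthogonality. -/
def orthB (R : TRS) : Bool := R.all ruleB && nonOvB R

theorem ruleB_iff {ρ : Tm × Tm} : ruleB ρ = true ↔ IsRule ρ ∧ LeftLinear ρ := by
  unfold ruleB IsRule LeftLinear
  have h1 : ∀ t : Tm, Tm.bul ∈ bfs [t] ↔ HasBul t := by
    intro t
    rw [mem_bfs_iff]
    simp [HasBul]
  have h2 : ∀ x (t : Tm), x ∈ vl t ↔ x ∈ t.vars := fun x t => (vl_perm t).mem_iff
  simp only [Bool.and_eq_true, Bool.not_eq_true', decide_eq_false_iff_not, List.all_eq_true,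
    decide_eq_true_eq, nodupB_iff, h1, h2, (vl_perm ρ.1).nodup_iff]
  have h3 : ρ.1.isVar = false ↔ ∀ x, ρ.1 ≠ .var x := by
    rw [← Bool.not_eq_true, isVar_iff]
    push Not
    rfl
  rw [h3]
  tauto

theorem nonOvB_iff {R : TRS} (hR : LL R) : nonOvB R = true ↔ NonOverlapping R := by
  unfold nonOvB NonOverlapping
  rw [Bool.and_eq_true]
  have hlin : ∀ ρ ∈ R, ρ.1.vars.Nodup := fun ρ hρ => (hR ρ hρ).2
  have hun : ∀ s t : Tm, s.vars.Nodup → t.vars.Nodup →
      (unifB s t = false ↔ ∀ σ τ : ℕ → Tm, s.subst σ ≠ t.subst τ) := by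
    intro s t hs ht
    rw [← Bool.not_eq_true, unifB_iff]
    constructor
    · intro h σ τ he
      exact h (compat_of_unif s t ⟨σ, τ, he⟩)
    · intro h hc
      obtain ⟨σ, τ, he⟩ := unif_of_compat hc hs ht
      exact h σ τ he
  apply and_congr
  · simp only [List.all_eq_true, Bool.or_eq_true, decide_eq_true_eq, Bool.not_eq_true']
    refine forall_congr' fun ρ₁ => forall_congr' fun h1 => forall_congr' fun ρ₂ =>
      forall_congr' fun h2 => ?_
    rw [hun _ _ (hlin ρ₁ h1) (hlin ρ₂ h2)]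
    tauto
  · simp only [List.all_eq_true, Bool.or_eq_true, Bool.not_eq_true']
    constructor
    · intro h ρ₁ h1 ρ₂ h2 g us hg a ha f ts hs
      have h3 : Tm.fn f ts ∈ bfs ρ₁.1.args := by
        rw [hg, args_fn, mem_bfs_iff]
        exact ⟨a, ha, hs⟩
      have h4 : (Tm.fn f ts).vars.Nodup :=
        nodup_subterm (Subterm.arg ha hs) (hg ▸ hlin ρ₁ h1)
      rcases h ρ₁ h1 _ h3 with h5 | h5
      · simp at h5
      · exact (hun _ _ h4 (hlin ρ₂ h2)).1 (h5 ρ₂ h2)
    · intro h ρ₁ h1 p hp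
      cases p with
      | var x => exact Or.inl rfl
      | bul => exact Or.inl rfl
      | fn f ts =>
        right
        intro ρ₂ h2
        rw [mem_bfs_iff] at hp
        obtain ⟨a, ha, hs⟩ := hp
        cases hl : ρ₁.1 with
        | var x => rw [hl] at ha; simp at ha
        | bul => rw [hl] at ha; simp at ha
        | fn g us =>
          rw [hl, args_fn] at ha
          have h4 : (Tm.fn f ts).vars.Nodup :=
            nodup_subterm (Subterm.arg ha hs) (hl ▸ hlin ρ₁ h1)
          rw [hun _ _ h4 (hlin ρ₂ h2)]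
          exact h ρ₁ h1 ρ₂ h2 g us hl a ha f ts hs

theorem orthB_iff {R : TRS} : orthB R = true ↔ Orthogonal R := by
  unfold orthB Orthogonal
  rw [Bool.and_eq_true, List.all_eq_true]
  have h1 : (∀ ρ ∈ R, ruleB ρ = true) ↔ ∀ ρ ∈ R, IsRule ρ ∧ LeftLinear ρ :=
    forall_congr' fun ρ => forall_congr' fun _ => ruleB_iff
  rw [h1]
  exact and_congr_right fun h => nonOvB_iff h

variable {α : Type} [TEnc α]

@[fun_prop]
theorem poly_vr {t : α → Tm} (ht : NPC.Poly t) : NPC.Poly (fun a => (t a).vr) := by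
  have h1 : NPC.Poly (fun a => bif (t a).isVar then T.node (toT (t a)).tl T.nil else T.nil) :=
    NPC.Poly.cond (poly_isVar ht) (NPC.Poly.node (NPC.Poly.tl (NPC.Poly.toT' ht))
      (NPC.Poly.const T.nil)) (NPC.Poly.const T.nil)
  refine NPC.Poly.of_toT (h1.congr fun a => ?_)
  cases t a with
  | var x => rfl
  | bul => rfl
  | fn f ts => rfl

@[fun_prop]
theorem poly_vl {t : α → Tm} (ht : NPC.Poly t) : NPC.Poly (fun a => vl (t a)) := by
  unfold vl
  fun_prop

@[fun_prop]
theorem poly_nodupB {l : α → List ℕ} (hl : NPC.Poly l) : NPC.Poly (fun a => nodupB (l a)) := by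
  unfold nodupB
  fun_prop

@[fun_prop]
theorem poly_ruleB {ρ : α → Tm × Tm} (hρ : NPC.Poly ρ) : NPC.Poly (fun a => ruleB (ρ a)) := by
  unfold ruleB
  fun_prop

@[fun_prop]
theorem poly_unifB' {s t : α → Tm} (hs : NPC.Poly s) (ht : NPC.Poly t) :
    NPC.Poly (fun a => unifB (s a) (t a)) :=
  poly_unifB.comp (NPC.Poly.pair hs ht)

@[fun_prop]
theorem poly_isSome {β : Type} [TEnc β] {o : α → Option β} (ho : NPC.Poly o) :
    NPC.Poly (fun a => (o a).isSome) := NPC.Poly.isSome ho

theorem poly_orthB : NPC.Poly orthB := by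
  unfold orthB nonOvB
  fun_prop

/-- Change of the padded type. -/
theorem poly_pad_pair {A : Type} [TEnc A] {m : A → ℕ} {G : A → Bool}
    (hG : NPC.Poly (fun x : Pad m => G x.1.1)) :
    NPC.Poly (fun x : {x : (A × Bool) × List Unit //
      2 ^ ((m x.1.1 + 1) * (m x.1.1 + 1)) ≤ x.2.length} => (x.1.1.2 && !(G x.1.1.1))) := by
  have h1 : NPC.Poly (fun x : {x : (A × Bool) × List Unit //
      2 ^ ((m x.1.1 + 1) * (m x.1.1 + 1)) ≤ x.2.length} =>
        (⟨(x.1.1.1, x.1.2), x.2⟩ : Pad m)) :=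
    NPC.Poly.of_toT (NPC.Poly.toT' (NPC.Poly.pair (NPC.Poly.fst (NPC.Poly.fst (Poly.val _)))
      (NPC.Poly.snd (Poly.val _))))
  have h2 := hG.comp h1
  exact NPC.Poly.and (NPC.Poly.snd (NPC.Poly.fst (Poly.val _))) (NPC.Poly.not h2)

/-- Decision in exponential time, with a side condition. -/
theorem inEXPTIME_of_not_gen_and {A : Type} [TEnc A] {m : A → ℕ}
    {loc : A → List Bool → List (List Bool) → Bool} (hm : UPoly m)
    (hloc : NPC.Poly (fun q : A × List Bool × List (List Bool) => loc q.1 q.2.1 q.2.2))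
    {start : A → List Bool} (hs : NPC.Poly start) {f : List Bool → A} (hf : NPC.Poly f)
    {b : List Bool → Bool} (hb : NPC.Poly b) {L : Set (List Bool)}
    (hL : ∀ x, x ∈ L ↔ b x = true ∧ ¬ Gen m loc (f x) (start (f x))) : InEXPTIME L := by
  have hm' : UPoly (fun p : A × Bool => (m p.1 + 1) * (m p.1 + 1)) :=
    (UPoly.mul (UPoly.add hm (UPoly.const 1)) (UPoly.add hm (UPoly.const 1))).comp
      (NPC.Poly.fst NPC.Poly.id)
  have hf' : PC (fun x : List Bool => x) (bits : A × Bool → List Bool) (fun x => (f x, b x)) :=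
    PC.comp (g := fun x => (f x, b x)) (f := fun x => x) (NPC.Poly.pair hf hb) PC.rawIn
  refine inEXPTIME_of_padded (A := A × Bool) (f := fun x => (f x, b x))
    (g := fun p => p.2 && !(genB m loc start p.1))
    (m := fun p => (m p.1 + 1) * (m p.1 + 1)) hf' hm'
    (poly_pad_pair (poly_genB hm hloc hs)) fun x => ?_
  rw [hL x, ← genB_iff]
  simp

theorem poly_readTRS : NPC.Poly (fun x : List Bool => readTRS x) :=
  Poly.optGetD (g := fun _ => ([] : TRS)) (poly_unbits (α := TRS)) (NPC.Poly.const [])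

/-- The language SS-ORTH is in `EXPTIME`. -/
theorem inEXPTIME_ssOrth : InEXPTIME (lang SSOrth) := by
  have hb : NPC.Poly (fun x : List Bool => (unbits TRS x).isSome && orthB (readTRS x)) :=
    NPC.Poly.and (NPC.Poly.isSome poly_unbits) (poly_orthB.comp poly_readTRS)
  refine inEXPTIME_of_not_gen_and upoly_stLen poly_locB poly_startB poly_readTRS hb fun x => ?_
  rw [mem_lang_iff, Bool.and_eq_true, orthB_iff]
  constructor
  · rintro ⟨R, h1, h2, h3⟩
    have h4 : readTRS x = R := by
      unfold readTRS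
      rw [h1]
      rfl
    rw [h4, h1, ← h2.ll.notSS_iff_gen, not_not]
    exact ⟨⟨rfl, h2⟩, h3⟩
  · rintro ⟨⟨h1, h2⟩, h3⟩
    obtain ⟨R, hR⟩ := Option.isSome_iff_exists.1 h1
    have h4 : readTRS x = R := by
      unfold readTRS
      rw [hR]
      rfl
    rw [h4] at h2 h3
    rw [← h2.ll.notSS_iff_gen, not_not] at h3
    exact ⟨R, hR, h2, h3⟩

end Pool.Agent.H820R2.SS
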