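import Pool.Agent.H820R2.SS.Hardness
import Pool.Agent.H820R2.SS.OrthDec2
import Pool.Agent.H820R2.SS.Hier

/-!
# Strong sequentiality of orthogonal systems is complete for EXPTIME
-/

namespace Pool.Agent.H820R2.SS

open Pool.Agent.NPC Pool.Agent.H622R2

/-- Languages reducible to SS-ORTH are in `EXPTIME`. -/
theorem inEXPTIME_of_reduces {L : Set (List Bool)} (h : Reduces L (lang SSOrth)) :
    InEXPTIME L := by
  obtain ⟨F, hF, hL⟩ := h
  have pF := poly_of_polyTime hF
  have hb : NPC.Poly (fun x : List Bool => (unbits TRS (F x)).isSome && orthB (readTRS (F x))) :=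
    NPC.Poly.and (NPC.Poly.isSome (poly_unbits.comp pF)) (poly_orthB.comp (poly_readTRS.comp pF))
  refine inEXPTIME_of_not_gen_and upoly_stLen poly_locB poly_startB (poly_readTRS.comp pF) hb
    fun x => ?_
  rw [hL x, mem_lang_iff, Bool.and_eq_true, orthB_iff]
  constructor
  · rintro ⟨R, h1, h2, h3⟩
    have h4 : readTRS (F x) = R := by
      unfold readTRS
      rw [h1]
      rfl
    rw [h4, h1, ← h2.ll.notSS_iff_gen, not_not]
    exact ⟨⟨rfl, h2⟩, h3⟩
  · rintro ⟨⟨h1, h2⟩, h3⟩
    obtain ⟨R, hR⟩ := Option.isSome_iff_exists.1 h1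
    have h4 : readTRS (F x) = R := by
      unfold readTRS
      rw [hR]
      rfl
    rw [h4] at h2 h3
    rw [← h2.ll.notSS_iff_gen, not_not] at h3
    exact ⟨R, hR, h2, h3⟩

theorem ssOrth_solves (R : TRS) (hR : Orthogonal R) :
    bits R ∈ lang SSOrth ↔ StronglySequential R := by
  rw [bits_mem_lang]
  exact ⟨fun h => h.2, fun h => ⟨hR, h⟩⟩

theorem inEXPTIME_of_inNP {L : Set (List Bool)} (h : InNP L) : InEXPTIME L :=
  inEXPTIME_of_reduces (nPHard_of ssOrth_solves L h)

theorem not_inP_of {S : Set (List Bool)}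
    (hS : ∀ R : TRS, Orthogonal R → (bits R ∈ S ↔ StronglySequential R)) : ¬ InP S := by
  intro h
  obtain ⟨L, h1, h2⟩ := exists_exptime_not_p
  exact h2 (InP.of_reduces (exptimeHard_of hS h1) h)

end Pool.Agent.H820R2.SS
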