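import Pool.Agent.H820R2.SS.Basic

/-!
# The game and its rewriting system
-/

namespace Pool.Agent.H820R2.SS

open Relation

/-- A branch: transfer relation between bits, list of possible next moves. -/
abbrev Branch : Type := List (ℕ × ℕ) × List ℕ

/-- A game: number of bits minus one (in unary), bits that are initially alive, initial moves, and
for each move its list of branches. -/
abbrev Game : Type := List Unit × List ℕ × List ℕ × List (List Branch)

namespace Game

/-- number of bits -/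
def n (G : Game) : ℕ := G.1.length + 1
/-- bits initially alive -/
def Z0 (G : Game) : List ℕ := G.2.1
/-- initial moves -/
def next0 (G : Game) : List ℕ := G.2.2.1
/-- number of moves -/
def M (G : Game) : ℕ := G.2.2.2.length
/-- branches of a move -/
def brs (G : Game) (m : ℕ) : List Branch := G.2.2.2.getD m []
/-- number of branches of a move -/
def J (G : Game) (m : ℕ) : ℕ := (G.brs m).length
/-- a branch of a move -/
def br (G : Game) (m j : ℕ) : Branch := (G.brs m).getD j ([], [])

theorem n_pos (G : Game) : 0 < G.n := Nat.succ_pos _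

/-- image of a set of bits under a transfer relation -/
def img (F : List (ℕ × ℕ)) (Z : ℕ → Prop) : ℕ → Prop := fun b' => ∃ b, Z b ∧ (b, b') ∈ F

/-- image, restricted to actual bits -/
def image (G : Game) (F : List (ℕ × ℕ)) (Z : ℕ → Prop) : ℕ → Prop :=
  img F (fun b => b < G.n ∧ Z b)

/-- Winning positions (least fixed point): a move without branches wins if all bits are alive;
otherwise for every branch there must be a winning next move. -/
inductive Win (G : Game) : ℕ → (ℕ → Prop) → Prop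
  | leaf {m : ℕ} {Z : ℕ → Prop} (hm : m < G.M) (hJ : G.J m = 0) (hZ : ∀ b < G.n, Z b) : Win G m Z
  | node {m : ℕ} {Z : ℕ → Prop} (hm : m < G.M) (hJ : 0 < G.J m) (f : ℕ → ℕ)
      (hf : ∀ j < G.J m, f j ∈ (G.br m j).2)
      (h : ∀ j < G.J m, Win G (f j) (G.image (G.br m j).1 Z)) : Win G m Z

/-- Acceptance. -/
def Acc (G : Game) : Prop := ∃ m ∈ G.next0, G.Win m (fun b => b ∈ G.Z0)

theorem Win.lt {G : Game} {m : ℕ} {Z : ℕ → Prop} (h : G.Win m Z) : m < G.M := by
  cases h with
  | leaf hm => exact hm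
  | node hm => exact hm

theorem Win.mono {G : Game} {m : ℕ} {Z Z' : ℕ → Prop} (h : G.Win m Z)
    (hZ : ∀ b < G.n, Z b → Z' b) : G.Win m Z' := by
  induction h generalizing Z' with
  | leaf hm hJ h => exact Win.leaf hm hJ (fun b hb => hZ b hb (h b hb))
  | node hm hJ f hf h ih =>
    refine Win.node hm hJ f hf (fun j hj => ih j hj ?_)
    rintro b _ ⟨b0, ⟨h1, h2⟩, h3⟩
    exact ⟨b0, ⟨h1, hZ b0 h1 h2⟩, h3⟩

theorem Win.nonempty {G : Game} {m : ℕ} {Z : ℕ → Prop} (h : G.Win m Z) : ∃ b < G.n, Z b := by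
  induction h with
  | leaf hm hJ h => exact ⟨0, G.n_pos, h 0 G.n_pos⟩
  | node hm hJ f hf h ih =>
    obtain ⟨b, _, b0, ⟨h1, h2⟩, _⟩ := ih 0 hJ
    exact ⟨b0, h1, h2⟩

end Game

/-- Constants. -/
def c (k : ℕ) : Tm := .fn k []

/-- The constant marking type `X`. -/
def cX (X : Bool) : Tm := if X then c 2 else c 1

/-- The two killer patterns: `κ(x,0)` and `κ(0,x)`. -/
def pat (X : Bool) (b : ℕ) : Tm := if X then .fn 3 [c 0, .var b] else .fn 3 [.var b, c 0]

/-- Argument lists with `n` bit columns and `J` branch columns. -/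
def cols (n J : ℕ) (p q : ℕ → Tm) : List Tm := (List.range n).map p ++ (List.range J).map q

/-- The pattern of a killer row for move `m`. -/
def xrow (G : Game) (X : Bool) (m : ℕ) (D : List ℕ) : Tm :=
  .fn (5 + m) (cols G.n (G.J m) (fun b => if b ∈ D then pat X b else c 0) (fun _ => c 0))

/-- The image of a single bit. -/
def fib (F : List (ℕ × ℕ)) (b : ℕ) : List ℕ := (F.filter (fun p => p.1 = b)).map Prod.snd

theorem mem_fib {F : List (ℕ × ℕ)} {b b' : ℕ} : b' ∈ fib F b ↔ (b, b') ∈ F := by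
  simp only [fib, List.mem_map, List.mem_filter, decide_eq_true_eq]
  constructor
  · rintro ⟨p, ⟨h1, h2⟩, h3⟩
    rwa [← h2, ← h3]
  · intro h
    exact ⟨(b, b'), ⟨h, rfl⟩, rfl⟩

/-- The pattern of a transfer row. -/
def yrow (G : Game) (m j b : ℕ) (X : Bool) (m' : ℕ) : Tm :=
  .fn (5 + m) (cols G.n (G.J m) (fun b' => if b' = b then cX X else c 0)
    (fun j' => if j' = j then xrow G X m' (fib (G.br m j).1 b) else c 1))

/-- The pattern of a leaf row. -/
def lrow (G : Game) (m : ℕ) : Tm := .fn (5 + m) ((List.range G.n).map (fun _ => c 1))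

/-- The rules for move `m`. -/
def mrules (G : Game) (m : ℕ) : List Tm :=
  if G.J m = 0 then [lrow G m] else
    (List.range (G.J m)).flatMap (fun j => (List.range G.n).flatMap (fun b =>
      [false, true].flatMap (fun X => (G.br m j).2.map (fun m' => yrow G m j b X m'))))

/-- The left-hand sides of the rewriting system of the game. -/
def lhss (G : Game) : List Tm :=
  .fn 3 [c 1, c 1] :: .fn 4 [.var 0, c 1] ::
    ([false, true].flatMap (fun X => G.next0.map (fun m' => .fn 4 [cX X, xrow G X m' G.Z0])) ++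
      (List.range G.M).flatMap (fun m => mrules G m))

/-- The rewriting system of the game. -/
def trs (G : Game) : TRS := (lhss G).map (fun l => (l, c 0))

@[simp] theorem subst_c (σ : ℕ → Tm) (k : ℕ) : (c k).subst σ = c k := by simp [c]
@[simp] theorem subst_cX (σ : ℕ → Tm) (X : Bool) : (cX X).subst σ = cX X := by
  unfold cX
  split <;> simp
@[simp] theorem plug_c (D : Tm) (k : ℕ) : plug D (c k) = c k := by simp [c]
@[simp] theorem plug_cX (D : Tm) (X : Bool) : plug D (cX X) = cX X := by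
  unfold cX
  split <;> simp

theorem length_cols (n J : ℕ) (p q : ℕ → Tm) : (cols n J p q).length = n + J := by
  simp [cols]

theorem gt_cols_left {n J : ℕ} {p q : ℕ → Tm} {i : ℕ} (hi : i < n) :
    gt (cols n J p q) i = p i := by
  unfold gt cols
  rw [List.getD_append _ _ _ _ (by simpa using hi)]
  simp [hi]

theorem gt_cols_right {n J : ℕ} {p q : ℕ → Tm} {j : ℕ} (hj : j < J) :
    gt (cols n J p q) (n + j) = q j := by
  unfold gt cols
  rw [List.getD_append_right _ _ _ _ (by simp)]
  simp [hj]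

theorem map_cols (n J : ℕ) (p q : ℕ → Tm) (f : Tm → Tm) :
    (cols n J p q).map f = cols n J (fun i => f (p i)) (fun i => f (q i)) := by
  simp [cols, Function.comp_def]

theorem eq_cols_iff {n J : ℕ} {p q : ℕ → Tm} {us : List Tm} :
    us = cols n J p q ↔ us.length = n + J ∧ (∀ i < n, gt us i = p i) ∧
      ∀ j < J, gt us (n + j) = q j := by
  constructor
  · rintro rfl
    exact ⟨length_cols _ _ _ _, fun i hi => gt_cols_left hi, fun j hj => gt_cols_right hj⟩
  · rintro ⟨h1, h2, h3⟩
    apply list_ext_gt (by rw [h1, length_cols])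
    intro i hi
    by_cases hin : i < n
    · rw [gt_cols_left hin, h2 i hin]
    · obtain ⟨j, rfl⟩ : ∃ j, i = n + j := ⟨i - n, by omega⟩
      rw [gt_cols_right (by omega), h3 j (by omega)]

/-- `s` matches the killer pattern of type `X`. -/
def PatP (X : Bool) (s : Tm) : Prop :=
  ∃ v, s = if X then .fn 3 [c 0, v] else .fn 3 [v, c 0]

/-- The argument of a killer pattern. -/
def argP (X : Bool) : Tm → Tm
  | .node _ (_ + 2) ts => if X then ts 1 else ts 0
  | t => t

theorem argP_fn (X : Bool) (f : ℕ) (a b : Tm) :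
    argP X (.fn f [a, b]) = if X then b else a := rfl

theorem PatP.eq {X : Bool} {s : Tm} (h : PatP X s) :
    s = if X then .fn 3 [c 0, argP X s] else .fn 3 [argP X s, c 0] := by
  obtain ⟨v, rfl⟩ := h
  cases X <;> simp [argP_fn]

theorem pat_subst (X : Bool) (b : ℕ) (σ : ℕ → Tm) :
    (pat X b).subst σ = if X then .fn 3 [c 0, σ b] else .fn 3 [σ b, c 0] := by
  cases X <;> simp [pat]

/-- `u` matches the killer row for move `m` with set of bits `D`. -/
def IsX (G : Game) (X : Bool) (m : ℕ) (D : ℕ → Prop) (u : Tm) : Prop :=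
  ∃ us, u = .fn (5 + m) us ∧ us.length = G.n + G.J m ∧
    (∀ i < G.n, (D i → PatP X (gt us i)) ∧ (¬ D i → gt us i = c 0)) ∧
    ∀ j < G.J m, gt us (G.n + j) = c 0

/-- The substitution matching a killer row. -/
def sigX (X : Bool) (us : List Tm) : ℕ → Tm := fun b => argP X (gt us b)

theorem IsX.eq {G : Game} {X : Bool} {m : ℕ} {D : List ℕ} {us : List Tm}
    (h : IsX G X m (fun b => b ∈ D) (.fn (5 + m) us)) :
    Tm.fn (5 + m) us = (xrow G X m D).subst (sigX X us) := by
  obtain ⟨us', h0, h1, h2, h3⟩ := h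
  have h0 := (Tm.fn_inj h0).2
  subst h0
  rw [xrow, subst_fn, map_cols]
  congr 1
  rw [eq_cols_iff]
  refine ⟨h1, fun i hi => ?_, fun j hj => by rw [h3 j hj]; simp⟩
  by_cases hD : i ∈ D
  · simp only [hD, if_true]
    rw [pat_subst]
    exact ((h2 i hi).1 hD).eq
  · simp only [hD, if_false]
    rw [(h2 i hi).2 hD]
    simp

theorem isX_of_subst {G : Game} {X : Bool} {m : ℕ} {D : List ℕ} {σ : ℕ → Tm} :
    IsX G X m (fun b => b ∈ D) ((xrow G X m D).subst σ) := by
  rw [xrow, subst_fn, map_cols]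
  refine ⟨_, rfl, length_cols _ _ _ _, fun i hi => ?_, fun j hj => ?_⟩
  · rw [gt_cols_left hi]
    constructor
    · intro hD
      simp only [hD, if_true]
      rw [pat_subst]
      exact ⟨σ i, rfl⟩
    · intro hD
      simp only [hD, if_false]
      simp
  · rw [gt_cols_right hj]
    simp

/-- `fn (5 + m) us` matches a transfer row. -/
def YMatch (G : Game) (m j b : ℕ) (X : Bool) (m' : ℕ) (us : List Tm) : Prop :=
  us.length = G.n + G.J m ∧ (∀ i < G.n, gt us i = if i = b then cX X else c 0) ∧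
    (∀ j' < G.J m, j' ≠ j → gt us (G.n + j') = c 1) ∧
    IsX G X m' (fun b' => (b, b') ∈ (G.br m j).1) (gt us (G.n + j))

theorem isX_congr {G : Game} {X : Bool} {m : ℕ} {D D' : ℕ → Prop} {u : Tm}
    (h : ∀ b < G.n, D b ↔ D' b) : IsX G X m D u ↔ IsX G X m D' u := by
  unfold IsX
  constructor
  · rintro ⟨us, h1, h2, h3, h4⟩
    exact ⟨us, h1, h2, fun i hi => ⟨fun hD => (h3 i hi).1 ((h i hi).2 hD),
      fun hD => (h3 i hi).2 (fun hD' => hD ((h i hi).1 hD'))⟩, h4⟩
  · rintro ⟨us, h1, h2, h3, h4⟩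
    exact ⟨us, h1, h2, fun i hi => ⟨fun hD => (h3 i hi).1 ((h i hi).1 hD),
      fun hD => (h3 i hi).2 (fun hD' => hD ((h i hi).2 hD'))⟩, h4⟩

theorem yrow_match {G : Game} {m j b : ℕ} {X : Bool} {m' : ℕ} (hj : j < G.J m) {u : Tm} :
    (∃ σ, u = (yrow G m j b X m').subst σ) ↔ ∃ us, u = .fn (5 + m) us ∧ YMatch G m j b X m' us := by
  constructor
  · rintro ⟨σ, rfl⟩
    rw [yrow, subst_fn, map_cols]
    refine ⟨_, rfl, length_cols _ _ _ _, fun i hi => ?_, fun j' hj' hne => ?_, ?_⟩
    · rw [gt_cols_left hi]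
      split <;> simp
    · rw [gt_cols_right hj', if_neg hne]
      simp
    · rw [gt_cols_right hj, if_pos rfl]
      rw [← isX_congr (D := fun b' => b' ∈ fib (G.br m j).1 b) (fun b' _ => mem_fib)]
      exact isX_of_subst
  · rintro ⟨us, rfl, h1, h2, h3, h4⟩
    rw [← isX_congr (D := fun b' => b' ∈ fib (G.br m j).1 b) (fun b' _ => mem_fib)] at h4
    obtain ⟨vs, hv, -⟩ := id h4
    refine ⟨sigX X vs, ?_⟩
    rw [yrow, subst_fn, map_cols]
    congr 1
    rw [eq_cols_iff]
    refine ⟨h1, fun i hi => ?_, fun j' hj' => ?_⟩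
    · rw [h2 i hi]
      split <;> simp
    · by_cases hjj : j' = j
      · subst hjj
        rw [if_pos rfl, hv]
        rw [hv] at h4
        exact h4.eq
      · rw [h3 j' hj' hjj, if_neg hjj]
        simp

theorem cX_ne (X : Bool) : cX X ≠ c 0 := by
  cases X <;> simp [cX, c]

theorem cX_inj {X X' : Bool} (h : cX X = cX X') : X = X' := by
  cases X <;> cases X' <;> simp_all [cX, c]

/-- All redexes of the system. -/
theorem redex_iff {G : Game} {u : Tm} : IsRedex (trs G) u ↔
    u = .fn 3 [c 1, c 1] ∨ (∃ v, u = .fn 4 [v, c 1]) ∨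
    (∃ X, ∃ m ∈ G.next0, ∃ v, u = .fn 4 [cX X, v] ∧ IsX G X m (fun b => b ∈ G.Z0) v) ∨
    (∃ m < G.M, G.J m = 0 ∧ u = .fn (5 + m) ((List.range G.n).map (fun _ => c 1))) ∨
    (∃ m < G.M, ∃ j < G.J m, ∃ b < G.n, ∃ X, ∃ m' ∈ (G.br m j).2, ∃ us, u = .fn (5 + m) us ∧
      YMatch G m j b X m' us) := by
  have h0 : IsRedex (trs G) u ↔ ∃ l ∈ lhss G, ∃ σ : ℕ → Tm, u = l.subst σ := by
    simp [IsRedex, trs]
  rw [h0]
  constructor
  · rintro ⟨l, hl, σ, rfl⟩
    rw [lhss, List.mem_cons, List.mem_cons, List.mem_append, List.mem_flatMap,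
      List.mem_flatMap] at hl
    rcases hl with rfl | rfl | ⟨X, _, hl⟩ | ⟨m, hm, hl⟩
    · left
      simp
    · right; left
      exact ⟨σ 0, by simp⟩
    · right; right; left
      rw [List.mem_map] at hl
      obtain ⟨m, hm, rfl⟩ := hl
      exact ⟨X, m, hm, _, by simp; rfl, isX_of_subst⟩
    · rw [List.mem_range] at hm
      right; right; right
      unfold mrules at hl
      split at hl
      · rename_i hJ
        left
        rw [List.mem_singleton] at hl
        subst hl
        exact ⟨m, hm, hJ, by simp [lrow, Function.comp_def]⟩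
      · rw [List.mem_flatMap] at hl
        obtain ⟨j, hj, hl⟩ := hl
        rw [List.mem_flatMap] at hl
        obtain ⟨b, hb, hl⟩ := hl
        rw [List.mem_flatMap] at hl
        obtain ⟨X, _, hl⟩ := hl
        rw [List.mem_map] at hl
        obtain ⟨m', hm', rfl⟩ := hl
        rw [List.mem_range] at hj hb
        right
        obtain ⟨us, h1, h2⟩ := (yrow_match hj (u := (yrow G m j b X m').subst σ)).1 ⟨σ, rfl⟩
        exact ⟨m, hm, j, hj, b, hb, X, m', hm', us, h1, h2⟩
  · rintro (rfl | ⟨v, rfl⟩ | ⟨X, m, hm, v, rfl, hv⟩ | ⟨m, hm, hJ, rfl⟩ |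
      ⟨m, hm, j, hj, b, hb, X, m', hm', us, rfl, hus⟩)
    · exact ⟨.fn 3 [c 1, c 1], by simp [lhss], fun _ => .bul, by simp⟩
    · exact ⟨.fn 4 [.var 0, c 1], by simp [lhss], fun _ => v, by simp⟩
    · obtain ⟨vs, hvs, -⟩ := id hv
      refine ⟨.fn 4 [cX X, xrow G X m G.Z0], ?_, sigX X vs, ?_⟩
      · rw [lhss, List.mem_cons, List.mem_cons, List.mem_append]
        right; right; left
        rw [List.mem_flatMap]
        exact ⟨X, by cases X <;> simp, List.mem_map_of_mem hm⟩
      · rw [hvs] at hv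
        simp only [subst_fn, List.map_cons, List.map_nil, subst_cX]
        rw [hvs, hv.eq]
    · refine ⟨lrow G m, ?_, fun _ => .bul, by simp [lrow, Function.comp_def]⟩
      rw [lhss, List.mem_cons, List.mem_cons, List.mem_append]
      right; right; right
      rw [List.mem_flatMap]
      exact ⟨m, List.mem_range.2 hm, by simp [mrules, hJ]⟩
    · obtain ⟨σ, hσ⟩ := (yrow_match hj).2 ⟨us, rfl, hus⟩
      refine ⟨_, ?_, σ, hσ⟩
      rw [lhss, List.mem_cons, List.mem_cons, List.mem_append]
      right; right; right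
      rw [List.mem_flatMap]
      refine ⟨m, List.mem_range.2 hm, ?_⟩
      rw [mrules, if_neg (by omega), List.mem_flatMap]
      refine ⟨j, List.mem_range.2 hj, ?_⟩
      rw [List.mem_flatMap]
      refine ⟨b, List.mem_range.2 hb, ?_⟩
      rw [List.mem_flatMap]
      exact ⟨X, by cases X <;> simp, List.mem_map_of_mem hm'⟩

end Pool.Agent.H820R2.SS
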