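import Pool.Agent.H628R2.FPTW
import Pool.Agent.NPC.Dec
import Pool.Agent.H820R2.SS.Gen
import Pool.Agent.H820R2.SS.Exp

/-!
# Generation of states is decidable in exponential time
-/

namespace Pool.Agent.H820R2.SS

open Pool.Agent.NPC Turing

/-- All bit strings of a given length. -/
def allB : ℕ → List (List Bool)
  | 0 => [[]]
  | n + 1 => (allB n).flatMap (fun c => [false :: c, true :: c])

theorem mem_allB : ∀ {n : ℕ} {c : List Bool}, c ∈ allB n ↔ c.length = n
  | 0, c => by simp [allB]
  | n + 1, c => by
    rw [allB, List.mem_flatMap]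
    constructor
    · rintro ⟨d, hd, hc⟩
      rw [mem_allB] at hd
      simp only [List.mem_cons, List.not_mem_nil, or_false] at hc
      rcases hc with rfl | rfl <;> simp [hd]
    · intro h
      cases c with
      | nil => simp at h
      | cons b c =>
        refine ⟨c, mem_allB.2 (by simpa using h), ?_⟩
        cases b <;> simp

theorem length_allB (n : ℕ) : (allB n).length = 2 ^ n := by
  induction n with
  | zero => rfl
  | succ n ih =>
    rw [allB, List.length_flatMap]
    simp [ih, pow_succ]

/-- All lists over `D` of length at most `n`. -/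
def tup (D : List (List Bool)) : ℕ → List (List (List Bool))
  | 0 => [[]]
  | n + 1 => [] :: (tup D n).flatMap (fun cs => D.map (fun c => c :: cs))

theorem mem_tup {D : List (List Bool)} : ∀ {n : ℕ} {cs : List (List Bool)},
    cs ∈ tup D n ↔ cs.length ≤ n ∧ ∀ c ∈ cs, c ∈ D
  | 0, cs => by
    rw [tup, List.mem_singleton]
    constructor
    · rintro rfl
      simp
    · rintro ⟨h, _⟩
      exact List.length_eq_zero_iff.1 (by omega)
  | n + 1, cs => by
    rw [tup, List.mem_cons, List.mem_flatMap]
    constructor
    · rintro (rfl | ⟨ds, hds, hcs⟩)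
      · simp
      · rw [mem_tup] at hds
        rw [List.mem_map] at hcs
        obtain ⟨c, hc, rfl⟩ := hcs
        refine ⟨by simpa using hds.1, fun d hd => ?_⟩
        rw [List.mem_cons] at hd
        rcases hd with rfl | hd
        · exact hc
        · exact hds.2 d hd
    · rintro ⟨h1, h2⟩
      cases cs with
      | nil => exact Or.inl rfl
      | cons c cs =>
        refine Or.inr ⟨cs, mem_tup.2 ⟨by simpa using h1, fun d hd => h2 d (by simp [hd])⟩, ?_⟩
        rw [List.mem_map]
        exact ⟨c, h2 c (by simp), rfl⟩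

theorem length_tup (D : List (List Bool)) (n : ℕ) : (tup D n).length ≤ (D.length + 1) ^ n := by
  induction n with
  | zero => simp [tup]
  | succ n ih =>
    rw [tup, List.length_cons, List.length_flatMap]
    simp only [List.length_map, List.map_const', List.sum_replicate, smul_eq_mul]
    have h1 : 1 ≤ (D.length + 1) ^ n := Nat.one_le_pow _ _ (by omega)
    rw [pow_succ]
    nlinarith [Nat.mul_le_mul_right D.length ih]

variable {A : Type} (m : A → ℕ) (loc : A → List Bool → List (List Bool) → Bool)

/-- One round: all states that pass the local test with states of `D`. -/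
def stepG (a : A) (D : List (List Bool)) : List (List Bool) :=
  (allB (m a)).filter (fun c =>
    (tup ((allB (m a)).filter (fun c => decide (c ∈ D))) (m a)).any (fun cs => loc a c cs))

theorem mem_stepG {a : A} {D : List (List Bool)} {c : List Bool} : c ∈ stepG m loc a D ↔
    c.length = m a ∧ ∃ cs : List (List Bool), cs.length ≤ m a ∧
      (∀ c' ∈ cs, c' ∈ D ∧ c'.length = m a) ∧ loc a c cs = true := by
  unfold stepG
  rw [List.mem_filter, mem_allB, List.any_eq_true]
  refine and_congr_right fun _ => exists_congr fun cs => ?_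
  rw [mem_tup]
  constructor
  · rintro ⟨⟨h1, h2⟩, h3⟩
    refine ⟨h1, fun c' hc' => ?_, h3⟩
    have := h2 c' hc'
    rw [List.mem_filter, mem_allB, decide_eq_true_iff] at this
    exact ⟨this.2, this.1⟩
  · rintro ⟨h1, h2, h3⟩
    refine ⟨⟨h1, fun c' hc' => ?_⟩, h3⟩
    rw [List.mem_filter, mem_allB, decide_eq_true_iff]
    exact ⟨(h2 c' hc').2, (h2 c' hc').1⟩

/-- The rounds. -/
def rnd (a : A) (k : ℕ) : List (List Bool) := (stepG m loc a)^[k] []

theorem rnd_succ (a : A) (k : ℕ) : rnd m loc a (k + 1) = stepG m loc a (rnd m loc a k) := by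
  unfold rnd
  rw [Function.iterate_succ_apply']

theorem rnd_mono (a : A) (k : ℕ) : ∀ c ∈ rnd m loc a k, c ∈ rnd m loc a (k + 1) := by
  induction k with
  | zero => intro c hc; simp [rnd] at hc
  | succ k ih =>
    intro c hc
    rw [rnd_succ, mem_stepG] at hc
    rw [rnd_succ, mem_stepG]
    obtain ⟨h1, cs, h2, h3, h4⟩ := hc
    exact ⟨h1, cs, h2, fun c' hc' => ⟨ih c' (h3 c' hc').1, (h3 c' hc').2⟩, h4⟩

theorem stepG_sublist {a : A} {D E : List (List Bool)} (h : ∀ c ∈ D, c ∈ E) :
    List.Sublist (stepG m loc a D) (stepG m loc a E) := by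
  unfold stepG
  apply List.monotone_filter_right
  intro c hc
  rw [List.any_eq_true] at hc ⊢
  obtain ⟨cs, h1, h2⟩ := hc
  refine ⟨cs, ?_, h2⟩
  rw [mem_tup] at h1 ⊢
  refine ⟨h1.1, fun c' hc' => ?_⟩
  have := h1.2 c' hc'
  rw [List.mem_filter, decide_eq_true_iff] at this ⊢
  exact ⟨this.1, h _ this.2⟩

theorem rnd_sublist (a : A) (k : ℕ) : List.Sublist (rnd m loc a k) (rnd m loc a (k + 1)) := by
  induction k with
  | zero => exact List.nil_sublist _
  | succ k ih =>
    rw [rnd_succ m loc a k, rnd_succ m loc a (k + 1)]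
    exact stepG_sublist m loc (fun c hc => ih.subset hc)

theorem rnd_length_le (a : A) (k : ℕ) : (rnd m loc a k).length ≤ 2 ^ m a := by
  cases k with
  | zero => simp [rnd]
  | succ k =>
    rw [rnd_succ, ← length_allB]
    exact List.length_filter_le _ _

theorem rnd_stable_succ {a : A} {k : ℕ} (h : rnd m loc a k = rnd m loc a (k + 1)) :
    ∀ j, k ≤ j → rnd m loc a j = rnd m loc a k := by
  intro j hj
  induction j, hj using Nat.le_induction with
  | base => rfl
  | succ j hj ih => rw [rnd_succ, ih, ← rnd_succ, ← h]

theorem rnd_dich (a : A) (k : ℕ) : (∃ j ≤ k, rnd m loc a j = rnd m loc a (j + 1)) ∨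
    k < (rnd m loc a (k + 1)).length := by
  induction k with
  | zero =>
    by_cases h : rnd m loc a 0 = rnd m loc a 1
    · exact Or.inl ⟨0, le_rfl, h⟩
    · right
      have : rnd m loc a 0 = [] := rfl
      rw [this] at h
      exact List.length_pos_iff.2 (fun h' => h h'.symm)
  | succ k ih =>
    rcases ih with ⟨j, hj, h⟩ | ih
    · exact Or.inl ⟨j, by omega, h⟩
    · by_cases h : rnd m loc a (k + 1) = rnd m loc a (k + 1 + 1)
      · exact Or.inl ⟨k + 1, le_rfl, h⟩
      · right
        have h1 := rnd_sublist m loc a (k + 1)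
        have h2 := h1.length_le
        have h3 : (rnd m loc a (k + 1)).length ≠ (rnd m loc a (k + 1 + 1)).length :=
          fun h4 => h (h1.eq_of_length h4)
        omega

theorem rnd_stable (a : A) {k : ℕ} (hk : 2 ^ m a ≤ k) :
    rnd m loc a k = rnd m loc a (2 ^ m a) := by
  rcases rnd_dich m loc a (2 ^ m a) with ⟨j, hj, h⟩ | h
  · have h1 := rnd_stable_succ m loc h
    rw [h1 k (by omega), h1 _ hj]
  · have := rnd_length_le m loc a (2 ^ m a + 1)
    omega

/-- The decision function. -/
def genB (start : A → List Bool) (a : A) : Bool :=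
  decide (start a ∈ rnd m loc a (2 ^ m a))

theorem genB_iff (start : A → List Bool) (a : A) :
    genB m loc start a = true ↔ Gen m loc a (start a) := by
  unfold genB
  rw [decide_eq_true_iff]
  constructor
  · have key : ∀ k c, c ∈ rnd m loc a k → Gen m loc a c := by
      intro k
      induction k with
      | zero => intro c hc; simp [rnd] at hc
      | succ k ih =>
        intro c hc
        rw [rnd_succ, mem_stepG] at hc
        obtain ⟨h1, cs, h2, h3, h4⟩ := hc
        exact Gen.mk c cs h1 h2 h4 (fun c' hc' => ih c' (h3 c' hc').1)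
    exact key _ _
  · intro h
    generalize start a = c0 at h ⊢
    induction h with
    | mk c cs h1 h2 h3 h4 ih =>
      rw [← rnd_stable m loc a (Nat.le_succ _), Nat.succ_eq_add_one, rnd_succ, mem_stepG]
      refine ⟨h1, cs, h2, fun c' hc' => ⟨ih c' hc', ?_⟩, h3⟩
      cases h4 c' hc' with
      | mk _ _ h1 => exact h1

/-! ### Polynomial time on padded inputs -/

section poly

variable [TEnc A]

/-- The padded inputs. -/
abbrev Pad (m : A → ℕ) : Type :=
  {x : A × List Unit // 2 ^ ((m x.1 + 1) * (m x.1 + 1)) ≤ x.2.length}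

variable {m}

theorem two_pow_le_pad (x : Pad m) : 2 ^ m x.1.1 ≤ x.1.2.length := by
  refine (Nat.pow_le_pow_right (by norm_num) ?_).trans x.2
  nlinarith

theorem m_le_pad (x : Pad m) : m x.1.1 ≤ x.1.2.length :=
  (Nat.lt_two_pow_self).le.trans (two_pow_le_pad x)

theorem pad_le_sz (x : Pad m) : x.1.2.length ≤ sz x := by
  have h1 := length_lt_sz x.1.2
  have h2 : sz x = sz x.1.1 + sz x.1.2 + 1 := sz_pair x.1.1 x.1.2
  omega

theorem upoly_m (hm : UPoly m) : UPoly (fun x : Pad m => m x.1.1) :=
  hm.comp (Poly.fst (Poly.val _))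

theorem sz_le_of_len {l : List (List Bool)} {n k : ℕ} (hl : l.length ≤ n)
    (h : ∀ c ∈ l, c.length ≤ k) : sz l ≤ n * (4 * k + 2) + 1 := by
  refine (sz_le_length_mul l (4 * k + 1) fun c hc => ?_).trans ?_
  · refine (sz_listBool_le c).trans ?_
    have := h c hc
    omega
  · exact Nat.succ_le_succ (Nat.mul_le_mul_right _ hl)

theorem poly_allB (hm : UPoly m) : NPC.Poly (fun x : Pad m => allB (m x.1.1)) := by
  have hF : NPC.Poly (fun p : Pad m × List (List Bool) =>
      p.2.flatMap (fun c => [false :: c, true :: c])) :=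
    Poly.flatMap (F := fun _ c => [false :: c, true :: c]) (Poly.snd Poly.id)
      (Poly.cons (Poly.cons (NPC.Poly.const false) (Poly.snd Poly.id))
        (Poly.cons (Poly.cons (NPC.Poly.const true) (Poly.snd Poly.id)) (NPC.Poly.const [])))
  have key : ∀ n, (fun l : List (List Bool) => l.flatMap (fun c => [false :: c, true :: c]))^[n]
      [[]] = allB n := by
    intro n
    induction n with
    | zero => rfl
    | succ n ih => rw [Function.iterate_succ_apply', ih, allB]
  refine (Poly.iterLen (l := fun x : Pad m => List.replicate (m x.1.1) ()) (s := fun _ => [[]])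
    (F := fun _ l => l.flatMap (fun c => [false :: c, true :: c])) (upoly_m hm) (NPC.Poly.const _) hF
    (Polynomial.X * (Polynomial.C 4 * Polynomial.X + Polynomial.C 2) + Polynomial.C 1) ?_).congr ?_
  · intro x k hk
    rw [key]
    rw [List.length_replicate] at hk
    simp only [Polynomial.eval_add, Polynomial.eval_mul, Polynomial.eval_C, Polynomial.eval_X]
    refine (sz_le_of_len (n := x.1.2.length) (k := x.1.2.length) ?_ ?_).trans ?_
    · rw [length_allB]
      exact (Nat.pow_le_pow_right (by norm_num) hk).trans (two_pow_le_pad x)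
    · intro c hc
      rw [mem_allB] at hc
      rw [hc]
      exact hk.trans (m_le_pad x)
    · have := pad_le_sz x
      gcongr
  · intro x
    rw [List.length_replicate, key]

theorem poly_tup (hm : UPoly m) : NPC.Poly (fun p : Pad m × List (List Bool) =>
    tup ((allB (m p.1.1.1)).filter (fun c => decide (c ∈ p.2))) (m p.1.1.1)) := by
  have hD : NPC.Poly (fun p : Pad m × List (List Bool) =>
      (allB (m p.1.1.1)).filter (fun c => decide (c ∈ p.2))) :=
    Poly.filter (p := fun (p : Pad m × List (List Bool)) c => decide (c ∈ p.2))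
      ((poly_allB hm).comp (Poly.fst Poly.id))
      ((Poly.decide_mem (Poly.snd Poly.id) (Poly.snd (Poly.fst Poly.id))).congr
        fun a => by congr)
  have hF : NPC.Poly (fun q : (Pad m × List (List Bool)) × List (List (List Bool)) =>
      ([] : List (List Bool)) :: q.2.flatMap (fun cs =>
        ((allB (m q.1.1.1.1)).filter (fun c => decide (c ∈ q.1.2))).map (fun c => c :: cs))) := by
    refine Poly.cons (NPC.Poly.const []) ?_
    refine Poly.flatMap (F := fun (q : (Pad m × List (List Bool)) × List (List (List Bool))) cs =>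
      ((allB (m q.1.1.1.1)).filter (fun c => decide (c ∈ q.1.2))).map (fun c => c :: cs))
      (Poly.snd Poly.id) ?_
    refine NPC.Poly.map (F := fun (r : ((Pad m × List (List Bool)) × List (List (List Bool))) ×
      List (List Bool)) c => c :: r.2) (hD.comp (Poly.fst (Poly.fst Poly.id))) ?_
    exact Poly.cons (Poly.snd Poly.id) (Poly.snd (Poly.fst Poly.id))
  have key : ∀ (D : List (List Bool)) (n : ℕ),
      (fun T : List (List (List Bool)) => ([] : List (List Bool)) ::
        T.flatMap (fun cs => D.map (fun c => c :: cs)))^[n] [[]] = tup D n := by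
    intro D n
    induction n with
    | zero => rfl
    | succ n ih => rw [Function.iterate_succ_apply', ih, tup]
  refine (Poly.iterLen (l := fun p : Pad m × List (List Bool) => List.replicate (m p.1.1.1) ())
    (s := fun _ => [[]])
    (F := fun p T => ([] : List (List Bool)) :: T.flatMap (fun cs =>
        ((allB (m p.1.1.1)).filter (fun c => decide (c ∈ p.2))).map (fun c => c :: cs)))
    ((upoly_m hm).comp (Poly.fst Poly.id)) (NPC.Poly.const _) hF
    (Polynomial.X * (Polynomial.X * (Polynomial.C 4 * Polynomial.X + Polynomial.C 2) +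
      Polynomial.C 2) + Polynomial.C 1) ?_).congr ?_
  · rintro ⟨x, D⟩ k hk
    rw [key]
    rw [List.length_replicate] at hk
    dsimp only at hk ⊢
    simp only [Polynomial.eval_add, Polynomial.eval_mul, Polynomial.eval_C, Polynomial.eval_X]
    have hsz : x.1.2.length ≤ sz (x, D) := by
      have h1 := pad_le_sz x
      have h2 := sz_pair x D
      omega
    have hlen : (tup ((allB (m x.1.1)).filter (fun c => decide (c ∈ D))) k).length ≤
        x.1.2.length := by
      refine (length_tup _ _).trans (le_trans ?_ x.2)
      have h1 : ((allB (m x.1.1)).filter (fun c => decide (c ∈ D))).length + 1 ≤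
          2 ^ (m x.1.1 + 1) := by
        have h2 := List.length_filter_le (fun c => decide (c ∈ D)) (allB (m x.1.1))
        rw [length_allB] at h2
        have h3 : 1 ≤ 2 ^ m x.1.1 := Nat.one_le_two_pow
        rw [pow_succ]
        omega
      refine (Nat.pow_le_pow_left h1 k).trans ?_
      rw [← pow_mul]
      apply Nat.pow_le_pow_right (by norm_num)
      exact Nat.mul_le_mul_left _ (by omega)
    refine (sz_le_length_mul _ (x.1.2.length * (4 * x.1.2.length + 2) + 1) ?_).trans ?_
    · intro cs hcs
      rw [mem_tup] at hcs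
      refine sz_le_of_len (hcs.1.trans (hk.trans (m_le_pad x))) fun c hc => ?_
      have := hcs.2 c hc
      rw [List.mem_filter, mem_allB] at this
      rw [this.1]
      exact m_le_pad x
    · calc _ ≤ x.1.2.length * (x.1.2.length * (4 * x.1.2.length + 2) + 2) + 1 :=
          Nat.succ_le_succ (Nat.mul_le_mul_right _ hlen)
        _ ≤ sz (x, D) * (sz (x, D) * (4 * sz (x, D) + 2) + 2) + 1 := by gcongr
  · rintro ⟨x, D⟩
    rw [List.length_replicate, key]

theorem poly_stepG (hm : UPoly m) {loc : A → List Bool → List (List Bool) → Bool}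
    (hloc : NPC.Poly (fun q : A × List Bool × List (List Bool) => loc q.1 q.2.1 q.2.2)) :
    NPC.Poly (fun p : Pad m × List (List Bool) => stepG m loc p.1.1.1 p.2) := by
  unfold stepG
  refine Poly.filter (p := fun (p : Pad m × List (List Bool)) c =>
    (tup ((allB (m p.1.1.1)).filter (fun c => decide (c ∈ p.2))) (m p.1.1.1)).any
      (fun cs => loc p.1.1.1 c cs)) ((poly_allB hm).comp (Poly.fst Poly.id)) ?_
  refine Poly.any (p := fun (q : (Pad m × List (List Bool)) × List Bool) cs =>
    loc q.1.1.1.1 q.2 cs) ((poly_tup hm).comp (Poly.fst Poly.id)) ?_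
  exact hloc.comp (Poly.pair (Poly.fst ((Poly.val _).comp (Poly.fst (Poly.fst (Poly.fst Poly.id)))))
    (Poly.pair (Poly.snd (Poly.fst Poly.id)) (Poly.snd Poly.id)))

theorem poly_genB (hm : UPoly m) {loc : A → List Bool → List (List Bool) → Bool}
    (hloc : NPC.Poly (fun q : A × List Bool × List (List Bool) => loc q.1 q.2.1 q.2.2))
    {start : A → List Bool} (hs : NPC.Poly start) :
    NPC.Poly (fun x : Pad m => genB m loc start x.1.1) := by
  have h1 : NPC.Poly (fun x : Pad m => rnd m loc x.1.1 x.1.2.length) := by
    unfold rnd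
    refine Poly.iterLen (l := fun x : Pad m => x.1.2) (s := fun _ => ([] : List (List Bool)))
      (F := fun x D => stepG m loc x.1.1 D) (Poly.snd (Poly.val _)) (NPC.Poly.const _)
      (poly_stepG hm hloc)
      (Polynomial.X * (Polynomial.C 4 * Polynomial.X + Polynomial.C 2) + Polynomial.C 1) ?_
    intro x k _
    simp only [Polynomial.eval_add, Polynomial.eval_mul, Polynomial.eval_C, Polynomial.eval_X]
    refine (sz_le_of_len (n := x.1.2.length) (k := x.1.2.length) ?_ ?_).trans ?_
    · exact (rnd_length_le m loc x.1.1 k).trans (two_pow_le_pad x)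
    · intro c hc
      have hc' : c ∈ rnd m loc x.1.1 k := hc
      cases k with
      | zero => simp [rnd] at hc'
      | succ k =>
        rw [rnd_succ, mem_stepG] at hc'
        rw [hc'.1]
        exact m_le_pad x
    · have := pad_le_sz x
      gcongr
  refine (Poly.decide_mem (hs.comp (Poly.fst (Poly.val _))) h1).congr fun x => ?_
  unfold genB
  rw [rnd_stable m loc x.1.1 (two_pow_le_pad x)]
  congr

end poly

end Pool.Agent.H820R2.SS
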