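import Pool.Agent.H671R2.BSat
import Pool.Agent.NPC.Dec
import Pool.Agent.H820R2.SS.ARM

/-!
# Satisfiability and unsatisfiability as acceptance of alternating register machines
-/

namespace Pool.Agent.H820R2.SS

open Pool.Agent.NPC Pool.Agent.NPC.R671

theorem der_iff {P : List ARule} {q : ℕ} {ρ : ℕ → Bool} : Der P q ρ ↔
    ∃ r ∈ P, r.1 = q ∧ (∀ g ∈ r.2.1, ρ g.1 = g.2) ∧ ∀ s ∈ r.2.2, Der P s.1 (upd ρ s.2) := by
  constructor
  · intro h
    cases h with
    | mk r _ hr hg hp => exact ⟨r, hr, rfl, hg, hp⟩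
  · rintro ⟨r, hr, rfl, hg, hp⟩
    exact Der.mk r ρ hr hg hp

theorem upd_single (ρ : ℕ → Bool) (i : ℕ) (v : Bool) (k : ℕ) :
    upd ρ [(i, v)] k = if k = i then v else ρ k := by
  by_cases h : k = i
  · subst h
    simp [upd]
  · have : (k == i) = false := by simpa using h
    simp [upd, List.lookup, this, h]

/-- A formula in conjunctive normal form. -/
abbrev Fml : Type := List (List (Bool × ℕ))

/-- Number of variables. -/
def nv (φ : Fml) : ℕ := φ.flatten.length

/-- Rules of the machine for satisfiability. -/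
def satRules (φ : Fml) : List ARule :=
  (List.range (nv φ)).map (fun i => (i, [], [(i + 1, [(i, true)])])) ++
  ((List.range (nv φ)).map (fun i => (i, [], [(i + 1, [(i, false)])])) ++
  ((nv φ, [], (List.range φ.length).map (fun j => (nv φ + 1 + j, []))) ::
  (φ.zipIdx.flatMap (fun p => (p.1.filter (fun l => l.2 < nv φ)).map
    (fun l => (nv φ + 1 + p.2, [(l.2, l.1)], []))))))

/-- The machine for satisfiability. -/
def satARM (φ : Fml) : ARM := (φ.flatten.map (fun _ => ()), 0, satRules φ)

/-- Rules of the machine for unsatisfiability. -/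
def unsatRules (φ : Fml) : List ARule :=
  (List.range (nv φ)).map (fun i => (i, [], [(i + 1, [(i, true)]), (i + 1, [(i, false)])])) ++
  φ.map (fun C => (nv φ, (C.filter (fun l => l.2 < nv φ)).map (fun l => (l.2, !l.1)), []))

/-- The machine for unsatisfiability. -/
def unsatARM (φ : Fml) : ARM := (φ.flatten.map (fun _ => ()), 0, unsatRules φ)

theorem satARM_pr (φ : Fml) : ARMPr (satARM φ) := by
  have hN : (satARM φ).1.length = nv φ := by simp [satARM, nv, Function.comp_def]
  intro r hr
  rw [hN]
  simp only [satARM, satRules, List.mem_append, List.mem_map, List.mem_range, List.mem_cons,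
    List.mem_flatMap, List.mem_filter, decide_eq_true_eq] at hr
  rcases hr with ⟨i, hi, rfl⟩ | ⟨i, hi, rfl⟩ | rfl | ⟨p, _, l, ⟨_, hl⟩, rfl⟩
  · refine ⟨by simp, fun s hs u hu => ?_⟩
    simp only [List.mem_singleton] at hs
    subst hs
    simp only [List.mem_singleton] at hu
    subst hu
    exact hi
  · refine ⟨by simp, fun s hs u hu => ?_⟩
    simp only [List.mem_singleton] at hs
    subst hs
    simp only [List.mem_singleton] at hu
    subst hu
    exact hi
  · refine ⟨by simp, fun s hs u hu => ?_⟩
    simp only [List.mem_map] at hs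
    obtain ⟨_, _, rfl⟩ := hs
    simp at hu
  · refine ⟨fun g hg => ?_, by simp⟩
    simp only [List.mem_singleton] at hg
    subst hg
    exact hl

theorem unsatARM_pr (φ : Fml) : ARMPr (unsatARM φ) := by
  have hN : (unsatARM φ).1.length = nv φ := by simp [unsatARM, nv, Function.comp_def]
  intro r hr
  rw [hN]
  simp only [unsatARM, unsatRules, List.mem_append, List.mem_map, List.mem_range] at hr
  rcases hr with ⟨i, hi, rfl⟩ | ⟨C, _, rfl⟩
  · refine ⟨by simp, fun s hs u hu => ?_⟩
    simp only [List.mem_cons, List.not_mem_nil, or_false] at hs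
    rcases hs with rfl | rfl
    · simp only [List.mem_singleton] at hu
      subst hu
      exact hi
    · simp only [List.mem_singleton] at hu
      subst hu
      exact hi
  · refine ⟨fun g hg => ?_, by simp⟩
    simp only [List.mem_map, List.mem_filter, decide_eq_true_eq] at hg
    obtain ⟨l, ⟨_, hl⟩, rfl⟩ := hg
    exact hl

theorem sat_der (φ : Fml) (d : ℕ) : ∀ (i : ℕ) (ρ : ℕ → Bool), i + d = nv φ →
    (Der (satRules φ) i ρ ↔ ∃ σ : ℕ → Bool, (∀ k, k < i ∨ nv φ ≤ k → σ k = ρ k) ∧
      ∀ C ∈ φ, ∃ l ∈ C, l.2 < nv φ ∧ σ l.2 = l.1) := by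
  induction d with
  | zero =>
    intro i ρ hi
    have hi : i = nv φ := by omega
    subst hi
    have hcl : ∀ j, (∃ r ∈ satRules φ, r.1 = nv φ + 1 + j ∧ (∀ g ∈ r.2.1, ρ g.1 = g.2) ∧
        ∀ s ∈ r.2.2, Der (satRules φ) s.1 (upd ρ s.2)) ↔
        ∃ h : j < φ.length, ∃ l ∈ φ[j], l.2 < nv φ ∧ ρ l.2 = l.1 := by
      intro j
      constructor
      · rintro ⟨r, hr, h1, h2, h3⟩
        simp only [satRules, List.mem_append, List.mem_map, List.mem_range, List.mem_cons,
          List.mem_flatMap, List.mem_filter, decide_eq_true_eq] at hr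
        rcases hr with ⟨i, hi, rfl⟩ | ⟨i, hi, rfl⟩ | rfl | ⟨p, hp, l, ⟨hl1, hl⟩, rfl⟩
        · simp only at h1; omega
        · simp only at h1; omega
        · simp only at h1; omega
        · simp only at h1 h2
          obtain rfl : p.2 = j := by omega
          obtain ⟨h4, h5⟩ := List.getElem?_eq_some_iff.1 (List.mem_zipIdx_iff_getElem?.1 hp)
          exact ⟨h4, l, by rw [h5]; exact hl1, hl, h2 _ (List.mem_singleton.2 rfl)⟩
      · rintro ⟨h, l, hl, hl2, hl3⟩
        refine ⟨(nv φ + 1 + j, [(l.2, l.1)], []), ?_, rfl, ?_, by simp⟩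
        · simp only [satRules, List.mem_append, List.mem_map, List.mem_range, List.mem_cons,
            List.mem_flatMap, List.mem_filter, decide_eq_true_eq]
          right; right; right
          exact ⟨(φ[j], j), List.mem_zipIdx_iff_getElem?.2 (List.getElem?_eq_getElem h), l,
            ⟨hl, hl2⟩, rfl⟩
        · intro g hg
          rw [List.mem_singleton] at hg
          subst hg
          exact hl3
    rw [der_iff]
    constructor
    · rintro ⟨r, hr, h1, h2, h3⟩
      simp only [satRules, List.mem_append, List.mem_map, List.mem_range, List.mem_cons,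
        List.mem_flatMap, List.mem_filter, decide_eq_true_eq] at hr
      rcases hr with ⟨i, hi, rfl⟩ | ⟨i, hi, rfl⟩ | rfl | ⟨p, hp, l, ⟨hl1, hl⟩, rfl⟩
      · simp only at h1; omega
      · simp only at h1; omega
      · refine ⟨ρ, fun _ _ => rfl, fun C hC => ?_⟩
        obtain ⟨j, hj, rfl⟩ := List.getElem_of_mem hC
        have h4 := h3 (nv φ + 1 + j, []) (List.mem_map.2 ⟨j, List.mem_range.2 hj, rfl⟩)
        rw [der_iff] at h4
        have hu : upd ρ [] = ρ := by funext k; simp [upd]
        simp only [hu] at h4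
        obtain ⟨_, h5⟩ := (hcl j).1 h4
        exact h5
      · simp only at h1; omega
    · rintro ⟨σ, h1, h2⟩
      have hσ : ∀ k, σ k = ρ k := fun k => h1 k (by omega)
      refine ⟨(nv φ, [], (List.range φ.length).map (fun j => (nv φ + 1 + j, []))), ?_, rfl,
        by simp, ?_⟩
      · simp [satRules]
      · intro s hs
        rw [List.mem_map] at hs
        obtain ⟨j, hj, rfl⟩ := hs
        rw [List.mem_range] at hj
        rw [der_iff]
        have hu : upd ρ [] = ρ := by funext k; simp [upd]
        simp only [hu]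
        rw [hcl]
        obtain ⟨l, hl, hl2, hl3⟩ := h2 φ[j] (List.getElem_mem hj)
        exact ⟨hj, l, hl, hl2, by rw [← hσ]; exact hl3⟩
  | succ d ih =>
    intro i ρ hi
    have hin : i < nv φ := by omega
    rw [der_iff]
    have hsplit : (∃ r ∈ satRules φ, r.1 = i ∧ (∀ g ∈ r.2.1, ρ g.1 = g.2) ∧
        ∀ s ∈ r.2.2, Der (satRules φ) s.1 (upd ρ s.2)) ↔
        ∃ v, Der (satRules φ) (i + 1) (upd ρ [(i, v)]) := by
      constructor
      · rintro ⟨r, hr, h1, h2, h3⟩
        simp only [satRules, List.mem_append, List.mem_map, List.mem_range, List.mem_cons,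
          List.mem_flatMap, List.mem_filter, decide_eq_true_eq] at hr
        rcases hr with ⟨i', hi', rfl⟩ | ⟨i', hi', rfl⟩ | rfl | ⟨p, hp, l, ⟨hl1, hl⟩, rfl⟩
        · simp only at h1
          subst h1
          exact ⟨true, h3 _ (List.mem_singleton.2 rfl)⟩
        · simp only at h1
          subst h1
          exact ⟨false, h3 _ (List.mem_singleton.2 rfl)⟩
        · simp only at h1; omega
        · simp only at h1; omega
      · rintro ⟨v, hv⟩
        refine ⟨(i, [], [(i + 1, [(i, v)])]), ?_, rfl, by simp, ?_⟩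
        · simp only [satRules, List.mem_append, List.mem_map, List.mem_range, List.mem_cons]
          cases v
          · exact Or.inr (Or.inl ⟨i, hin, rfl⟩)
          · exact Or.inl ⟨i, hin, rfl⟩
        · intro s hs
          rw [List.mem_singleton] at hs
          subst hs
          exact hv
    rw [hsplit]
    constructor
    · rintro ⟨v, hv⟩
      obtain ⟨σ, h1, h2⟩ := (ih (i + 1) _ (by omega)).1 hv
      refine ⟨σ, fun k hk => ?_, h2⟩
      rw [h1 k (by omega), upd_single, if_neg (by omega)]
    · rintro ⟨σ, h1, h2⟩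
      refine ⟨σ i, (ih (i + 1) _ (by omega)).2 ⟨σ, fun k hk => ?_, h2⟩⟩
      rw [upd_single]
      split
      · rename_i h
        rw [h]
      · exact h1 k (by omega)

theorem sat_acc (φ : Fml) : BSat φ ↔ ARMAcc (satARM φ) := by
  have := sat_der φ (nv φ) 0 (fun _ => false) (by omega)
  unfold ARMAcc
  change _ ↔ Der (satRules φ) 0 (fun _ => false)
  rw [this]
  constructor
  · rintro ⟨σ, h⟩
    refine ⟨fun k => if k < nv φ then σ k else false, fun k hk => ?_, fun C hC => ?_⟩
    · rcases hk with hk | hk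
      · omega
      · exact if_neg (by omega)
    · obtain ⟨l, hl, hl2, hl3⟩ := h C hC
      refine ⟨l, hl, hl2, ?_⟩
      have h' : l.2 < nv φ := hl2
      rw [← hl3]
      exact if_pos h'
  · rintro ⟨σ, _, h⟩
    exact ⟨σ, h⟩

theorem unsat_der (φ : Fml) (d : ℕ) : ∀ (i : ℕ) (ρ : ℕ → Bool), i + d = nv φ →
    (Der (unsatRules φ) i ρ ↔ ∀ σ : ℕ → Bool, (∀ k, k < i ∨ nv φ ≤ k → σ k = ρ k) →
      ∃ C ∈ φ, ∀ l ∈ C, l.2 < nv φ → σ l.2 = !l.1) := by
  induction d with
  | zero =>
    intro i ρ hi
    have hi : i = nv φ := by omega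
    subst hi
    rw [der_iff]
    constructor
    · rintro ⟨r, hr, h1, h2, h3⟩ σ hσ
      have hσ' : ∀ k, σ k = ρ k := fun k => hσ k (by omega)
      simp only [unsatRules, List.mem_append, List.mem_map, List.mem_range] at hr
      rcases hr with ⟨i, hi, rfl⟩ | ⟨C, hC, rfl⟩
      · simp only at h1; omega
      · refine ⟨C, hC, fun l hl hl2 => ?_⟩
        have := h2 (l.2, !l.1) (List.mem_map.2 ⟨l, List.mem_filter.2 ⟨hl, by simpa using hl2⟩, rfl⟩)
        rw [hσ']
        exact this
    · intro h
      obtain ⟨C, hC, h2⟩ := h ρ (fun _ _ => rfl)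
      refine ⟨(nv φ, (C.filter (fun l => l.2 < nv φ)).map (fun l => (l.2, !l.1)), []), ?_, rfl,
        ?_, by simp⟩
      · simp only [unsatRules, List.mem_append, List.mem_map, List.mem_range]
        exact Or.inr ⟨C, hC, rfl⟩
      · intro g hg
        simp only [List.mem_map, List.mem_filter, decide_eq_true_eq] at hg
        obtain ⟨l, ⟨hl1, hl2⟩, rfl⟩ := hg
        exact h2 l hl1 hl2
  | succ d ih =>
    intro i ρ hi
    have hin : i < nv φ := by omega
    rw [der_iff]
    have hsplit : (∃ r ∈ unsatRules φ, r.1 = i ∧ (∀ g ∈ r.2.1, ρ g.1 = g.2) ∧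
        ∀ s ∈ r.2.2, Der (unsatRules φ) s.1 (upd ρ s.2)) ↔
        ∀ v, Der (unsatRules φ) (i + 1) (upd ρ [(i, v)]) := by
      constructor
      · rintro ⟨r, hr, h1, h2, h3⟩ v
        simp only [unsatRules, List.mem_append, List.mem_map, List.mem_range] at hr
        rcases hr with ⟨i', hi', rfl⟩ | ⟨C, hC, rfl⟩
        · simp only at h1
          subst h1
          refine h3 (i' + 1, [(i', v)]) ?_
          cases v <;> simp
        · simp only at h1; omega
      · intro hv
        refine ⟨(i, [], [(i + 1, [(i, true)]), (i + 1, [(i, false)])]), ?_, rfl, by simp, ?_⟩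
        · simp only [unsatRules, List.mem_append, List.mem_map, List.mem_range]
          exact Or.inl ⟨i, hin, rfl⟩
        · intro s hs
          simp only [List.mem_cons, List.not_mem_nil, or_false] at hs
          rcases hs with rfl | rfl
          · exact hv true
          · exact hv false
    rw [hsplit]
    constructor
    · intro hv σ hσ
      refine (ih (i + 1) _ (by omega)).1 (hv (σ i)) σ (fun k hk => ?_)
      rw [upd_single]
      split
      · rename_i h
        rw [h]
      · exact hσ k (by omega)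
    · intro h v
      refine (ih (i + 1) _ (by omega)).2 (fun σ hσ => h σ (fun k hk => ?_))
      rw [hσ k (by omega), upd_single, if_neg (by omega)]

theorem unsat_acc (φ : Fml) : BSat φ ↔ ¬ ARMAcc (unsatARM φ) := by
  have := unsat_der φ (nv φ) 0 (fun _ => false) (by omega)
  unfold ARMAcc
  change _ ↔ ¬ Der (unsatRules φ) 0 (fun _ => false)
  rw [this]
  constructor
  · rintro ⟨σ, h⟩ h2
    obtain ⟨C, hC, h3⟩ := h2 (fun k => if k < nv φ then σ k else false) (fun k hk => by
      rcases hk with hk | hk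
      · omega
      · exact if_neg (by omega))
    obtain ⟨l, hl, hl2, hl3⟩ := h C hC
    have h' : l.2 < nv φ := hl2
    have h4 := h3 l hl h'
    rw [if_pos h', hl3] at h4
    cases h5 : l.1 <;> rw [h5] at h4 <;> simp at h4
  · intro h
    push Not at h
    obtain ⟨σ, _, h2⟩ := h
    refine ⟨σ, fun C hC => ?_⟩
    obtain ⟨l, hl, hl2, hl3⟩ := h2 C hC
    refine ⟨l, hl, hl2, ?_⟩
    cases h4 : l.1 <;> rw [h4] at hl3 <;> simpa using hl3

theorem poly_nv : NPC.Poly nv := by
  unfold nv
  fun_prop

theorem poly_range_nv {α : Type} [TEnc α] {f : α → Fml} (hf : NPC.Poly f) :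
    Poly (fun a => List.range (nv (f a))) := by
  unfold nv
  exact NPC.Poly.range_length (NPC.Poly.flatten hf)

theorem poly_satARM : NPC.Poly satARM := by
  have h1 := poly_range_nv (NPC.Poly.id (α := Fml))
  have h2 : NPC.Poly (fun φ : Fml => List.range φ.length) := NPC.Poly.range_length NPC.Poly.id
  unfold satARM satRules
  refine NPC.Poly.pair (by fun_prop) (NPC.Poly.pair (by fun_prop) ?_)
  refine NPC.Poly.append (NPC.Poly.map h1 ?_) (NPC.Poly.append (NPC.Poly.map h1 ?_) (NPC.Poly.cons ?_ ?_))
  · fun_prop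
  · fun_prop
  · refine NPC.Poly.pair poly_nv (NPC.Poly.pair (by fun_prop) (NPC.Poly.map h2 ?_))
    unfold nv
    fun_prop
  · unfold nv
    fun_prop

theorem poly_unsatARM : NPC.Poly unsatARM := by
  have h1 := poly_range_nv (NPC.Poly.id (α := Fml))
  unfold unsatARM unsatRules
  refine NPC.Poly.pair (by fun_prop) (NPC.Poly.pair (by fun_prop) ?_)
  refine NPC.Poly.append (NPC.Poly.map h1 ?_) ?_
  · fun_prop
  · unfold nv
    fun_prop

end Pool.Agent.H820R2.SS
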