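import Pool.Agent.H820R2.SS.Core
import Pool.Agent.H820R2.SS.SatARM
import Pool.Agent.H820R2.SS.Exp
import Pool.Agent.H604R2.SS.Poly
import Pool.Agent.H578R2.ARM.Main
import Pool.Agent.H622R2.CoNP

/-!
# Hardness of strong sequentiality
-/

namespace Pool.Agent.H820R2.SS

open Pool.Agent.NPC Pool.Agent.H622R2

theorem poly_toTRS : NPC.Poly toTRS :=
  (H604SS.poly_trs).comp H604SS.poly_ofARM

/-- Transfer of a source of hardness to strong sequentiality of orthogonal systems. -/
theorem reduces_of_arm {S : Set (List Bool)}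
    (hS : ∀ R : TRS, Orthogonal R → (bits R ∈ S ↔ StronglySequential R))
    {L : Set (List Bool)} {f : List Bool → ARM}
    (hf : PC (fun x : List Bool => x) (bits : ARM → List Bool) f) (hpr : ∀ x, ARMPr (f x))
    (h : ∀ x, x ∉ L ↔ ARMAcc (f x)) : Reduces L S := by
  refine ⟨fun x => bits (toTRS (f x)), PC.toPolyTime_bits poly_toTRS f hf, fun x => ?_⟩
  rw [hS _ (orthogonal_toTRS _)]
  have h1 := ssOrth_toTRS (hpr x)
  rw [← h x, not_not] at h1
  rw [← h1]
  exact ⟨fun h => h.2, fun h => ⟨orthogonal_toTRS _, h⟩⟩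

theorem exptimeHard_of {S : Set (List Bool)}
    (hS : ∀ R : TRS, Orthogonal R → (bits R ∈ S ↔ StronglySequential R))
    {L : Set (List Bool)} (hL : InEXPTIME L) : Reduces L S := by
  obtain ⟨f, h1, h2, h3⟩ := ARM578.exptime_arm_compl (L := L) hL
  exact reduces_of_arm hS h1 h2 h3

theorem nPHard_of {S : Set (List Bool)}
    (hS : ∀ R : TRS, Orthogonal R → (bits R ∈ S ↔ StronglySequential R)) : NPHard S := by
  intro L hL
  obtain ⟨f, h1, h2⟩ := Pool.Agent.NPC.R671.hardI_BSat L hL
  refine reduces_of_arm hS (f := fun x => unsatARM (f x)) (PC.comp poly_unsatARM h1)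
    (fun x => unsatARM_pr _) fun x => ?_
  rw [h2 x, unsat_acc, not_not]

theorem coNPHard_of {S : Set (List Bool)}
    (hS : ∀ R : TRS, Orthogonal R → (bits R ∈ S ↔ StronglySequential R)) : CoNPHard S := by
  intro L hL
  obtain ⟨f, h1, h2⟩ := Pool.Agent.NPC.R671.hardI_BSat Lᶜ hL
  refine reduces_of_arm hS (f := fun x => satARM (f x)) (PC.comp poly_satARM h1)
    (fun x => satARM_pr _) fun x => ?_
  rw [← sat_acc, ← h2 x]
  rfl

end Pool.Agent.H820R2.SS
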