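import Pool.Agent.H820R2.SS.AltPoly
import Pool.Agent.H820R2.SS.DecTm

/-!
# Orthogonality can be tested in polynomial time
-/

namespace Pool.Agent.H820R2.SS

open Pool.Agent.NPC

/-! ### Unifiability of linear terms without common variables -/

/-- No symbol clash. -/
inductive Compat : Tm → Tm → Prop
  | varl (x : ℕ) (t : Tm) : Compat (.var x) t
  | varr (s : Tm) (x : ℕ) : Compat s (.var x)
  | bul : Compat .bul .bul
  | fn (f : ℕ) (ss ts : List Tm) (h : ss.length = ts.length)
      (h2 : ∀ i < ss.length, Compat (gt ss i) (gt ts i)) : Compat (.fn f ss) (.fn f ts)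

theorem compat_of_unif (s : Tm) : ∀ t : Tm, (∃ σ τ : ℕ → Tm, s.subst σ = t.subst τ) →
    Compat s t := by
  induction s with
  | var x => exact fun t _ => Compat.varl x t
  | bul =>
    rintro t ⟨σ, τ, h⟩
    cases t with
    | var y => exact Compat.varr _ y
    | bul => exact Compat.bul
    | fn g ts => simp at h
  | fn f ss ih =>
    rintro t ⟨σ, τ, h⟩
    cases t with
    | var y => exact Compat.varr _ y
    | bul => simp at h
    | fn g ts =>
      rw [subst_fn, subst_fn] at h
      obtain ⟨rfl, h2⟩ := Tm.fn_inj h
      have h3 : ss.length = ts.length := by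
        have := congrArg List.length h2
        simpa using this
      refine Compat.fn _ _ _ h3 fun i hi => ih _ (gt_mem hi) _ ⟨σ, τ, ?_⟩
      have h4 : (ss.map (Tm.subst σ))[i]'(by simpa using hi) =
          (ts.map (Tm.subst τ))[i]'(by simp; omega) := by
        simp only [h2]
      have h5 : gt ss i = ss[i] := by simp [gt, hi]
      have h6 : gt ts i = ts[i]'(by omega) := by simp [gt, h3 ▸ hi]
      rw [h5, h6]
      simpa using h4

/-- Unification of lists of linear terms. -/
theorem unif_args : ∀ (ss ts : List Tm), ss.length = ts.length →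
    (ss.flatMap Tm.vars).Nodup → (ts.flatMap Tm.vars).Nodup →
    (∀ i < ss.length, ∃ σ τ : ℕ → Tm, (gt ss i).subst σ = (gt ts i).subst τ) →
    ∃ σ τ : ℕ → Tm, ss.map (Tm.subst σ) = ts.map (Tm.subst τ)
  | [], [], _, _, _, _ => ⟨Tm.var, Tm.var, rfl⟩
  | [], _ :: _, h, _, _, _ => by simp at h
  | _ :: _, [], h, _, _, _ => by simp at h
  | s :: ss, t :: ts, h, h1, h2, h3 => by
    classical
    rw [List.flatMap_cons, List.nodup_append] at h1 h2
    obtain ⟨_, h5, h6⟩ := h1
    obtain ⟨_, h8, h9⟩ := h2
    obtain ⟨σ0, τ0, h10⟩ := h3 0 (by simp)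
    obtain ⟨σ1, τ1, h11⟩ := unif_args ss ts (by simpa using h) h5 h8 (fun i hi => by
      have := h3 (i + 1) (by simpa using hi)
      simpa [gt] using this)
    refine ⟨fun x => if x ∈ s.vars then σ0 x else σ1 x,
      fun x => if x ∈ t.vars then τ0 x else τ1 x, ?_⟩
    have e1 : ∀ (u : Tm) (us : List Tm) (α β : ℕ → Tm),
        (∀ a ∈ u.vars, ∀ b ∈ us.flatMap Tm.vars, a ≠ b) →
        (u :: us).map (Tm.subst fun x => if x ∈ u.vars then α x else β x) =
          u.subst α :: us.map (Tm.subst β) := by
      intro u us α β hd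
      rw [List.map_cons]
      congr 1
      · apply subst_congr
        intro x hx
        rw [if_pos hx]
      · apply List.map_congr_left
        intro a ha
        apply subst_congr
        intro x hx
        rw [if_neg]
        intro hx'
        exact hd x hx' x (List.mem_flatMap.2 ⟨a, ha, hx⟩) rfl
    rw [e1 s ss σ0 σ1 h6, e1 t ts τ0 τ1 h9, h11]
    congr 1

theorem unif_of_compat {s t : Tm} (h : Compat s t) (hs : s.vars.Nodup) (ht : t.vars.Nodup) :
    ∃ σ τ : ℕ → Tm, s.subst σ = t.subst τ := by
  induction h with
  | varl x t => exact ⟨fun _ => t, Tm.var, by rw [subst_var, subst_var_self]⟩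
  | varr s x => exact ⟨Tm.var, fun _ => s, by rw [subst_var, subst_var_self]⟩
  | bul => exact ⟨Tm.var, Tm.var, rfl⟩
  | fn f ss ts hl h2 ih =>
    rw [vars_fn] at hs ht
    have e : ∀ us : List Tm, (us.flatMap Tm.vars).Nodup → ∀ i < us.length,
        (gt us i).vars.Nodup := by
      intro us hus i hi
      rw [List.nodup_flatMap] at hus
      exact hus.1 _ (gt_mem hi)
    obtain ⟨σ, τ, h⟩ := unif_args ss ts hl hs ht fun i hi =>
      ih i hi (e ss hs i hi) (e ts ht i (by omega))
    exact ⟨σ, τ, by rw [subst_fn, subst_fn, h]⟩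

/-- Test of the roots of a pair. -/
def okP (p : Tm × Tm) : Bool := p.1.isVar || (p.2.isVar || decide (p.1.hd = p.2.hd))

/-- The pairs of arguments. -/
def chP (p : Tm × Tm) : List (Tm × Tm) :=
  bif p.1.isVar || p.2.isVar then [] else p.1.args.zip p.2.args

theorem compat_iff {s t : Tm} : Compat s t ↔ okP (s, t) = true ∧ ∀ q ∈ chP (s, t),
    Compat q.1 q.2 := by
  cases s with
  | var x =>
    refine ⟨fun _ => ⟨by simp [okP], fun q hq => by simp [chP] at hq⟩, fun _ => Compat.varl x t⟩
  | bul =>
    cases t with
    | var y =>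
      exact ⟨fun _ => ⟨by simp [okP], fun q hq => by simp [chP] at hq⟩,
        fun _ => Compat.varr _ y⟩
    | bul => exact ⟨fun _ => ⟨by simp [okP], fun q hq => by simp [chP] at hq⟩, fun _ => Compat.bul⟩
    | fn g ts =>
      constructor
      · intro h
        generalize hx : Tm.fn g ts = x at h
        cases h with
        | varr s x => simp at hx
        | bul => simp at hx
      · rintro ⟨h, _⟩
        simp [okP] at h
  | fn f ss =>
    cases t with
    | var y =>
      exact ⟨fun _ => ⟨by simp [okP], fun q hq => by simp [chP] at hq⟩,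
        fun _ => Compat.varr _ y⟩
    | bul =>
      constructor
      · intro h
        generalize hx : Tm.fn f ss = x at h
        cases h with
        | varl x => simp at hx
        | bul => simp at hx
      · rintro ⟨h, _⟩
        simp [okP] at h
    | fn g ts =>
      constructor
      · intro h
        generalize hx : Tm.fn f ss = x at h
        generalize hy : Tm.fn g ts = y at h
        cases h with
        | varl x => simp at hx
        | varr s x => simp at hy
        | bul => simp at hx
        | fn f' ss' ts' hl h2 =>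
          obtain ⟨rfl, rfl⟩ := Tm.fn_inj hx
          obtain ⟨rfl, rfl⟩ := Tm.fn_inj hy
          refine ⟨by simp [okP, hl], fun q hq => ?_⟩
          simp only [chP, isVar_fn, Bool.or_self, cond_false, args_fn] at hq
          obtain ⟨i, hi, rfl⟩ := List.getElem_of_mem hq
          rw [List.length_zip] at hi
          have h3 := h2 i (by omega)
          have h5 : gt ss i = ss[i]'(by omega) := by simp [gt, show i < ss.length by omega]
          have h6 : gt ts i = ts[i]'(by omega) := by simp [gt, show i < ts.length by omega]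
          rw [h5, h6] at h3
          simpa using h3
      · rintro ⟨h1, h2⟩
        simp only [okP, isVar_fn, hd_fn, Bool.false_or, decide_eq_true_eq, Option.some.injEq,
          Prod.mk.injEq] at h1
        obtain ⟨rfl, hl⟩ := h1
        refine Compat.fn _ _ _ hl fun i hi => ?_
        have h5 : gt ss i = ss[i]'(by omega) := by simp [gt, show i < ss.length by omega]
        have h6 : gt ts i = ts[i]'(by omega) := by simp [gt, show i < ts.length by omega]
        have h7 := h2 (ss[i], ts[i]'(by omega)) (by
          simp only [chP, isVar_fn, Bool.or_self, cond_false, args_fn]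
          rw [← List.getElem_zip (h := by rw [List.length_zip]; omega)]
          exact List.getElem_mem _)
        rw [h5, h6]
        exact h7

/-- One round of the clash test. -/
def uStep (s : Bool × List (Tm × Tm)) : Bool × List (Tm × Tm) :=
  (s.1 && s.2.all okP, s.2.flatMap chP)

/-- The clash test. -/
def unifB (s t : Tm) : Bool := (uStep^[sz (s, t) + 2] (true, [(s, t)])).1

theorem sz_zip_le : ∀ (ss ts : List Tm), sz (ss.zip ts) ≤ sz ss + sz ts
  | [], _ => by simp
  | _ :: _, [] => by simp
  | s :: ss, t :: ts => by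
    have := sz_zip_le ss ts
    rw [List.zip_cons_cons, sz_list_cons, sz_list_cons, sz_list_cons, sz_pair]
    omega

theorem sz_chP_le (p : Tm × Tm) : sz (chP p) ≤ sz p := by
  obtain ⟨s, t⟩ := p
  unfold chP
  cases h : (s, t).1.isVar || (s, t).2.isVar
  · rw [cond_false]
    have h1 := sz_zip_le s.args t.args
    have h2 := sz_args_le s
    have h3 := sz_args_le t
    rw [sz_pair]
    simp only
    omega
  · rw [cond_true]
    exact sz_pos _

theorem sz_flatMap_chP (l : List (Tm × Tm)) : sz (l.flatMap chP) + l.length ≤ sz l := by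
  induction l with
  | nil => simp
  | cons a l ih =>
    rw [List.flatMap_cons, sz_list_cons, List.length_cons]
    have h1 := sz_append (chP a) (l.flatMap chP)
    have h2 := sz_chP_le a
    omega

theorem uStep_cur (s : Bool × List (Tm × Tm)) (n : ℕ) : (uStep^[n] s).2 = [] ∨
    sz (uStep^[n] s).2 + n ≤ sz s.2 := by
  induction n with
  | zero => exact Or.inr (by simp)
  | succ n ih =>
    rw [Function.iterate_succ_apply']
    have h1 := sz_flatMap_chP (uStep^[n] s).2
    by_cases h2 : (uStep^[n] s).2 = []
    · left
      show (uStep^[n] s).2.flatMap chP = []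
      rw [h2]
      rfl
    · rcases ih with ih | ih
      · exact absurd ih h2
      · right
        have h3 : 0 < (uStep^[n] s).2.length := List.length_pos_iff.2 h2
        show sz ((uStep^[n] s).2.flatMap chP) + (n + 1) ≤ sz s.2
        omega

theorem uStep_inv (s : Bool × List (Tm × Tm)) (n : ℕ) :
    ((uStep^[n] s).1 = true ∧ ∀ q ∈ (uStep^[n] s).2, Compat q.1 q.2) ↔
      (s.1 = true ∧ ∀ q ∈ s.2, Compat q.1 q.2) := by
  induction n with
  | zero => rfl
  | succ n ih =>
    rw [Function.iterate_succ_apply', ← ih]
    generalize uStep^[n] s = u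
    show ((u.1 && u.2.all okP) = true ∧ ∀ q ∈ u.2.flatMap chP, Compat q.1 q.2) ↔ _
    rw [Bool.and_eq_true, List.all_eq_true, and_assoc]
    refine and_congr_right fun _ => ?_
    constructor
    · rintro ⟨h1, h2⟩ q hq
      exact compat_iff.2 ⟨h1 q hq, fun c hc => h2 c (List.mem_flatMap.2 ⟨q, hq, hc⟩)⟩
    · intro h
      refine ⟨fun q hq => (compat_iff.1 (h q hq)).1, fun c hc => ?_⟩
      rw [List.mem_flatMap] at hc
      obtain ⟨q, hq, hc⟩ := hc
      exact (compat_iff.1 (h q hq)).2 c hc

theorem unifB_iff {s t : Tm} : unifB s t = true ↔ Compat s t := by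
  have h1 := uStep_inv (true, [(s, t)]) (sz (s, t) + 2)
  have h2 : (uStep^[sz (s, t) + 2] (true, [(s, t)])).2 = [] := by
    rcases uStep_cur (true, [(s, t)]) (sz (s, t) + 2) with h | h
    · exact h
    · have h3 := sz_pos (uStep^[sz (s, t) + 2] (true, [(s, t)])).2
      have h4 : sz [(s, t)] = sz (s, t) + 2 := by simp
      simp only at h
      omega
  rw [h2] at h1
  simpa [unifB] using h1

@[fun_prop]
theorem poly_okP {α : Type} [TEnc α] {p : α → Tm × Tm} (hp : NPC.Poly p) :
    NPC.Poly (fun a => okP (p a)) := by
  unfold okP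
  fun_prop

@[fun_prop]
theorem poly_chP {α : Type} [TEnc α] {p : α → Tm × Tm} (hp : NPC.Poly p) :
    NPC.Poly (fun a => chP (p a)) := by
  unfold chP
  fun_prop

theorem poly_unifB : NPC.Poly (fun p : Tm × Tm => unifB p.1 p.2) := by
  have h1 : NPC.Poly (fun p : Tm × Tm => uStep^[(true :: true :: bits p).length] (true, [p])) := by
    refine Poly.iterLen (l := fun p : Tm × Tm => true :: true :: bits p)
      (s := fun p => ((true, [p]) : Bool × List (Tm × Tm))) (F := fun _ s => uStep s)
      (NPC.Poly.cons (NPC.Poly.const _) (NPC.Poly.cons (NPC.Poly.const _)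
        (poly_bits NPC.Poly.id))) (by fun_prop) ?_
      (Polynomial.X + Polynomial.C 8) ?_
    · unfold uStep
      fun_prop
    · intro t k _
      simp only [Polynomial.eval_add, Polynomial.eval_C, Polynomial.eval_X]
      have h2 := sz_bool_le (uStep^[k] (true, [t])).1
      have h3 : sz (uStep^[k] (true, [t])).2 ≤ sz t + 2 := by
        rcases uStep_cur (true, [t]) k with h | h
        · rw [h]
          simp
        · have h4 : sz [t] = sz t + 2 := by simp
          simp only at h
          omega
      have h4 : sz (uStep^[k] (true, [t])) = sz (uStep^[k] (true, [t])).1 +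
        sz (uStep^[k] (true, [t])).2 + 1 := sz_pair _ _
      show sz (uStep^[k] (true, [t])) ≤ _
      omega
  refine (NPC.Poly.fst h1).congr fun p => ?_
  unfold unifB
  rw [List.length_cons, List.length_cons, bits_length]

end Pool.Agent.H820R2.SS
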