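import Pool.Agent.H820R2.SS.Complete

/-!
# If the game is not accepting, the system is strongly sequential
-/

namespace Pool.Agent.H820R2.SS

open Relation

theorem nf_no_step {R : TRS} {s u : Tm} (h : StepU R s u) : ¬ NF R s := by
  induction h with
  | root ht s => exact fun h => h _ (Subterm.refl _) ht
  | arg h ih =>
    intro h2
    exact ih (fun D hD => h2 D (Subterm.arg (by simp) hD))

theorem nf_ru {R : TRS} {s u : Tm} (h : NF R s) (hu : RU R s u) : u = s := by
  induction hu using ReflTransGen.head_induction_on with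
  | refl => rfl
  | head h1 _ _ => exact absurd h (nf_no_step h1)

variable {G : Game}

theorem redex_root {u : Tm} (h : IsRedex (trs G) u) : ∃ g us, u = .fn g us := by
  rw [redex_iff] at h
  rcases h with h | ⟨v, h⟩ | ⟨X, m, hm, v, h, _⟩ | ⟨m', hm', hJ', h⟩ |
    ⟨m', hm', j, hj, b1, hb1, X, m'', hm'', us, h, hus⟩ <;> exact ⟨_, _, h⟩

theorem nf_var (x : ℕ) : NF (trs G) (.var x) := by
  intro D h hD
  cases h
  obtain ⟨g, us, h⟩ := redex_root hD
  cases h

theorem nf_bul : NF (trs G) .bul := by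
  intro D h hD
  cases h
  obtain ⟨g, us, h⟩ := redex_root hD
  cases h

theorem cX_eq (X : Bool) : ∃ k, cX X = c k := by
  cases X
  · exact ⟨1, rfl⟩
  · exact ⟨2, rfl⟩

theorem nf_cX (X : Bool) : NF (trs G) (cX X) := by
  obtain ⟨k, hk⟩ := cX_eq X
  rw [hk]
  exact nf_c k

/-- Reaches every term, for unrestricted arbitrary reduction. -/
def SoftU (G : Game) (s : Tm) : Prop := ∀ u, RU (trs G) s u

/-- A constant. -/
def Cst (u : Tm) : Prop := ∃ k, u = c k

theorem cst_cX (X : Bool) : Cst (cX X) := cX_eq X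

theorem soft_of_rl {g : ℕ} {ts us : List Tm} (h : RL (trs G) ts us)
    (hr : IsRedex (trs G) (.fn g us)) : SoftU G (.fn g ts) :=
  fun u => (RU.congr_args g h).tail (StepU.root hr u)

theorem ru_const {s u : Tm} (h : RU (trs G) s u) (hu : Cst u) : s = u ∨ SoftU G s := by
  obtain ⟨k, rfl⟩ := hu
  cases s with
  | var x => exact Or.inl (nf_ru (nf_var x) h).symm
  | bul => exact Or.inl (nf_ru nf_bul h).symm
  | fn g ts =>
    rcases root_lemma h with ⟨us, h1, h2⟩ | ⟨us, h1, h2⟩
    · left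
      rw [c] at h1
      obtain ⟨h3, h4⟩ := Tm.fn_inj h1
      subst h3 h4
      have : ts = [] := List.length_eq_zero_iff.1 h2.1
      rw [this, c]
    · exact Or.inr (soft_of_rl h1 h2)

theorem soft_not_nf {s : Tm} (h : SoftU G s) : ¬ NF (trs G) s := by
  intro hn
  have h1 := nf_ru hn (h (c 0))
  have h2 := nf_ru hn (h (c 1))
  rw [← h1] at h2
  simp [c] at h2

theorem hasBul_not_cst {u : Tm} (h : HasBul u) : ¬ Cst u := by
  rintro ⟨k, rfl⟩
  exact not_hasBul_c k h

/-- `t` contains a redex occurrence such that, when it is replaced by `•`, all reducts contain `•`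
and avoid `K`. -/
def Safe (G : Game) (K : Tm → Prop) (t : Tm) : Prop :=
  ∃ D e, IsRedex (trs G) D ∧ OneHole D t e ∧ ∀ u, RU (trs G) e u → HasBul u ∧ ¬ K u

theorem Safe.mono {K K' : Tm → Prop} {t : Tm} (h : Safe G K' t)
    (hK : ∀ u, HasBul u → K u → K' u) : Safe G K t := by
  obtain ⟨D, e, h1, h2, h3⟩ := h
  exact ⟨D, e, h1, h2, fun u hu => ⟨(h3 u hu).1, fun hk => (h3 u hu).2 (hK u (h3 u hu).1 hk)⟩⟩

theorem Safe.orCst {K : Tm → Prop} {t : Tm} (h : Safe G K t) : Safe G (fun u => K u ∨ Cst u) t :=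
  h.mono (fun _ hu hk => hk.elim id (fun hc => absurd hc (hasBul_not_cst hu)))

theorem Safe.cst {t : Tm} (h : Safe G (fun _ => False) t) : Safe G Cst t :=
  h.mono (fun _ hu hk => hasBul_not_cst hu hk)

theorem safe_of_redex {K : Tm → Prop} {t : Tm} (h : IsRedex (trs G) t) (hK : ¬ K .bul) :
    Safe G K t := by
  refine ⟨t, .bul, h, OneHole.root, fun u hu => ?_⟩
  rw [nf_ru nf_bul hu]
  exact ⟨hasBul_bul, hK⟩

theorem oneHole_set {D : Tm} {g : ℕ} {ts : List Tm} {i : ℕ} (hi : i < ts.length) {e : Tm}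
    (h : OneHole D (gt ts i) e) : OneHole D (.fn g ts) (.fn g (ts.set i e)) := by
  have h1 : gt ts i = ts[i] := by simp [gt, hi]
  rw [h1] at h
  have h2 := OneHole.arg (f := g) (l := ts.take i) (r := ts.drop (i + 1)) h
  rw [List.cons_getElem_drop_succ, List.take_append_drop] at h2
  rw [List.set_eq_take_append_cons_drop, if_pos hi]
  exact h2

/-- The column lemma. -/
theorem safe_col {g : ℕ} {ts : List Tm} {i : ℕ} {K Ki : Tm → Prop} (hi : i < ts.length)
    (hs : Safe G Ki (gt ts i))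
    (H : ∀ us : List Tm, us.length = ts.length →
      (∀ j < ts.length, j ≠ i → RU (trs G) (gt ts j) (gt us j)) →
      (IsRedex (trs G) (.fn g us) ∨ K (.fn g us)) → Ki (gt us i)) : Safe G K (.fn g ts) := by
  obtain ⟨D, e, h1, h2, h3⟩ := hs
  refine ⟨D, _, h1, oneHole_set hi h2, fun u hu => ?_⟩
  have key : ∀ us, RL (trs G) (ts.set i e) us → us.length = ts.length ∧
      (∀ j < ts.length, j ≠ i → RU (trs G) (gt ts j) (gt us j)) ∧ RU (trs G) e (gt us i) := by
    rintro us ⟨h4, h5⟩
    rw [List.length_set] at h4 h5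
    refine ⟨h4.symm, fun j hj hji => ?_, ?_⟩
    · have := h5 j hj
      rwa [gt_set_ne hji] at this
    · have := h5 i hi
      rwa [gt_set_self hi] at this
  rcases root_lemma hu with ⟨us, rfl, h4⟩ | ⟨us, h4, h5⟩
  · obtain ⟨h6, h7, h8⟩ := key us h4
    refine ⟨hasBul_fn.2 ⟨_, gt_mem (by omega), (h3 _ h8).1⟩, fun hk => ?_⟩
    exact (h3 _ h8).2 (H us h6 h7 (Or.inr hk))
  · obtain ⟨h6, h7, h8⟩ := key us h4
    exact absurd (H us h6 h7 (Or.inl h5)) (h3 _ h8).2

theorem stepU_plug {D a b : Tm} (h : StepU (trs G) a b) :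
    StepU (trs G) (plug D a) (plug D b) := by
  induction h with
  | @root t ht s =>
    refine StepU.root ?_ _
    obtain ⟨ρ, hρ, σ, rfl⟩ := ht
    refine ⟨ρ, hρ, fun x => plug D (σ x), ?_⟩
    apply plug_subst
    -- left-hand sides contain no `•`
    obtain ⟨l, hl, rfl⟩ := List.mem_map.1 hρ
    simp only
    have hx : ∀ X m E, ¬ HasBul (xrow G X m E) := by
      intro X m E
      refine not_hasBul_cols (fun i _ => ?_) (fun j _ => not_hasBul_c _)
      split
      · cases X <;> simp [pat, hasBul_fn, not_hasBul_var, not_hasBul_c]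
      · exact not_hasBul_c _
    have hcX : ∀ X, ¬ HasBul (cX X) := by
      intro X
      cases X <;> exact not_hasBul_c _
    rw [lhss, List.mem_cons, List.mem_cons, List.mem_append, List.mem_flatMap,
      List.mem_flatMap] at hl
    rcases hl with rfl | rfl | ⟨X, _, hl⟩ | ⟨m, hm, hl⟩
    · simp [hasBul_fn, not_hasBul_c]
    · simp [hasBul_fn, not_hasBul_c, not_hasBul_var]
    · rw [List.mem_map] at hl
      obtain ⟨m, hm, rfl⟩ := hl
      simp [hasBul_fn, hx, hcX]
    · unfold mrules at hl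
      split at hl
      · rw [List.mem_singleton] at hl
        subst hl
        rw [lrow, hasBul_fn]
        rintro ⟨a, ha, hb⟩
        rw [List.mem_map] at ha
        obtain ⟨_, _, rfl⟩ := ha
        exact not_hasBul_c _ hb
      · rw [List.mem_flatMap] at hl
        obtain ⟨j, hj, hl⟩ := hl
        rw [List.mem_flatMap] at hl
        obtain ⟨b, hb, hl⟩ := hl
        rw [List.mem_flatMap] at hl
        obtain ⟨X, _, hl⟩ := hl
        rw [List.mem_map] at hl
        obtain ⟨m', hm', rfl⟩ := hl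
        refine not_hasBul_cols (fun i _ => ?_) (fun j _ => ?_)
        · split
          · exact hcX _
          · exact not_hasBul_c _
        · split
          · exact hx _ _ _
          · exact not_hasBul_c _
  | @arg f l r a b h ih =>
    rw [plug_fn, plug_fn, List.map_append, List.map_append, List.map_cons, List.map_cons]
    exact StepU.arg ih

theorem ru_plug {D a b : Tm} (h : RU (trs G) a b) : RU (trs G) (plug D a) (plug D b) := by
  induction h with
  | refl => exact ReflTransGen.refl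
  | tail _ h2 ih => exact ih.tail (stepU_plug h2)

theorem gt_map_plug {D : Tm} {us : List Tm} {i : ℕ} (hi : i < us.length) :
    gt (us.map (plug D)) i = plug D (gt us i) := by
  simp [gt, hi]

/-- If `K` cannot be reached componentwise, safety is not affected by `K`. -/
theorem safe_dead {g : ℕ} {ts : List Tm} {K : Tm → Prop} (hb : ¬ HasBul (.fn g ts))
    (h : Safe G (fun _ => False) (.fn g ts)) (hbul : ¬ K .bul)
    (hK : ∀ us, RL (trs G) ts us → ¬ K (.fn g us))
    (hpl : ∀ D u, K u → u ≠ .bul → K (plug D u)) : Safe G K (.fn g ts) := by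
  obtain ⟨D, e, h1, h2, h3⟩ := h
  refine ⟨D, e, h1, h2, fun u hu => ⟨(h3 u hu).1, fun hk => ?_⟩⟩
  rcases oneHole_fn h2 with ⟨rfl, rfl⟩ | ⟨i, hi, a, ha, rfl⟩
  · rw [nf_ru nf_bul hu] at hk
    exact hbul hk
  · have hpa : plug D a = gt ts i :=
      oneHole_plug ha (fun h => hb (hasBul_fn.2 ⟨_, gt_mem hi, h⟩))
    rcases root_lemma hu with ⟨us, rfl, h4⟩ | ⟨us, h4, h5⟩
    · have h6 := hpl D _ hk (by simp)
      rw [plug_fn] at h6
      have hl : us.length = ts.length := by
        have := h4.1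
        rw [List.length_set] at this
        omega
      refine hK _ ⟨by simp [hl], fun j hj => ?_⟩ h6
      rw [gt_map_plug (by omega)]
      have h7 := h4.2 j (by rw [List.length_set]; exact hj)
      by_cases hji : j = i
      · subst hji
        rw [gt_set_self hi] at h7
        have h8 := ru_plug (D := D) h7
        rwa [hpa] at h8
      · rw [gt_set_ne hji] at h7
        have h8 := ru_plug (D := D) h7
        rwa [plug_eq_self D _ (fun h => hb (hasBul_fn.2 ⟨_, gt_mem hj, h⟩))] at h8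
    · exact not_hasBul_var 0 (h3 _ (soft_of_rl h4 h5 (.var 0))).1

theorem patP_ru {X : Bool} {s u : Tm} (h : PatP X s) (hu : RU (trs G) s u) : ¬ Cst u := by
  have key : ∀ ts : List Tm, ts.length = 2 → (gt ts 0 = c 0 ∨ gt ts 1 = c 0) →
      RU (trs G) (.fn 3 ts) u → ¬ Cst u := by
    intro ts hl h0 hu
    rcases root_lemma hu with ⟨us, rfl, h1⟩ | ⟨us, h1, h2⟩
    · rintro ⟨k, hk⟩
      rw [c] at hk
      have hk := (Tm.fn_inj hk).2
      have := h1.1
      rw [hk, hl] at this
      simp at this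
    · exfalso
      rw [redex_iff] at h2
      rcases h2 with h | ⟨v, h⟩ | ⟨X, m, hm, v, h, _⟩ | ⟨m', hm', hJ', h⟩ |
        ⟨m', hm', j, hj, b1, hb1, X, m'', hm'', us, h, hus⟩
      · have h := (Tm.fn_inj h).2
        subst h
        rcases h0 with h0 | h0
        · have h3 := h1.2 0 (by omega)
          rw [h0] at h3
          have := nf_ru (nf_c 0) h3
          simp [gt, c] at this
        · have h3 := h1.2 1 (by omega)
          rw [h0] at h3
          have := nf_ru (nf_c 0) h3
          simp [gt, c] at this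
      · have h := (Tm.fn_inj h).1; omega
      · have h := (Tm.fn_inj h).1; omega
      · have h := (Tm.fn_inj h).1; omega
      · have h := (Tm.fn_inj h).1; omega
  obtain ⟨v, rfl⟩ := h
  cases X
  · exact key _ rfl (Or.inr rfl) hu
  · exact key _ rfl (Or.inl rfl) hu

theorem node_redex {m : ℕ} {us : List Tm} : IsRedex (trs G) (.fn (5 + m) us) ↔ m < G.M ∧
    ((G.J m = 0 ∧ us.length = G.n ∧ ∀ i < G.n, gt us i = c 1) ∨
      ∃ j < G.J m, ∃ b < G.n, ∃ X, ∃ m' ∈ (G.br m j).2, YMatch G m j b X m' us) := by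
  rw [redex_iff]
  constructor
  · rintro (h | ⟨v, h⟩ | ⟨X, m, hm, v, h, _⟩ | ⟨m', hm', hJ', h⟩ |
      ⟨m', hm', j, hj, b1, hb1, X, m'', hm'', vs, h, hus⟩)
    · have h := (Tm.fn_inj h).1; omega
    · have h := (Tm.fn_inj h).1; omega
    · have h := (Tm.fn_inj h).1; omega
    · obtain ⟨h1, h2⟩ := Tm.fn_inj h
      obtain rfl : m = m' := by omega
      refine ⟨hm', Or.inl ⟨hJ', ?_, fun i hi => ?_⟩⟩
      · rw [h2]; simp
      · rw [h2]; simp [gt, hi]
    · obtain ⟨h1, h2⟩ := Tm.fn_inj h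
      obtain rfl : m = m' := by omega
      subst h2
      exact ⟨hm', Or.inr ⟨j, hj, b1, hb1, X, m'', hm'', hus⟩⟩
  · rintro ⟨hm, ⟨hJ, hl, h⟩ | ⟨j, hj, b, hb, X, m', hm', h⟩⟩
    · right; right; right; left
      refine ⟨m, hm, hJ, ?_⟩
      congr 1
      apply list_ext_gt (by simp [hl])
      intro i hi
      rw [h i (by omega)]
      have : i < G.n := by omega
      simp [gt, this]
    · right; right; right; right
      exact ⟨m, hm, j, hj, b, hb, X, m', hm', us, rfl, h⟩

theorem isX_ru {X : Bool} {m : ℕ} {D : ℕ → Prop} {v u : Tm} (h : IsX G X m D v)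
    (hu : RU (trs G) v u) : ¬ Cst u := by
  obtain ⟨us, rfl, h1, h2, h3⟩ := h
  have hn := G.n_pos
  rcases root_lemma hu with ⟨ws, rfl, h4⟩ | ⟨ws, h4, h5⟩
  · rintro ⟨k, hk⟩
    rw [c] at hk
    have hk := (Tm.fn_inj hk).2
    have := h4.1
    rw [hk, h1] at this
    simp at this
    omega
  · exfalso
    obtain ⟨hm, ⟨hJ, hl, h⟩ | ⟨j, hj, b, hb, X', m', hm', h⟩⟩ := node_redex.1 h5
    · have h6 := h4.2 0 (by omega)
      rw [h 0 hn] at h6
      by_cases hD : D 0
      · exact patP_ru ((h2 0 hn).1 hD) h6 ⟨1, rfl⟩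
      · rw [(h2 0 hn).2 hD] at h6
        have := nf_ru (nf_c 0) h6
        simp [c] at this
    · have h6 := h4.2 (G.n + j) (by omega)
      rw [h3 j hj] at h6
      have h7 := h.2.2.2
      rw [nf_ru (nf_c 0) h6] at h7
      obtain ⟨_, h8, _⟩ := h7
      rw [c] at h8
      have h8 := (Tm.fn_inj h8).1
      omega

theorem isX_plug {X : Bool} {m : ℕ} {D : ℕ → Prop} {u : Tm} (E : Tm) (h : IsX G X m D u) :
    IsX G X m D (plug E u) := by
  obtain ⟨us, rfl, h1, h2, h3⟩ := h
  rw [plug_fn]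
  refine ⟨_, rfl, by simpa using h1, fun i hi => ?_, fun j hj => ?_⟩
  · rw [gt_map_plug (by omega)]
    refine ⟨fun hD => ?_, fun hD => ?_⟩
    · obtain ⟨v, hv⟩ := (h2 i hi).1 hD
      rw [hv]
      refine ⟨plug E v, ?_⟩
      cases X <;> simp
    · rw [(h2 i hi).2 hD]
      simp
  · rw [gt_map_plug (by omega), h3 j hj]
    simp

/-- Killers of one type. -/
def KX (G : Game) (X : Bool) (M : ℕ → Prop) (D : ℕ → Prop) (u : Tm) : Prop :=
  ∃ m, M m ∧ IsX G X m D u

/-- Killers of both types, with alive bits `Z`. -/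
def K2 (G : Game) (M : ℕ → Prop) (Z : ℕ → Prop) (u : Tm) : Prop :=
  ∃ m, M m ∧ ∃ X, ∃ D : ℕ → Prop, (∀ i < G.n, D i → Z i) ∧ IsX G X m D u

/-- The statement proved by induction. -/
structure Ind (G : Game) (t : Tm) : Prop where
  p1 : ∀ X M D, Safe G (KX G X M D) t ∨ KX G X M D t
  p2 : SoftU G t → ∀ M Z, (∀ m, M m → ¬ G.Win m Z) → Safe G (K2 G M Z) t
  p3 : ∀ X, Safe G (PatP X) t ∨ PatP X t

theorem Ind.p0 {t : Tm} (h : Ind G t) : Safe G (fun _ => False) t := by
  rcases h.p1 false (fun _ => False) (fun _ => False) with h | ⟨m, h, _⟩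
  · exact h.mono (fun _ _ h => h.elim)
  · exact h.elim

theorem not_isX_bul {X : Bool} {m : ℕ} {D : ℕ → Prop} : ¬ IsX G X m D .bul := by
  rintro ⟨us, h, _⟩
  cases h

theorem not_isX_c {X : Bool} {m : ℕ} {D : ℕ → Prop} {u : Tm} (hu : Cst u) : ¬ IsX G X m D u :=
  fun h => isX_ru h ReflTransGen.refl hu

theorem not_patP_c {X : Bool} {u : Tm} (hu : Cst u) : ¬ PatP X u :=
  fun h => patP_ru (G := ([], [], [], [])) h ReflTransGen.refl hu

theorem not_patP_bul {X : Bool} : ¬ PatP X .bul := by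
  rintro ⟨v, h⟩
  cases X <;> cases h

theorem exists_not_nf {g : ℕ} {ts : List Tm} (hn : ¬ NF (trs G) (.fn g ts))
    (hr : ¬ IsRedex (trs G) (.fn g ts)) : ∃ i < ts.length, ¬ NF (trs G) (gt ts i) := by
  by_contra hcon
  push Not at hcon
  apply hn
  intro D hD hDr
  rcases subterm_fn hD with rfl | ⟨a, ha, h⟩
  · exact hr hDr
  · obtain ⟨i, hi, rfl⟩ := List.getElem_of_mem ha
    have h2 := hcon i hi
    have h3 : gt ts i = ts[i] := by simp [gt, hi]
    rw [h3] at h2
    exact h2 D h hDr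

end Pool.Agent.H820R2.SS
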