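import Pool.Agent.H820R2.SS.Sound

/-!
# If the game is not accepting, the system is strongly sequential: the induction
-/

namespace Pool.Agent.H820R2.SS

open Relation

variable {G : Game}

/-- Default case: no redex at the root and no killer. -/
theorem safe_default {g : ℕ} {ts : List Tm} {K : Tm → Prop}
    (hn : ¬ NF (trs G) (.fn g ts)) (hr : ¬ IsRedex (trs G) (.fn g ts))
    (ih : ∀ i < ts.length, ¬ NF (trs G) (gt ts i) → Ind G (gt ts i))
    (h : ∀ us : List Tm, us.length = ts.length → IsRedex (trs G) (.fn g us) ∨ K (.fn g us) →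
      ∀ i < ts.length, Cst (gt us i)) : Safe G K (.fn g ts) := by
  obtain ⟨i, hi, hni⟩ := exists_not_nf hn hr
  refine safe_col hi (ih i hi hni).p0.cst (fun us hl _ hk => h us hl hk i hi)

theorem case3 {ts : List Tm} (hn : ¬ NF (trs G) (.fn 3 ts)) (hr : ¬ IsRedex (trs G) (.fn 3 ts))
    (ih : ∀ i < ts.length, ¬ NF (trs G) (gt ts i) → Ind G (gt ts i)) {K : Tm → Prop}
    (hK : ∀ us, ¬ K (.fn 3 us)) : Safe G K (.fn 3 ts) := by
  refine safe_default hn hr ih (fun us hl h => ?_)
  rcases h with h | h
  · rw [redex_iff] at h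
    rcases h with h | ⟨v, h⟩ | ⟨X, m, hm, v, h, _⟩ | ⟨m', hm', hJ', h⟩ |
      ⟨m', hm', j, hj, b1, hb1, X, m'', hm'', us, h, hus⟩
    · have h := (Tm.fn_inj h).2
      subst h
      intro i hi
      match i, hi, hl with
      | 0, _, _ => exact ⟨1, rfl⟩
      | 1, _, _ => exact ⟨1, rfl⟩
      | (k + 2), hi, hl => simp at hl; omega
    · have h := (Tm.fn_inj h).1; omega
    · have h := (Tm.fn_inj h).1; omega
    · have h := (Tm.fn_inj h).1; omega
    · have h := (Tm.fn_inj h).1; omega
  · exact absurd h (hK us)

theorem case3_p3 {ts : List Tm} (hn : ¬ NF (trs G) (.fn 3 ts)) (hr : ¬ IsRedex (trs G) (.fn 3 ts))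
    (ih : ∀ i < ts.length, ¬ NF (trs G) (gt ts i) → Ind G (gt ts i)) (X : Bool) :
    Safe G (PatP X) (.fn 3 ts) ∨ PatP X (.fn 3 ts) := by
  have hred : ∀ us : List Tm, IsRedex (trs G) (.fn 3 us) → us = [c 1, c 1] := by
    intro us h
    rw [redex_iff] at h
    rcases h with h | ⟨v, h⟩ | ⟨X, m, hm, v, h, _⟩ | ⟨m', hm', hJ', h⟩ |
      ⟨m', hm', j, hj, b1, hb1, X, m'', hm'', us, h, hus⟩
    · exact (Tm.fn_inj h).2
    · have h := (Tm.fn_inj h).1; omega
    · have h := (Tm.fn_inj h).1; omega
    · have h := (Tm.fn_inj h).1; omega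
    · have h := (Tm.fn_inj h).1; omega
  -- `ic` is the constant side, `iv` the variable side
  obtain ⟨ic, iv, hiciv⟩ : ∃ ic iv : ℕ, (ic = if X then 0 else 1) ∧ iv = if X then 1 else 0 :=
    ⟨_, _, rfl, rfl⟩
  have hPiff : ∀ us : List Tm, PatP X (.fn 3 us) ↔ us.length = 2 ∧ gt us ic = c 0 := by
    intro us
    constructor
    · rintro ⟨v, hv⟩
      cases X
      · simp only [Bool.false_eq_true, if_false] at hv hiciv
        have hv := (Tm.fn_inj hv).2
        subst hv
        rw [hiciv.1]
        exact ⟨rfl, rfl⟩
      · simp only [if_true] at hv hiciv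
        have hv := (Tm.fn_inj hv).2
        subst hv
        rw [hiciv.1]
        exact ⟨rfl, rfl⟩
    · rintro ⟨h1, h2⟩
      match us, h1 with
      | [a, b], _ =>
        cases X
        · simp only [Bool.false_eq_true, if_false] at hiciv
          rw [hiciv.1] at h2
          have : b = c 0 := h2
          subst this
          exact ⟨a, by simp⟩
        · simp only [if_true] at hiciv
          rw [hiciv.1] at h2
          have : a = c 0 := h2
          subst this
          exact ⟨b, by simp⟩
  by_cases hl : ts.length = 2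
  · have hic : ic < ts.length := by
      rw [hiciv.1, hl]; split <;> omega
    have hiv : iv < ts.length := by
      rw [hiciv.2, hl]; split <;> omega
    have hne : iv ≠ ic := by
      rw [hiciv.1, hiciv.2]; cases X <;> simp
    by_cases hcn : NF (trs G) (gt ts ic)
    · -- the variable side is not a normal form
      have hvn : ¬ NF (trs G) (gt ts iv) := by
        intro hvn
        obtain ⟨i, hi, hni⟩ := exists_not_nf hn hr
        have : i = ic ∨ i = iv := by
          rw [hiciv.1, hiciv.2]
          cases X <;> simp <;> omega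
        rcases this with rfl | rfl
        · exact hni hcn
        · exact hni hvn
      by_cases h0 : gt ts ic = c 0
      · right
        rw [hPiff]
        exact ⟨hl, h0⟩
      · left
        refine safe_col hiv (ih iv hiv hvn).p0.cst (fun us hus hreach h => ?_)
        rcases h with h | h
        · rw [hred us h]
          rw [hiciv.2]
          cases X
          · exact ⟨1, rfl⟩
          · exact ⟨1, rfl⟩
        · exfalso
          have h1 := ((hPiff us).1 h).2
          have h2 := nf_ru hcn (hreach ic hic hne.symm)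
          rw [h1] at h2
          exact h0 h2.symm
    · left
      refine safe_col hic (ih ic hic hcn).p0.cst (fun us hus hreach h => ?_)
      rcases h with h | h
      · rw [hred us h]
        rw [hiciv.1]
        cases X
        · exact ⟨1, rfl⟩
        · exact ⟨1, rfl⟩
      · exact ⟨0, ((hPiff us).1 h).2⟩
  · left
    refine safe_default hn hr ih (fun us hus h => ?_)
    rcases h with h | h
    · rw [hred us h] at hus
      exact absurd hus.symm hl
    · exact absurd (hus ▸ ((hPiff us).1 h).1) hl

theorem redex4 {us : List Tm} (h : IsRedex (trs G) (.fn 4 us)) :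
    (∃ v, us = [v, c 1]) ∨ ∃ X, ∃ m ∈ G.next0, ∃ v, us = [cX X, v] ∧
      IsX G X m (fun b => b ∈ G.Z0) v := by
  rw [redex_iff] at h
  rcases h with h | ⟨v, h⟩ | ⟨X, m, hm, v, h, h2⟩ | ⟨m', hm', hJ', h⟩ |
    ⟨m', hm', j, hj, b1, hb1, X, m'', hm'', us, h, hus⟩
  · have h := (Tm.fn_inj h).1; omega
  · have h := (Tm.fn_inj h).2
    exact Or.inl ⟨v, h⟩
  · have h := (Tm.fn_inj h).2
    exact Or.inr ⟨X, m, hm, v, h, h2⟩
  · have h := (Tm.fn_inj h).1; omega
  · have h := (Tm.fn_inj h).1; omega

theorem case4 (hacc : ¬ G.Acc) {ts : List Tm} (hn : ¬ NF (trs G) (.fn 4 ts))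
    (hr : ¬ IsRedex (trs G) (.fn 4 ts))
    (ih : ∀ i < ts.length, ¬ NF (trs G) (gt ts i) → Ind G (gt ts i)) {K : Tm → Prop}
    (hK : ∀ us, ¬ K (.fn 4 us)) : Safe G K (.fn 4 ts) := by
  by_cases hl : ts.length = 2
  swap
  · refine safe_default hn hr ih (fun us hus h => ?_)
    rcases h with h | h
    · rcases redex4 h with ⟨v, rfl⟩ | ⟨X, m, hm, v, rfl, _⟩
      · exact absurd hus.symm hl
      · exact absurd hus.symm hl
    · exact absurd h (hK us)
  match ts, hl with
  | [w, r], _ =>
    have h0 : (0 : ℕ) < [w, r].length := by simp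
    have h1 : (1 : ℕ) < [w, r].length := by simp
    by_cases hrn : NF (trs G) r
    · -- `r` is a normal form
      have hr1 : r ≠ c 1 := by
        rintro rfl
        exact hr (redex_iff.2 (Or.inr (Or.inl ⟨w, rfl⟩)))
      have hwn : ¬ NF (trs G) w := by
        intro hwn
        obtain ⟨i, hi, hni⟩ := exists_not_nf hn hr
        match i, hi with
        | 0, _ => exact hni hwn
        | 1, _ => exact hni hrn
      refine safe_col h0 (ih 0 h0 hwn).p0.cst (fun us hus hreach h => ?_)
      rcases h with h | h
      · have h2 : gt us 1 = r := nf_ru hrn (hreach 1 h1 (by omega))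
        rcases redex4 h with ⟨v, rfl⟩ | ⟨X, m, hm, v, rfl, _⟩
        · exact absurd h2.symm hr1
        · exact cst_cX X
      · exact absurd h (hK us)
    · have ir := ih 1 h1 hrn
      by_cases hrs : SoftU G r
      · by_cases hwn : NF (trs G) w
        · -- `w` is a normal form
          by_cases hX : ∃ X, w = cX X
          · obtain ⟨X, rfl⟩ := hX
            rcases ir.p1 X (fun m => m ∈ G.next0) (fun b => b ∈ G.Z0) with hs | ⟨m, hm, hi⟩
            · refine safe_col h1 hs.orCst (fun us hus hreach h => ?_)
              rcases h with h | h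
              · have h2 : gt us 0 = cX X := nf_ru hwn (hreach 0 h0 (by omega))
                rcases redex4 h with ⟨v, rfl⟩ | ⟨X', m, hm, v, rfl, hv⟩
                · exact Or.inr ⟨1, rfl⟩
                · have : X' = X := cX_inj h2
                  subst this
                  exact Or.inl ⟨m, hm, hv⟩
              · exact absurd h (hK us)
            · exact absurd ⟨1, rfl⟩ (isX_ru hi (hrs (c 1)))
          · refine safe_col h1 ir.p0.cst (fun us hus hreach h => ?_)
            rcases h with h | h
            · have h2 : gt us 0 = w := nf_ru hwn (hreach 0 h0 (by omega))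
              rcases redex4 h with ⟨v, rfl⟩ | ⟨X', m, hm, v, rfl, hv⟩
              · exact ⟨1, rfl⟩
              · exact absurd ⟨X', h2.symm⟩ hX
            · exact absurd h (hK us)
        · have hs := ir.p2 hrs (fun m => m ∈ G.next0) (fun b => b ∈ G.Z0)
            (fun m hm hw => hacc ⟨m, hm, hw⟩)
          refine safe_col h1 hs.orCst (fun us hus hreach h => ?_)
          rcases h with h | h
          · rcases redex4 h with ⟨v, rfl⟩ | ⟨X', m, hm, v, rfl, hv⟩
            · exact Or.inr ⟨1, rfl⟩
            · exact Or.inl ⟨m, hm, X', _, fun _ _ h => h, hv⟩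
          · exact absurd h (hK us)
      · -- `r` is not soft
        have hr1 : ∀ us : List Tm, RU (trs G) r (gt us 1) → ∀ v, us ≠ [v, c 1] := by
          rintro us h v rfl
          rcases ru_const h ⟨1, rfl⟩ with h | h
          · apply hrn
            rw [h]
            exact nf_c 1
          · exact hrs h
        by_cases hwn : NF (trs G) w
        · by_cases hX : ∃ X, w = cX X
          · obtain ⟨X, rfl⟩ := hX
            rcases ir.p1 X (fun m => m ∈ G.next0) (fun b => b ∈ G.Z0) with hs | ⟨m, hm, hi⟩
            · refine safe_col h1 hs.orCst (fun us hus hreach h => ?_)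
              rcases h with h | h
              · have h2 : gt us 0 = cX X := nf_ru hwn (hreach 0 h0 (by omega))
                rcases redex4 h with ⟨v, rfl⟩ | ⟨X', m, hm, v, rfl, hv⟩
                · exact Or.inr ⟨1, rfl⟩
                · have : X' = X := cX_inj h2
                  subst this
                  exact Or.inl ⟨m, hm, hv⟩
              · exact absurd h (hK us)
            · exact absurd (redex_iff.2 (Or.inr (Or.inr (Or.inl ⟨X, m, hm, r, rfl, hi⟩)))) hr
          · refine safe_col h1 ir.p0.cst (fun us hus hreach h => ?_)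
            rcases h with h | h
            · have h2 : gt us 0 = w := nf_ru hwn (hreach 0 h0 (by omega))
              rcases redex4 h with ⟨v, rfl⟩ | ⟨X', m, hm, v, rfl, hv⟩
              · exact ⟨1, rfl⟩
              · exact absurd ⟨X', h2.symm⟩ hX
            · exact absurd h (hK us)
        · refine safe_col h0 (ih 0 h0 hwn).p0.cst (fun us hus hreach h => ?_)
          rcases h with h | h
          · rcases redex4 h with ⟨v, rfl⟩ | ⟨X', m, hm, v, rfl, hv⟩
            · exact absurd rfl (hr1 _ (hreach 1 h1 (by omega)) v)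
            · exact cst_cX X'
          · exact absurd h (hK us)

/-- Analysis of a node for killers of one type. -/
theorem nodeA {m : ℕ} {ts : List Tm} (hn : ¬ NF (trs G) (.fn (5 + m) ts))
    (hr : ¬ IsRedex (trs G) (.fn (5 + m) ts))
    (ih : ∀ i < ts.length, ¬ NF (trs G) (gt ts i) → Ind G (gt ts i))
    (X : Bool) (D : ℕ → Prop) (inM : Prop) {K : Tm → Prop}
    (hK : ∀ us, K (.fn (5 + m) us) → inM ∧ IsX G X m D (.fn (5 + m) us)) :
    Safe G K (.fn (5 + m) ts) ∨ (inM ∧ IsX G X m D (.fn (5 + m) ts)) := by
  -- unpacking of the killer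
  have hK' : ∀ us, K (.fn (5 + m) us) → inM ∧ us.length = G.n + G.J m ∧
      (∀ i < G.n, (D i → PatP X (gt us i)) ∧ (¬ D i → gt us i = c 0)) ∧
      ∀ j < G.J m, gt us (G.n + j) = c 0 := by
    intro us h
    obtain ⟨h1, us', h2, h3⟩ := hK us h
    have h2 := (Tm.fn_inj h2).2
    subst h2
    exact ⟨h1, h3⟩
  by_cases hl : ts.length = G.n + G.J m
  swap
  · left
    refine safe_default hn hr ih (fun us hus h => ?_)
    rcases h with h | h
    · obtain ⟨hm, ⟨hJ, hl', h⟩ | ⟨j, hj, b, hb, X, m', hm', h⟩⟩ := node_redex.1 h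
      · exact absurd (by omega) hl
      · exact absurd (hus ▸ h.1) hl
    · exact absurd (hus ▸ (hK' us h).2.1) hl
  -- bit columns of redexes are constants
  have hbit : ∀ us : List Tm, IsRedex (trs G) (.fn (5 + m) us) → ∀ i < G.n, Cst (gt us i) := by
    intro us h i hi
    obtain ⟨hm, ⟨hJ, hl', h⟩ | ⟨j, hj, b, hb, X, m', hm', h⟩⟩ := node_redex.1 h
    · rw [h i hi]
      exact ⟨1, rfl⟩
    · rw [h.2.1 i hi]
      split
      · exact cst_cX X
      · exact ⟨0, rfl⟩
  by_cases hbn : ∃ i < G.n, ¬ NF (trs G) (gt ts i)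
  · -- some bit column is not a normal form
    by_cases hall : ∀ i < G.n, ¬ NF (trs G) (gt ts i) → D i ∧ PatP X (gt ts i)
    · obtain ⟨i0, hi0, hni0⟩ := hbn
      have hi0' : i0 < ts.length := by omega
      by_cases hbr : ∃ j < G.J m, ¬ NF (trs G) (gt ts (G.n + j))
      · left
        obtain ⟨j, hj, hnj⟩ := hbr
        have hj' : G.n + j < ts.length := by omega
        refine safe_col hj' (ih _ hj' hnj).p0.cst (fun us hus hreach h => ?_)
        rcases h with h | h
        · exfalso
          exact patP_ru (hall i0 hi0 hni0).2 (hreach i0 hi0' (by omega)) (hbit us h i0 hi0)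
        · exact ⟨0, (hK' us h).2.2.2 j hj⟩
      · push Not at hbr
        by_cases hfin : inM ∧ IsX G X m D (.fn (5 + m) ts)
        · exact Or.inr hfin
        · left
          refine safe_col hi0' (ih _ hi0' hni0).p0.cst (fun us hus hreach h => ?_)
          rcases h with h | h
          · exact hbit us h i0 hi0
          · exfalso
            obtain ⟨h1, h2, h3, h4⟩ := hK' us h
            apply hfin
            refine ⟨h1, ts, rfl, hl, fun i hi => ?_, fun j hj => ?_⟩
            · by_cases hni : NF (trs G) (gt ts i)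
              · have hne : i ≠ i0 := by
                  rintro rfl
                  exact hni0 hni
                have := nf_ru hni (hreach i (by omega) hne)
                rw [← this]
                exact h3 i hi
              · obtain ⟨h5, h6⟩ := hall i hi hni
                exact ⟨fun _ => h6, fun h7 => absurd h5 h7⟩
            · have := nf_ru (hbr j hj) (hreach (G.n + j) (by omega) (by omega))
              rw [← this]
              exact h4 j hj
    · left
      push Not at hall
      obtain ⟨i, hi, hni, hDi⟩ := hall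
      have hi' : i < ts.length := by omega
      have ii := ih i hi' hni
      by_cases hD : D i
      · rcases ii.p3 X with hs | hp
        · refine safe_col hi' hs.orCst (fun us hus hreach h => ?_)
          rcases h with h | h
          · exact Or.inr (hbit us h i hi)
          · exact Or.inl (((hK' us h).2.2.1 i hi).1 hD)
        · exact absurd hp (hDi hD)
      · refine safe_col hi' ii.p0.cst (fun us hus hreach h => ?_)
        rcases h with h | h
        · exact hbit us h i hi
        · exact ⟨0, ((hK' us h).2.2.1 i hi).2 hD⟩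
  · -- all bit columns are normal forms
    left
    push Not at hbn
    obtain ⟨i0, hi0, hni0⟩ := exists_not_nf hn hr
    obtain ⟨j0, rfl⟩ : ∃ j0, i0 = G.n + j0 := by
      refine ⟨i0 - G.n, ?_⟩
      by_contra hcon
      exact hni0 (hbn i0 (by omega))
    have hj0 : j0 < G.J m := by omega
    by_cases hbX : ∃ b0 X0, b0 < G.n ∧ ∀ i < G.n, gt ts i = if i = b0 then cX X0 else c 0
    swap
    · refine safe_col hi0 (ih _ hi0 hni0).p0.cst (fun us hus hreach h => ?_)
      rcases h with h | h
      · exfalso
        obtain ⟨hm, ⟨hJ, hl', h⟩ | ⟨j, hj, b, hb, X, m', hm', h⟩⟩ := node_redex.1 h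
        · omega
        · apply hbX
          refine ⟨b, X, hb, fun i hi => ?_⟩
          rw [← h.2.1 i hi]
          exact (nf_ru (hbn i hi) (hreach i (by omega) (by omega))).symm
      · exact ⟨0, (hK' us h).2.2.2 j0 hj0⟩
    obtain ⟨b0, X0, hb0, hbX⟩ := hbX
    -- uniqueness of the bit
    have huniq : ∀ us : List Tm, us.length = ts.length →
        (∀ i < G.n, gt us i = gt ts i) → ∀ j b X' m', b < G.n → YMatch G m j b X' m' us →
          b = b0 ∧ X' = X0 := by
      intro us hus hre j b X' m' hb h
      have h1 := h.2.1 b hb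
      rw [if_pos rfl, hre b hb, hbX b hb] at h1
      split at h1
      · rename_i hbb
        exact ⟨hbb, (cX_inj h1).symm⟩
      · exact absurd h1.symm (cX_ne X')
    by_cases hinst : ∀ j < G.J m, ¬ NF (trs G) (gt ts (G.n + j)) →
        KX G X0 (fun m' => m' ∈ (G.br m j).2) (fun b' => (b0, b') ∈ (G.br m j).1)
          (gt ts (G.n + j))
    · by_cases htwo : ∃ j1 < G.J m, j1 ≠ j0 ∧ ¬ NF (trs G) (gt ts (G.n + j1))
      · obtain ⟨j1, hj1, hne, hnj1⟩ := htwo
        obtain ⟨m1, _, hX1⟩ := hinst j1 hj1 hnj1
        refine safe_col hi0 (ih _ hi0 hni0).p0.cst (fun us hus hreach h => ?_)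
        rcases h with h | h
        · obtain ⟨hm, ⟨hJ, hl', h⟩ | ⟨j, hj, b, hb, X, m', hm', h⟩⟩ := node_redex.1 h
          · omega
          · by_cases hjj : j = j0
            · subst hjj
              exfalso
              refine isX_ru hX1 (hreach (G.n + j1) (by omega) (by omega)) ?_
              rw [h.2.2.1 j1 hj1 hne]
              exact ⟨1, rfl⟩
            · rw [h.2.2.1 j0 hj0 (Ne.symm hjj)]
              exact ⟨1, rfl⟩
        · exact ⟨0, (hK' us h).2.2.2 j0 hj0⟩
      · push Not at htwo
        obtain ⟨m0, hm0, hX0⟩ := hinst j0 hj0 hni0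
        refine safe_col hi0 (ih _ hi0 hni0).p0.cst (fun us hus hreach h => ?_)
        rcases h with h | h
        · obtain ⟨hm, ⟨hJ, hl', h⟩ | ⟨j, hj, b, hb, X, m', hm', h⟩⟩ := node_redex.1 h
          · omega
          · by_cases hjj : j = j0
            · subst hjj
              exfalso
              apply hr
              refine node_redex.2 ⟨hm, Or.inr ⟨j, hj, b0, hb0, X0, m0, hm0, hl, hbX,
                fun j' hj' hne => ?_, hX0⟩⟩
              rw [← h.2.2.1 j' hj' hne]
              exact (nf_ru (htwo j' hj' hne) (hreach (G.n + j') (by omega) (by omega))).symm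
            · rw [h.2.2.1 j0 hj0 (Ne.symm hjj)]
              exact ⟨1, rfl⟩
        · exact ⟨0, (hK' us h).2.2.2 j0 hj0⟩
    · push Not at hinst
      obtain ⟨j, hj, hnj, hnX⟩ := hinst
      have hj' : G.n + j < ts.length := by omega
      rcases (ih _ hj' hnj).p1 X0 (fun m' => m' ∈ (G.br m j).2)
        (fun b' => (b0, b') ∈ (G.br m j).1) with hs | hX
      · refine safe_col hj' hs.orCst (fun us hus hreach h => ?_)
        rcases h with h | h
        · obtain ⟨hm, ⟨hJ, hl', h⟩ | ⟨j', hj', b, hb, X, m', hm', h⟩⟩ := node_redex.1 h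
          · omega
          · obtain ⟨rfl, rfl⟩ := huniq us hus
              (fun i hi => nf_ru (hbn i hi) (hreach i (by omega) (by omega))) j' b X m' hb h
            by_cases hjj : j' = j
            · subst hjj
              exact Or.inl ⟨m', hm', h.2.2.2⟩
            · rw [h.2.2.1 j hj (Ne.symm hjj)]
              exact Or.inr ⟨1, rfl⟩
        · exact Or.inr ⟨0, (hK' us h).2.2.2 j hj⟩
      · exact absurd hX hnX

theorem k2_plug {M Z : ℕ → Prop} (D u : Tm) (h : K2 G M Z u) : K2 G M Z (plug D u) := by
  obtain ⟨m, hm, X, E, hE, hX⟩ := h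
  exact ⟨m, hm, X, E, hE, isX_plug D hX⟩

theorem not_k2_bul {M Z : ℕ → Prop} : ¬ K2 G M Z .bul := by
  rintro ⟨m, hm, X, E, hE, hX⟩
  exact not_isX_bul hX

/-- Analysis of a soft node for killers of both types. -/
theorem nodeB {m : ℕ} {ts : List Tm} (hb : ¬ HasBul (.fn (5 + m) ts))
    (hn : ¬ NF (trs G) (.fn (5 + m) ts)) (hr : ¬ IsRedex (trs G) (.fn (5 + m) ts))
    (ih : ∀ i < ts.length, ¬ NF (trs G) (gt ts i) → Ind G (gt ts i))
    (hs : SoftU G (.fn (5 + m) ts)) (M Z : ℕ → Prop) (hW : ∀ m, M m → ¬ G.Win m Z) :
    Safe G (K2 G M Z) (.fn (5 + m) ts) := by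
  -- unpacking of the killer
  have hK' : ∀ us, K2 G M Z (.fn (5 + m) us) → M m ∧ ∃ X, ∃ D : ℕ → Prop,
      (∀ i < G.n, D i → Z i) ∧ us.length = G.n + G.J m ∧
      (∀ i < G.n, (D i → PatP X (gt us i)) ∧ (¬ D i → gt us i = c 0)) ∧
      ∀ j < G.J m, gt us (G.n + j) = c 0 := by
    rintro us ⟨m', hm', X, D, hD, us', h2, h3⟩
    obtain ⟨h1, h2'⟩ := Tm.fn_inj h2
    obtain rfl : m = m' := by omega
    subst h2'
    exact ⟨hm', X, D, hD, h3⟩
  have hdead : (∀ us, RL (trs G) ts us → ¬ K2 G M Z (.fn (5 + m) us)) →
      Safe G (K2 G M Z) (.fn (5 + m) ts) := by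
    intro h
    refine safe_dead hb ?_ not_k2_bul h (fun D u hu _ => k2_plug D u hu)
    rcases nodeA hn hr ih false (fun _ => False) False (K := fun _ => False)
      (fun _ h => h.elim) with h | h
    · exact h
    · exact h.1.elim
  by_cases hMm : M m
  swap
  · exact hdead (fun us _ h => hMm (hK' us h).1)
  have hWm := hW m hMm
  obtain ⟨ws, hws, hwr⟩ : ∃ ws, RL (trs G) ts ws ∧ IsRedex (trs G) (.fn (5 + m) ws) := by
    rcases root_lemma (hs .bul) with ⟨us, h, _⟩ | h
    · cases h
    · exact h
  obtain ⟨hm, ⟨hJ, hwl, hw⟩ | ⟨jw, hjw, bw, hbw, Xw, mw, hmw, hw⟩⟩ := node_redex.1 hwr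
  · -- a leaf
    have hlt : ts.length = G.n := by rw [hws.1, hwl]
    by_cases hone : ∃ i < G.n, gt ts i = c 1
    · obtain ⟨i, hi, h1⟩ := hone
      apply hdead
      intro us hus hk
      obtain ⟨_, X, D, hD, h2, h3, h4⟩ := hK' us hk
      have h5 := hus.2 i (by omega)
      rw [h1] at h5
      have h6 := nf_ru (nf_c 1) h5
      by_cases hDi : D i
      · exact not_patP_c ⟨1, h6⟩ ((h3 i hi).1 hDi)
      · have := (h3 i hi).2 hDi
        rw [h6] at this
        simp [c] at this
    · push Not at hone
      have hsoft : ∀ i < G.n, SoftU G (gt ts i) := by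
        intro i hi
        have h5 := hws.2 i (by omega)
        rw [hw i hi] at h5
        rcases ru_const h5 ⟨1, rfl⟩ with h | h
        · exact absurd h (hone i hi)
        · exact h
      obtain ⟨b, hb', hZb⟩ : ∃ b < G.n, ¬ Z b := by
        by_contra hcon
        push Not at hcon
        exact hWm (Game.Win.leaf hm hJ hcon)
      have hbl : b < ts.length := by omega
      refine safe_col hbl (ih b hbl (soft_not_nf (hsoft b hb'))).p0.cst
        (fun us hus hreach h => ?_)
      rcases h with h | h
      · obtain ⟨_, ⟨_, _, h⟩ | ⟨j, hj, _⟩⟩ := node_redex.1 h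
        · rw [h b hb']
          exact ⟨1, rfl⟩
        · omega
      · obtain ⟨_, X, D, hD, h2, h3, h4⟩ := hK' us h
        exact ⟨0, (h3 b hb').2 (fun hDb => hZb (hD b hb' hDb))⟩
  · -- an inner node
    have hlt : ts.length = G.n + G.J m := by rw [hws.1, hw.1]
    by_cases hnz : ∃ i < G.n, ∃ X, gt ts i = cX X
    · obtain ⟨i, hi, X0, h1⟩ := hnz
      apply hdead
      intro us hus hk
      obtain ⟨_, X, D, hD, h2, h3, h4⟩ := hK' us hk
      have h5 := hus.2 i (by omega)
      rw [h1] at h5
      have h6 := nf_ru (nf_cX X0) h5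
      by_cases hDi : D i
      · refine not_patP_c ?_ ((h3 i hi).1 hDi)
        rw [h6]
        exact cst_cX X0
      · have := (h3 i hi).2 hDi
        rw [h6] at this
        exact cX_ne X0 this
    push Not at hnz
    have hbits : ∀ i < G.n, gt ts i = c 0 ∨ SoftU G (gt ts i) := by
      intro i hi
      have h5 := hws.2 i (by omega)
      rw [hw.2.1 i hi] at h5
      split at h5
      · rcases ru_const h5 (cst_cX _) with h | h
        · exact absurd h (hnz i hi _)
        · exact Or.inr h
      · exact ru_const h5 ⟨0, rfl⟩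
    by_cases hall : ∀ j < G.J m, SoftU G (gt ts (G.n + j))
    swap
    · push Not at hall
      obtain ⟨k, hk, hks⟩ := hall
      apply hdead
      intro us hus hkk
      obtain ⟨_, X, D, hD, h2, h3, h4⟩ := hK' us hkk
      have h5 := hus.2 (G.n + k) (by omega)
      rw [h4 k hk] at h5
      have h6 : gt ts (G.n + k) = c 0 := by
        rcases ru_const h5 ⟨0, rfl⟩ with h | h
        · exact h
        · exact absurd h hks
      have h7 := hws.2 (G.n + k) (by omega)
      rw [h6] at h7
      have h8 := nf_ru (nf_c 0) h7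
      by_cases hkj : k = jw
      · subst hkj
        exact not_isX_c ⟨0, h8⟩ hw.2.2.2
      · rw [hw.2.2.1 k hk hkj] at h8
        simp [c] at h8
    by_cases hsub : ∃ b < G.n, SoftU G (gt ts b) ∧ ¬ Z b
    · obtain ⟨b, hb', hbs, hZb⟩ := hsub
      have hbl : b < ts.length := by omega
      refine safe_col hbl (ih b hbl (soft_not_nf hbs)).p0.cst (fun us hus hreach h => ?_)
      rcases h with h | h
      · obtain ⟨_, ⟨_, _, h⟩ | ⟨j, hj, b2, hb2, X, m', hm', h⟩⟩ := node_redex.1 h
        · rw [h b hb']
          exact ⟨1, rfl⟩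
        · rw [h.2.1 b hb']
          split
          · exact cst_cX X
          · exact ⟨0, rfl⟩
      · obtain ⟨_, X, D, hD, h2, h3, h4⟩ := hK' us h
        exact ⟨0, (h3 b hb').2 (fun hDb => hZb (hD b hb' hDb))⟩
    push Not at hsub
    -- there is a losing branch
    have hWs : ¬ G.Win m (fun b => SoftU G (gt ts b)) :=
      fun h => hWm (h.mono hsub)
    obtain ⟨j, hj, hlose⟩ : ∃ j < G.J m, ∀ m' ∈ (G.br m j).2,
        ¬ G.Win m' (G.image (G.br m j).1 (fun b => SoftU G (gt ts b))) := by
      by_contra hcon
      push Not at hcon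
      have h2 : ∀ j, ∃ m', j < G.J m → m' ∈ (G.br m j).2 ∧
          G.Win m' (G.image (G.br m j).1 (fun b => SoftU G (gt ts b))) := by
        intro j
        by_cases hj : j < G.J m
        · obtain ⟨m', h1, h2⟩ := hcon j hj
          exact ⟨m', fun _ => ⟨h1, h2⟩⟩
        · exact ⟨0, fun h => absurd h hj⟩
      choose f hf using h2
      exact hWs (Game.Win.node hm (by omega) f (fun j hj => (hf j hj).1)
        (fun j hj => (hf j hj).2))
    have hjl : G.n + j < ts.length := by omega
    have hsj := (ih _ hjl (soft_not_nf (hall j hj))).p2 (hall j hj)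
      (fun m' => m' ∈ (G.br m j).2) _ hlose
    refine safe_col hjl hsj.orCst (fun us hus hreach h => ?_)
    rcases h with h | h
    · obtain ⟨_, ⟨hJ0, _, h⟩ | ⟨j', hj', b, hb', X, m', hm', h⟩⟩ := node_redex.1 h
      · omega
      · by_cases hjj : j' = j
        · subst hjj
          left
          refine ⟨m', hm', X, _, fun i hi hbi => ⟨b, ⟨hb', ?_⟩, hbi⟩, h.2.2.2⟩
          rcases hbits b hb' with h0 | h0
          · exfalso
            have h5 := hreach b (by omega) (by omega)
            rw [h0] at h5
            have h6 := nf_ru (nf_c 0) h5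
            rw [h.2.1 b hb', if_pos rfl] at h6
            exact cX_ne X h6
          · exact h0
        · rw [h.2.2.1 j hj (Ne.symm hjj)]
          exact Or.inr ⟨1, rfl⟩
    · obtain ⟨_, X, D, hD, h2, h3, h4⟩ := hK' us h
      exact Or.inr ⟨0, h4 j hj⟩

theorem main_ind (hacc : ¬ G.Acc) : ∀ t : Tm, ¬ HasBul t → ¬ NF (trs G) t → Ind G t := by
  refine Tm.ind ?_ ?_ ?_
  · intro x _ h
    exact absurd (nf_var x) h
  · intro h
    exact absurd hasBul_bul h
  · intro g ts ih0 hb hn
    have ih : ∀ i < ts.length, ¬ NF (trs G) (gt ts i) → Ind G (gt ts i) := by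
      intro i hi hni
      exact ih0 _ (gt_mem hi) (fun h => hb (hasBul_fn.2 ⟨_, gt_mem hi, h⟩)) hni
    by_cases hr : IsRedex (trs G) (.fn g ts)
    · refine ⟨fun X M D => Or.inl (safe_of_redex hr ?_), fun _ M Z _ => safe_of_redex hr
        not_k2_bul, fun X => Or.inl (safe_of_redex hr not_patP_bul)⟩
      rintro ⟨m, _, h⟩
      exact not_isX_bul h
    · have hKX : ∀ X M D, g < 5 → ∀ us, ¬ KX G X M D (.fn g us) := by
        rintro X M D hg us ⟨m, _, us', h, _⟩
        have h := (Tm.fn_inj h).1
        omega
      have hK2 : ∀ M Z, g < 5 → ∀ us, ¬ K2 G M Z (.fn g us) := by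
        rintro M Z hg us ⟨m, _, X, D, _, us', h, _⟩
        have h := (Tm.fn_inj h).1
        omega
      have hPP : ∀ X, g ≠ 3 → ∀ us, ¬ PatP X (.fn g us) := by
        rintro X hg us ⟨v, h⟩
        cases X
        · simp only [Bool.false_eq_true, if_false] at h
          have h := (Tm.fn_inj h).1
          exact hg h
        · simp only [if_true] at h
          have h := (Tm.fn_inj h).1
          exact hg h
      by_cases h5 : 5 ≤ g
      · obtain ⟨m, rfl⟩ : ∃ m, g = 5 + m := ⟨g - 5, by omega⟩
        refine ⟨fun X M D => ?_, fun hs M Z hW => nodeB hb hn hr ih hs M Z hW, fun X => ?_⟩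
        · have hk : ∀ us, KX G X M D (.fn (5 + m) us) → M m ∧ IsX G X m D (.fn (5 + m) us) := by
            rintro us ⟨m', hm', us', h2, h3⟩
            obtain ⟨h1, h2'⟩ := Tm.fn_inj h2
            obtain rfl : m = m' := by omega
            subst h2'
            exact ⟨hm', _, rfl, h3⟩
          rcases nodeA hn hr ih X D (M m) hk with h | h
          · exact Or.inl h
          · exact Or.inr ⟨m, h.1, h.2⟩
        · rcases nodeA hn hr ih X (fun _ => False) False (K := PatP X)
            (fun us h => absurd h (hPP X (by omega) us)) with h | h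
          · exact Or.inl h
          · exact h.1.elim
      · by_cases h3 : g = 3
        · subst h3
          exact ⟨fun X M D => Or.inl (case3 hn hr ih (hKX X M D (by omega))),
            fun _ M Z _ => case3 hn hr ih (hK2 M Z (by omega)), case3_p3 hn hr ih⟩
        · by_cases h4 : g = 4
          · subst h4
            exact ⟨fun X M D => Or.inl (case4 hacc hn hr ih (hKX X M D (by omega))),
              fun _ M Z _ => case4 hacc hn hr ih (hK2 M Z (by omega)),
              fun X => Or.inl (case4 hacc hn hr ih (hPP X (by omega)))⟩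
          · have hnr : ∀ us, ¬ IsRedex (trs G) (.fn g us) := by
              intro us h
              rw [redex_iff] at h
              rcases h with h | ⟨v, h⟩ | ⟨X, m, hm, v, h, _⟩ | ⟨m', hm', hJ', h⟩ |
                ⟨m', hm', j, hj, b1, hb1, X, m'', hm'', us, h, hus⟩ <;>
              · have h := (Tm.fn_inj h).1
                omega
            have hdef : ∀ K : Tm → Prop, (∀ us, ¬ K (.fn g us)) → Safe G K (.fn g ts) := by
              intro K hK
              refine safe_default hn hr ih (fun us _ h => ?_)
              rcases h with h | h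
              · exact absurd h (hnr us)
              · exact absurd h (hK us)
            exact ⟨fun X M D => Or.inl (hdef _ (hKX X M D (by omega))),
              fun _ M Z _ => hdef _ (hK2 M Z (by omega)),
              fun X => Or.inl (hdef _ (hPP X h3))⟩

/-- If the game is not accepting then the system is strongly sequential. -/
theorem stronglySequential_of_not_acc (hacc : ¬ G.Acc) : StronglySequential (trs G) := by
  intro t _ hb hn
  obtain ⟨D, e, h1, h2, h3⟩ := (main_ind hacc t hb hn).p0
  refine ⟨D, e, h1, h2, fun s hs _ => (h3 s ?_).1⟩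
  clear h2 h3
  rename_i hnf
  clear hnf
  induction hs with
  | refl => exact ReflTransGen.refl
  | tail _ h ih => exact ih.tail h.toU

theorem acc_iff : G.Acc ↔ ¬ StronglySequential (trs G) :=
  ⟨not_stronglySequential_of_acc, fun h => by
    by_contra hcon
    exact h (stronglySequential_of_not_acc hcon)⟩

end Pool.Agent.H820R2.SS
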